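import Pool.Agent.MP_41bf72_lc.AP.Spec

/-! The cardinals of the extension. -/

set_option autoImplicit false

namespace Pool.Agent.MP_41bf72_lc.AP

open Cardinal Set Order Pool.Agent.MP_76b292_lc Pool.Agent.MP_76b292_lc.BSet

namespace Aleph

variable {B : Type} [CompleteBooleanAlgebra B]

theorem gap {b : B} {x y : BSet B} {T : Type} (h1 : b ≤ blim om y) (h2 : b ≤ blt x y)
    (h3 : b ≤ ble y (chk T)) (h4 : ∀ s : Set T, #s < #T → (⊤ : B) ≤ ble (chk s) x) : b ≤ ⊥ := by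
  refine iSup_elim (mp (iInf_elim (inf_r h1) x) h2) fun y' c k1 k2 => ?_
  refine sup_elim (enum y' T) (fun d l1 l2 => ?_) (fun d l1 l2 => iSup_elim l2 fun s e m1 m2 => ?_)
  · exact compl_elim (ble_trans ((l1.trans k1).trans h3) l2) (l1.trans (inf_r (inf_r k2)))
  · exact compl_elim (ble_trans m2 (le_top.trans (h4 s.1 s.2)))
      ((m1.trans l1).trans (inf_r (inf_l k2)))

theorem core {τ η : Cardinal.{0}} (κ : ℕ → Cardinal.{0}) (hs : ∀ n, κ (n + 1) = succ (κ n))
    (hlt : ∀ n, κ n < η) (hcof : ∀ c < η, ∃ n, c ≤ κ n) (hτ : ℵ₀ < τ) (hμ : τ ≤ κ 0)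
    (col2 : (⊤ : B) ≤ ble (chk (κ 0).out) (chk (Wt τ)))
    (sm : ∀ T : Type, #T < τ → (⊤ : B) ≤ ble (chk T) om)
    (unc : (⊤ : B) ≤ (ble (chk (Wt τ)) om)ᶜ)
    (pres : ∀ S T : Type, κ 0 < #T → #S < #T → (⊤ : B) ≤ (ble (chk T) (chk S))ᶜ) :
    BAl (B := B) (chk η.out) (chk (Ix η)) := by
  have mono : ∀ n, κ 0 ≤ κ n := fun n => by
    induction n with
    | zero => exact le_rfl
    | succ n ih => rw [hs]; exact ih.trans (le_succ _)
  have hτη : τ ≤ η := hμ.trans (hlt 0).le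
  have key : ∀ (y : BSet B) (n : ℕ) (b : B), b ≤ blim om y → b ≤ ble y (chk (κ n).out) →
      b ≤ ⊥ := by
    intro y n
    induction n with
    | zero =>
      intro b h1 h2
      exact gap h1 (inf_l h1) (ble_trans h2 (le_top.trans col2)) fun s h =>
        sm _ (h.trans_eq mk_Wt)
    | succ n ih =>
      intro b h1 h2
      refine bcases (ble y (chk (κ n).out)) (fun c k1 k2 => ih c (k1.trans h1) k2)
        (fun c k1 k2 => gap (x := chk (κ n).out) (k1.trans h1) (le_inf ?_ k2) (k1.trans h2)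
          fun s h => chk_le ?_)
      · exact sup_elim (enum y (κ n).out) (fun _ _ l => l) fun d l1 l2 =>
          iSup_elim l2 fun s e m1 m2 =>
            compl_elim (ble_trans m2 (chk_le s.2.le)) ((m1.trans l1).trans k2)
      · exact (lt_succ_iff.1 (h.trans_eq ((mk_out _).trans (hs n)))).trans_eq (mk_out _).symm
  refine ⟨le_inf (le_inf ?_ ?_) (le_iInf fun y => himp_intro fun c _ k => ?_), fun b y h => ?_,
    le_inf (chk_le ?_) (pres _ _ ?_ ?_), fun b y h => ?_⟩
  · exact le_of_emb (dist_pt _) (by rw [mk_out]; simpa using hτ.le.trans hτη)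
  · exact compl_intro fun c _ k => compl_elim
      (ble_trans (chk_le (by rw [mk_out, mk_Wt]; exact hτη)) k) (le_top.trans unc)
  · refine sup_elim (enum y η.out) (fun d l1 l2 => compl_elim l2 (l1.trans (inf_r k)))
      (fun d _ l2 => iSup_elim l2 fun s e _ m2 => ?_)
    obtain ⟨n, hn⟩ := hcof _ (s.2.trans_eq (mk_out _))
    have a1 : #s.1 < #(κ (n + 1)).out :=
      (lt_succ_iff.2 hn).trans_eq ((mk_out _).trans (hs n)).symm
    have a2 : κ 0 < #(κ (n + 1)).out := by rw [mk_out, hs]; exact lt_succ_iff.2 (mono n)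
    have a3 : #(κ (n + 1)).out < #η.out := by rw [mk_out, mk_out]; exact hlt _
    refine iSup_intro (chk (κ (n + 1)).out) (le_inf (le_inf (ble_trans m2 (chk_le a1.le)) ?_)
      (le_inf (chk_le a3.le) (le_top.trans (pres _ _ (a2.trans a3) a3))))
    exact compl_intro fun g n1 n2 =>
      compl_elim (ble_trans n2 (n1.trans m2)) (le_top.trans (pres _ _ a2 a1))
  · refine sup_elim (enum y η.out) (fun _ _ l => l) (fun d l1 l2 => iSup_elim l2 fun s e m1 m2 => ?_)
    obtain ⟨n, hn⟩ := hcof _ (s.2.trans_eq (mk_out _))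
    exact (key y n e ((m1.trans l1).trans h)
      (ble_trans m2 (chk_le (hn.trans_eq (mk_out _).symm)))).trans bot_le
  · rw [mk_out, mk_Ix]; exact le_succ _
  · rw [mk_Ix]; exact (hlt 0).trans (lt_succ _)
  · rw [mk_out, mk_Ix]; exact lt_succ _
  · refine sup_elim (enum y (Ix η)) (fun d l1 l2 => compl_elim l2 (l1.trans (inf_r h)))
      (fun d _ l2 => iSup_elim l2 fun s e _ m2 => ble_trans m2 (chk_le ?_))
    exact (lt_succ_iff.1 (s.2.trans_eq mk_Ix)).trans_eq (mk_out _).symm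

end Aleph

theorem aleph : AlephStmt := by
  intro τ o k z P B _ le pr L hτ hμ F
  refine Aleph.core (fun n => ℵ_ (o + ((k + n : ℕ) : Ordinal))) (fun n => ?_) (fun n => ?_)
    (fun c hc => ?_) hτ hμ F.col2 F.sm F.unc F.pres
  · rw [succ_aleph, ← add_assoc k n 1, Nat.cast_succ, add_assoc]
  · exact aleph_lt_aleph.2 (add_lt_add_right (Ordinal.natCast_lt_omega0 _) _)
  · rcases le_total c ℵ₀ with h | h
    · exact ⟨0, h.trans (aleph0_le_aleph _)⟩
    · obtain ⟨a, rfl⟩ := mem_range_aleph_iff.2 h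
      obtain ⟨d, hd, ha⟩ := (Ordinal.lt_add_iff Ordinal.omega0_ne_zero).1 (aleph_lt_aleph.1 hc)
      obtain ⟨m, rfl⟩ := Ordinal.lt_omega0.1 hd
      exact ⟨m, aleph_le_aleph.2 (ha.trans (add_le_add_right (Nat.cast_le.2 (by omega)) _))⟩

end Pool.Agent.MP_41bf72_lc.AP
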