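import Pool.Agent.MP_41bf72_lc.AP.Spec2

/-! Few rows meet a small set in an infinite set; approachability cuts the earlier blocks into
countably many chains. -/

set_option autoImplicit false

namespace Pool.Agent.MP_41bf72_lc.AP

open Cardinal Set Order Pool.Agent.MP_76b292_lc Pool.Agent.MP_76b292_lc.BSet

theorem bad : BadStmt := by
  intro η P B κ K _ le pr a c hc hP ad W hW
  have h1 : ∀ j : Bad le pr a W, ∃ p, ¬ DFin le pr (a j) W p := fun j => not_forall.1 j.2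
  choose p hp using h1
  have h2 : #(P × Set (P × W)) < η := by
    rw [mk_prod, mk_set, mk_prod]
    simp only [lift_id]
    exact mul_lt_of_lt c.inf hP (c.sl _ (mul_lt_of_lt c.inf hP hW))
  refine (mk_le_of_injective (f := fun j : Bad le pr a W =>
    ((p j, {x | pr x.1 ≤ a j x.2}) : P × Set (P × W))) fun i j e => ?_).trans_lt h2
  by_contra hne
  obtain ⟨e1, e2⟩ := Prod.mk.inj e
  obtain ⟨q, k1, s, k2, k3⟩ := ad i j (fun k => hne (Subtype.ext k)) (p i)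
  refine hp i ⟨q, k1, s, k2, fun x hx hs => ?_⟩
  rw [le_compl_iff_disjoint_right, disjoint_iff_inf_le]
  by_contra k4
  obtain ⟨r, k5, k6⟩ := hc.ext k4
  have k7 : pr r ≤ a j x := (Set.ext_iff.1 e2 (r, ⟨x, hx⟩)).1 k6
  have k8 := (hc.mono k5).trans (k3 x (mem_univ x) hs)
  exact hc.pos r ((le_inf (le_inf k6 k7) k8).trans_eq (inf_compl_eq_bot))

namespace Block

variable {η : Cardinal.{0}}

theorem cover (c : Crit ℵ₀ η) {ι κ : Type} (G : ι → Set κ) (hG : ∀ b, #(G b) ≤ η) :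
    ∃ (X : ι → ℕ → Set κ) (ν : ℕ → Cardinal.{0}), (∀ n, ν n < η) ∧ (∀ b n, #(X b n) ≤ ν n) ∧
      ∀ b, ∀ x ∈ G b, ∃ n, x ∈ X b n := by
  obtain ⟨e⟩ : Nonempty (ℕ ≃ (ℵ₀ : Cardinal.{0}).out) := Cardinal.eq.1 (by simp)
  obtain ⟨V, v1, v2⟩ := c.dec η.out univ (by simp)
  have h : ∀ b, Nonempty (G b ↪ η.out) := fun b => by
    rw [← Cardinal.le_def, mk_out]; exact hG b
  let f := fun b => Classical.choice (h b)
  refine ⟨fun b n => Subtype.val '' (f b ⁻¹' V (e n)), fun n => #(V (e n)), fun n => v2 _,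
    fun b n => mk_image_le.trans (mk_preimage_of_injective _ _ (f b).injective),
    fun b x hx => ?_⟩
  obtain ⟨ξ, k⟩ := mem_iUnion.1 (v1 (mem_univ (f b ⟨x, hx⟩)))
  exact ⟨e.symm ξ, ⟨x, hx⟩, by rw [mem_preimage, e.apply_symm_apply]; exact k, rfl⟩

theorem small {d : Ix η} {A : Set (Iio d)} (h1 : IsCofinal A)
    (h2 : Ordinal.type (α := A) (· < ·) = (Order.cof (Iio d)).ord) {b : Ix η} (hb : b < d) :
    #(Subtype.val '' A ∩ Iio b : Set (Ix η)) < η := by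
  obtain ⟨y, hy, k⟩ := h1 ⟨b, hb⟩
  have k1 := Ordinal.typein_lt_type (α := A) (· < ·) ⟨y, hy⟩
  rw [h2, lt_ord] at k1
  have k2 : #(Iio (⟨y, hy⟩ : A)) < η :=
    lt_of_lt_of_le k1 ((cof_le_cardinalMk _).trans (mk_Iio_Ix d))
  refine (mk_le_mk_of_subset (t := (fun z : A => z.1.1) '' Iio ⟨y, hy⟩) ?_).trans_lt
    (mk_image_le.trans_lt k2)
  rintro _ ⟨⟨z, hz, rfl⟩, k3⟩
  exact ⟨⟨z, hz⟩, lt_of_lt_of_le k3 k, rfl⟩

end Block

open Block in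
theorem block : BlockStmt := by
  intro η P B κ _ le pr a g c ⟨a0, C, hC, hA⟩ hc hP ad hg
  obtain ⟨X, ν, x1, x2, x3⟩ := cover c (fun b => ⋃ i ∈ Iic b, g i)
    fun b => mk_biUnion_le'' c.inf (mk_Iic_Ix c.inf b) fun i _ => hg i
  have w1 : ∀ i n, #(a0 i) < η → #(⋃ b ∈ a0 i, X b n) < η := fun i n k => by
    rw [biUnion_eq_iUnion]
    exact (mk_iUnion_le' le_rfl fun b : a0 i => x2 b n).trans_lt (mul_lt_of_lt c.inf k (x1 n))
  have h0 : ∀ γ : Ix η, ∃ u, (∃ y ∈ C, γ < y ∧ y < u) ∧ (#(a0 γ) < η → ∀ n,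
      ∀ j ∈ Bad le pr a (⋃ b ∈ a0 γ, X b n), j < u) := fun γ => by
    obtain ⟨y0, k1⟩ := bdd c.inf (s := {γ}) (by simpa using one_le_aleph0.trans c.inf)
    obtain ⟨y, k2, k3⟩ := hC.isCofinal y0
    obtain ⟨u, k4⟩ := bdd c.inf (s := {y} ∪ ⋃ n ∈ {_n : ℕ | #(a0 γ) < η},
        Bad le pr a (⋃ b ∈ a0 γ, X b n))
      (mk_union_le' c.inf (by simpa using one_le_aleph0.trans c.inf)
        (mk_biUnion_le'' c.inf (mk_le_aleph0.trans c.inf) fun n hn =>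
          (bad η P B κ _ le pr a c hc hP ad _ (w1 γ n hn)).le))
    exact ⟨u, ⟨y, k2, (k1 γ rfl).trans_le k3, k4 y (Or.inl rfl)⟩,
      fun k n j hj => k4 j (Or.inr (mem_biUnion (x := n) k hj))⟩
  choose h h1 h2 using h0
  obtain ⟨bl, b1, b2, b3, b4⟩ := blocks c.inf h
  refine ⟨bl, b4, fun i j k => (b3 i j k).trans_le (b2 j), fun j => ?_⟩
  by_cases hn : ∃ i, i < bl j
  swap
  · refine ⟨fun _ => 0, fun _ => 0, fun x hx => ?_⟩
    obtain ⟨i, hi, -⟩ := mem_iUnion₂.1 hx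
    exact (hn ⟨i, b3 i j hi⟩).elim
  obtain ⟨i0, hi0⟩ := hn
  have hlt : ∀ γ, γ < h γ := fun γ => let ⟨_, _, k1, k2⟩ := h1 γ; k1.trans k2
  have hδ : bl j ∈ C := by
    obtain ⟨y, k1, -, k3⟩ := h1 i0
    refine hC.isLUB_mem (t := C ∩ Iio (bl j)) inter_subset_left
      ⟨y, k1, k3.trans (b1 j i0 hi0)⟩ ⟨fun z hz => hz.2.le, fun u hu => not_lt.1 fun k => ?_⟩
    obtain ⟨z, l1, l2, l3⟩ := h1 u
    exact l2.not_ge (hu ⟨l1, l3.trans (b1 j u k)⟩)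
  obtain ⟨A, a1, a2, a3⟩ := hA _ hδ
  have h3 : ∀ x, ∃ (b : Ix η) (n : ℕ), x ∈ ⋃ i ∈ {i | bl i < bl j}, g i →
      b ∈ Subtype.val '' A ∧ x ∈ X b n := fun x => by
    by_cases hx : x ∈ ⋃ i ∈ {i | bl i < bl j}, g i
    · obtain ⟨i, hi, k⟩ := mem_iUnion₂.1 hx
      obtain ⟨b, k1, k2⟩ := a1 ⟨i, b3 i j hi⟩
      obtain ⟨n, k3⟩ := x3 b.1 x (mem_biUnion (x := i) k2 k)
      exact ⟨b.1, n, fun _ => ⟨⟨b, k1, rfl⟩, k3⟩⟩
    · exact ⟨j, 0, fun k => (hx k).elim⟩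
  choose b n h3 using h3
  refine ⟨n, fun x => Ordinal.typein (α := Ix η) (· < ·) (b x), fun x hx p => ?_⟩
  have k1 : h (b x) < bl j := by
    obtain ⟨z, -, e⟩ := (h3 x hx).1
    exact b1 j _ (e ▸ z.2)
  obtain ⟨i, k2, k3⟩ := a3 _ k1
  have k4 : j ∉ Bad le pr a (⋃ b ∈ a0 i, X b (n x)) := fun k =>
    (h2 i (k3 ▸ small a1 a2 k1) _ j k).not_ge ((b1 j i k2).le.trans (b2 j))
  obtain ⟨q, k5, s, k6, k7⟩ := not_not.1 k4 p
  refine ⟨q, k5, s, k6, fun y hy => k7 y ?_⟩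
  obtain ⟨l1, l2, l3⟩ := hy
  refine mem_biUnion (x := b y) ?_ (l2 ▸ (h3 y l1).2)
  rw [k3]
  exact ⟨(h3 y l1).1, ((Ordinal.typein_le_typein' _).1 l3).trans_lt (hlt _)⟩

end Pool.Agent.MP_41bf72_lc.AP
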