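import Pool.Agent.MP_41bf72_lc.AP.Spec

/-! Sizes in the extension. -/

set_option autoImplicit false

namespace Pool.Agent.MP_41bf72_lc.AP

open Cardinal Set Order Pool.Agent.MP_76b292_lc Pool.Agent.MP_76b292_lc.BSet

namespace Derive

variable {τ μ : Cardinal.{0}} {z : Wt τ → ℕ → Set (Wt τ)} {P B : Type} [CompleteBooleanAlgebra B]
  {le : P → P → Prop} {pr : P → B} {L : Wt τ → B}

theorem sm (h : Gen τ μ z le pr L) (hτ : τ.IsRegular) (T : Type) (hT : #T < τ) :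
    (⊤ : B) ≤ ble (chk T) om := by
  obtain ⟨g⟩ := (Cardinal.le_def T (Wt τ)).1 (hT.le.trans_eq mk_Wt.symm)
  obtain ⟨b, hb⟩ := bdd_Wt hτ (s := range g) (mk_range_le.trans_lt hT)
  exact ble_trans (chk_le (mk_le_of_injective (f := fun t => (⟨g t, hb _ ⟨t, rfl⟩⟩ : Iio b))
    fun _ _ e => g.injective (congrArg Subtype.val e))) (h.col1 b)

theorem cov (h : Gen τ μ z le pr L) (hτ : τ.IsRegular) (h0 : ℵ₀ < τ) (ι : Type) (φ : ι → B)
    (p : P) (hp : pr p ≤ ble ⟨ι, pt, φ⟩ om) :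
    ∃ q, le q p ∧ ∃ S : Set ι, #S < τ ∧ ∀ i ∉ S, pr q ≤ (φ i)ᶜ := by
  have hc := h.hc
  obtain ⟨e, h1, h2, -⟩ := idx_of_le (dist_pt φ) (dist_nat _) hp
  obtain ⟨q, k1, S, k2, k3⟩ := h.prop
    (fun n => {d | (∃ i, pr d ≤ e i ⟨n⟩) ∨ pr d ≤ (⨆ i, e i ⟨n⟩)ᶜ}) (fun n r => by
      obtain ⟨s, m1, m2 | m2⟩ := hc.dec r (⨆ i, e i ⟨n⟩)
      · obtain ⟨t, i, m3, m4⟩ := hc.ex m2
        exact ⟨t, Or.inl ⟨i, m4⟩, hc.trans m3 m1⟩
      · exact ⟨s, Or.inr m2, m1⟩) p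
  refine ⟨q, k1, ⋃ d ∈ S, ⋃ n ∈ (univ : Set ℕ), {i | pr d ≤ e i ⟨n⟩ ∧ ¬pr d ⊓ pr p ≤ ⊥},
    small_iUnion hτ k2 fun d _ => small_iUnion hτ (by simpa using h0) fun n _ =>
      (mk_le_one_iff_set_subsingleton.2 fun i hi j hj => by_contra fun m =>
        hi.2 (h2 i j _ _ inf_le_right m (inf_l le_rfl |>.trans hi.1)
          (inf_l le_rfl |>.trans hj.1))).trans_lt (one_lt_aleph0.trans h0),
    fun i hi => hc.force fun r l1 => ?_⟩
  obtain ⟨s, m1, m2 | m2⟩ := hc.dec r (φ i)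
  swap
  · exact ⟨s, m1, m2⟩
  have m3 := hc.trans (hc.trans m1 l1) k1
  obtain ⟨u, j, m4, m5⟩ := hc.ex (h1 i _ (hc.mono m3) m2)
  obtain ⟨d, n1, n2, t, n3, n4⟩ := k3 j.down u (hc.trans m4 (hc.trans m1 l1))
  have o1 : pr t ≤ e i j := (hc.mono n3).trans (inf_r m5)
  have o2 : pr t ≤ pr p := hc.mono (hc.trans n3 (hc.trans m4 m3))
  rcases n1 with ⟨i', n1⟩ | n1
  · obtain rfl : i = i' := by_contra fun m =>
      hc.pos t (h2 i i' j _ o2 m o1 ((hc.mono n4).trans n1))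
    exact (hi (mem_biUnion n2 (mem_biUnion (mem_univ j.down)
      ⟨n1, fun m => hc.pos t ((le_inf (hc.mono n4) o2).trans m)⟩))).elim
  · exact (hc.pos t (compl_elim (iSup_intro i o1) ((hc.mono n4).trans n1))).elim

theorem unc (h : Gen τ μ z le pr L) (hτ : τ.IsRegular) (h0 : ℵ₀ < τ) :
    (⊤ : B) ≤ (ble (chk (Wt τ)) om)ᶜ := by
  refine compl_intro fun c _ k => h.hc.le_bot fun p hp => ?_
  obtain ⟨q, -, S, k1, k2⟩ := cov h hτ h0 _ _ p (hp.trans k)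
  obtain ⟨b, hb⟩ := bdd_Wt hτ k1
  exact h.hc.pos q (compl_elim le_top (k2 b fun m => (hb b m).false))

theorem ch (h : Gen τ μ z le pr L) (h0 : ℵ₀ < τ) (h1 : τ ≤ μ) (h2 : μ ^ τ ≤ μ) :
    ∃ (Z : Type) (ev : Z → ℕ → B), #Z ≤ μ ∧ ∀ χ : ℕ → B, ⊤ ≤ ⨆ w, ⨅ n, bi (χ n) (ev w n) := by
  have hc := h.hc
  have h3 : ℵ₀ ≤ μ := h0.le.trans h1
  refine ⟨{w : Set (P × ℕ) // #w ≤ τ}, fun w n => ⨆ d : {d // (d, n) ∈ w.1}, pr d.1,
    (mk_bounded_set_le _ _).trans ((power_le_power_right (max_le ?_ h3)).trans h2),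
    fun χ => hc.le_of fun f _ => ?_⟩
  · simpa using mul_le_of_le h3 h.card h3
  obtain ⟨q, k1, S, k2, k3⟩ := h.prop (fun n => {d | pr d ≤ χ n ∨ pr d ≤ (χ n)ᶜ})
    (fun n r => let ⟨s, m1, m2⟩ := hc.dec r (χ n); ⟨s, m2, m1⟩) f
  refine ⟨q, k1, iSup_intro ⟨{x | x.1 ∈ S ∧ pr x.1 ≤ χ x.2}, (mk_le_mk_of_subset
    (t := S ×ˢ (univ : Set ℕ)) fun x hx => ⟨hx.1, mem_univ _⟩).trans ?_⟩ (le_iInf fun n => bi_intro
      (fun c m1 m2 => hc.le_of' m1 fun r n1 n2 => ?_)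
      fun c _ m2 => m2.trans (iSup_le fun d => d.2.2))⟩
  · simpa [mk_setProd] using mul_le_of_le h0.le k2.le h0.le
  obtain ⟨d, o1 | o1, o2, t, o3, o4⟩ := k3 n r n1
  · exact ⟨t, o3, iSup_intro ⟨d, o2, o1⟩ (hc.mono o4)⟩
  · exact (hc.pos t (compl_elim ((hc.mono o3).trans (n2.trans m2)) ((hc.mono o4).trans o1))).elim

theorem pres (h : Gen τ μ z le pr L) (h3 : ℵ₀ ≤ μ) (S T : Type) (h1 : μ < #T) (h2 : #S < #T) :
    (⊤ : B) ≤ (ble (chk T) (chk S))ᶜ := by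
  refine compl_intro fun c _ k => h.hc.le_bot fun p hp => ?_
  obtain ⟨e, k1, k2, -⟩ := idx_of_le (dist_pt _) (dist_pt _) (hp.trans k)
  choose q s m1 m2 using fun t => h.hc.ex (k1 t _ le_rfl le_top)
  refine (mul_lt_of_lt (h3.trans h1.le) (h.card.trans_lt h1) h2).not_ge ?_
  have := mk_le_of_injective (f := fun t => (q t, s t)) fun t t' r => by_contra fun m => by
    obtain ⟨r1, r2⟩ := Prod.mk.inj r
    exact h.hc.pos (q t) (k2 t t' (s t) _ (h.hc.mono (m1 t)) m (inf_r (m2 t))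
      (r1 ▸ r2 ▸ inf_r (m2 t')))
  simpa using this

theorem fin (hc : Cpl le pr) (T : Type) (hT : Finite T) : (⊤ : B) ≤ (ble om (chk T))ᶜ := by
  refine compl_intro fun c _ k => hc.le_bot fun p hp => ?_
  obtain ⟨e, k1, k2, -⟩ := idx_of_le (dist_nat _) (dist_pt _) (hp.trans k)
  have key : ∀ N : ℕ, ∃ q, le q p ∧ ∀ n < N, ∃ t, pr q ≤ e ⟨n⟩ t := fun N => by
    induction N with
    | zero => exact ⟨p, hc.refl p, fun _ m => (Nat.not_lt_zero _ m).elim⟩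
    | succ N ih =>
      obtain ⟨q, m1, m2⟩ := ih
      obtain ⟨r, t, m3, m4⟩ := hc.ex (k1 ⟨N⟩ _ (hc.mono m1) le_top)
      refine ⟨r, hc.trans m3 m1, fun n hn => ?_⟩
      rcases Nat.lt_succ_iff_lt_or_eq.1 hn with m | rfl
      · exact (m2 n m).imp fun _ o => (hc.mono m3).trans o
      · exact ⟨t, inf_r m4⟩
  cases nonempty_fintype T
  obtain ⟨q, m1, m2⟩ := key (Fintype.card T + 1)
  choose g hg using fun n : Fin (Fintype.card T + 1) => m2 n n.2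
  obtain ⟨n, m, l1, l2⟩ := Fintype.exists_ne_map_eq_of_card_lt g (by simp)
  exact hc.pos q (k2 ⟨n⟩ ⟨m⟩ _ _ (hc.mono m1) (fun o => l1 (Fin.ext (congrArg ULift.down o)))
    (hg n) (l2 ▸ hg m))

end Derive

open Derive in
theorem derive : DeriveStmt := fun _ _ _ _ _ _ _ _ _ hτ h0 h1 h2 h =>
  { h with
    sm := sm h hτ
    cov := cov h hτ h0
    unc := unc h hτ h0
    ch := ch h h0 h1 h2
    pres := pres h (h0.le.trans h1)
    fin := fin h.hc }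

end Pool.Agent.MP_41bf72_lc.AP
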