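import Pool.Agent.MP_41bf72_lc.AP.Spec

/-! GCH holds in the extension. -/

set_option autoImplicit false

namespace Pool.Agent.MP_41bf72_lc.AP

open Cardinal Set Order Pool.Agent.MP_76b292_lc Pool.Agent.MP_76b292_lc.BSet

namespace Gch

variable {B : Type} [CompleteBooleanAlgebra B] {b : B} {x p y : BSet B}

theorem pow {A Z : Type} {ev : Z → A → B} (m2 : ∀ χ : A → B, ⊤ ≤ ⨆ w, ⨅ a, bi (χ a) (ev w a))
    (l2 : b ≤ ble x (chk A)) (k3 : b ≤ ⨅ z, bi (bmem z p) (bsub z x)) : b ≤ ble p (chk Z) := by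
  obtain ⟨f, n1, n2⟩ := exists_of_le l2
  have hQ : ∀ {W g}, g ≤ b → g ≤ bmem W p → g ≤ bsub W x := fun o1 o2 =>
    bi_mp (o1.trans (iInf_elim k3 _)) o2
  refine le_of_rel (R := fun W z => ⨆ w, beq z (pt w) ⊓
    ⨅ a, bi (⨆ y, bmem y W ⊓ bapp f y (pt a)) (ev w a))
    (fun _ _ _ _ _ o1 o2 => bi_mp (bi_iSup fun _ => bi_inf (bi_eq o2 (beq_refl _))
      (bi_iInf fun _ => bi_bi (bi_iSup fun _ => bi_inf (bi_mem (beq_refl _) o1) bi_refl) bi_refl)))
    (fun W g _ _ => iSup_elim (le_top.trans (m2 fun a => ⨆ y, bmem y W ⊓ bapp f y (pt a)))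
      fun w _ _ o => iSup_intro (pt w) (le_inf (pt_mem w) (iSup_intro w (le_inf (beq_refl _) o))))
    (fun W W' z g o0 o1 o2 _ o3 o4 => iSup_elim o3 fun w g1 o5 o6 => iSup_elim (o5.trans o4)
      fun w' g2 o7 o8 => pt_elim (beq_trans (beq_symm (o7.trans (inf_l o6))) (inf_l o8))
        fun ww => ?_)
  subst ww
  have aux : ∀ {W W' : BSet B}, g2 ≤ bmem W p →
      g2 ≤ ⨅ a, bi (⨆ y, bmem y W ⊓ bapp f y (pt a)) (ev w a) →
      g2 ≤ ⨅ a, bi (⨆ y, bmem y W' ⊓ bapp f y (pt a)) (ev w a) → g2 ≤ bsub W W' := by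
    intro W W' s1 s2 s3
    have s0 : g2 ≤ b := (o7.trans o5).trans o0
    refine sub_intro fun y g3 u1 u2 => iSup_elim (fn_total ((u1.trans s0).trans n1)
      (sub_elim (u1.trans (hQ s0 s1)) u2)) fun x g4 u3 u4 => mem_elim (inf_l u4)
        fun a g5 u5 _ u6 => ?_
    have v0 : g5 ≤ g2 := (u5.trans u3).trans u1
    have v1 : g5 ≤ bapp f y (pt a) := app_congr (beq_refl _) (beq_refl _) u6 (u5.trans (inf_r u4))
    refine iSup_elim (bi_mpr (v0.trans (iInf_elim s3 a)) (bi_mp (v0.trans (iInf_elim s2 a))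
      (iSup_intro y (le_inf ((u5.trans u3).trans u2) v1)))) fun y' g6 v2 v3 => ?_
    exact mem_congr_left (n2 _ _ _ g6 (v2.trans (v0.trans s0)) (inf_r v3) (v2.trans v1)) (inf_l v3)
  exact beq_of_sub (aux ((o7.trans o5).trans o1) (o7.trans (inf_r o6)) (inf_r o8))
    (aux ((o7.trans o5).trans o2) (inf_r o8) (o7.trans (inf_r o6)))

theorem codes {P : Type} {le : P → P → Prop} {pr : P → B} (hc : Cpl le pr) (A : Type)
    (χ : A → B) : ⊤ ≤ ⨆ w : A → Set P, ⨅ a, bi (χ a) (⨆ d : w a, pr d.1) :=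
  iSup_intro (fun a => {d | pr d ≤ χ a}) (le_iInf fun _ => bi_intro
    (fun _ _ k => k.trans (hc.le_of fun q hq => ⟨q, hc.refl q, iSup_intro ⟨q, hq⟩ le_rfl⟩))
    fun _ _ k => k.trans (iSup_le fun d => d.2))

theorem squeeze {T : Type} (h1 : b ≤ ble p (chk T)) (h2 : b ≤ blt y p)
    (h3 : ∀ s : Set T, #s < #T → b ≤ ble (chk s) x) : b ≤ ble y x :=
  sup_elim (enum y T)
    (fun _ k l => compl_elim (ble_trans (k.trans h1) l) (k.trans (inf_r h2)))
    fun _ k l => iSup_elim l fun s _ m n => ble_trans n ((m.trans k).trans (h3 s.1 s.2))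

end Gch

open Gch in
theorem gch : GchStmt := by
  intro τ μ z P B _ le pr L g h0 hμ h b x p y
  suffices H : ∀ (c : Cardinal.{0}) (T : Type), #T = c → ∀ b : B, b ≤ ble x (chk T) →
      b ≤ ble om x → b ≤ (⨅ z, bi (bmem z p) (bsub z x)) → b ≤ blt y p → b ≤ ble y x by
    obtain ⟨ι, A, β⟩ := x
    exact H _ ι rfl b (le_of_emb (dist_pt _) le_rfl)
  intro c
  induction c using WellFoundedLT.induction with | ind c ih => ?_
  rintro T rfl b h1 h2 h3 h4
  refine sup_elim (enum x T) (fun d k l => ?_) fun d k l => iSup_elim l fun s e m n =>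
    ih _ s.2 _ rfl e n ((m.trans k).trans h2) ((m.trans k).trans h3) ((m.trans k).trans h4)
  rcases lt_or_ge #T τ with hT | hT
  · obtain ⟨Z, ev, z1, z2⟩ := h.ch
    have a : d ≤ ble x (chk ℕ) := ble_trans (ble_trans (k.trans h1) (le_top.trans (h.sm T hT)))
      (le_of_emb (dist_pt _) (by simp))
    refine squeeze (ble_trans (ble_trans (pow z2 a (k.trans h3))
      (chk_le (z1.trans (mk_out μ).ge))) (le_top.trans h.col2)) (k.trans h4) fun s hs => ?_
    exact ble_trans (le_top.trans (h.sm s (hs.trans_eq mk_Wt))) (k.trans h2)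
  · obtain ⟨A, a1, a2, a3⟩ : ∃ A : Type, μ ≤ #A ∧ d ≤ ble x (chk A) ∧ d ≤ ble (chk A) x := by
      rcases le_total μ #T with e | e
      · exact ⟨T, e, k.trans h1, l⟩
      · exact ⟨μ.out, (mk_out μ).ge, ble_trans (k.trans h1) (chk_le (e.trans (mk_out μ).ge)),
          ble_trans (ble_trans (le_top.trans h.col2) (chk_le (mk_Wt.le.trans hT))) l⟩
    have i : ℵ₀ ≤ #A := (h0.le.trans hμ).trans a1
    have z1 : #(A → Set P) ≤ #(succ #A).out := by
      rw [mk_out, ← g _ i, mk_arrow, lift_id, lift_id, mk_set, ← power_mul]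
      refine power_le_power_left two_ne_zero ?_
      exact (mul_le_mul_left (h.card.trans a1) _).trans (mul_eq_self i).le
    refine squeeze (ble_trans (pow (codes h.hc A) a2 (k.trans h3)) (chk_le z1)) (k.trans h4)
      fun s hs => ble_trans (chk_le ?_) a3
    rwa [mk_out, lt_succ_iff] at hs

end Pool.Agent.MP_41bf72_lc.AP
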