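import Pool.Agent.MP_41bf72_lc.AP.Spec2

/-! From the combinatorial core to a transversal in the extension. -/

set_option autoImplicit false

namespace Pool.Agent.MP_41bf72_lc.AP

open Cardinal Set Order Pool.Agent.MP_76b292_lc Pool.Agent.MP_76b292_lc.BSet

namespace No

variable {P B : Type} [CompleteBooleanAlgebra B] {le : P → P → Prop} {pr : P → B}

theorem pres (hc : Cpl le pr) (S T : Type) (h0 : ℵ₀ ≤ #T) (h1 : #P < #T) (h2 : #S < #T) :
    (⊤ : B) ≤ (ble (chk T) (chk S))ᶜ := by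
  refine compl_intro fun c _ k => hc.le_bot fun p hp => ?_
  obtain ⟨e, k1, k2, -⟩ := idx_of_le (dist_pt _) (dist_pt _) (hp.trans k)
  choose q s m1 m2 using fun t => hc.ex (k1 t _ le_rfl le_top)
  refine (mul_lt_of_lt h0 h1 h2).not_ge ?_
  have := mk_le_of_injective (f := fun t => (q t, s t)) fun t t' r => by_contra fun m => by
    obtain ⟨r1, r2⟩ := Prod.mk.inj r
    exact hc.pos (q t) (k2 t t' (s t) _ (hc.mono (m1 t)) m (inf_r (m2 t))
      (r1 ▸ r2 ▸ inf_r (m2 t')))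
  simpa using this

theorem fin_all (hc : Cpl le pr) {T : Type} [Finite T] (Δ : T → P → Prop)
    (ho : ∀ t p q, le q p → Δ t p → Δ t q) (p : P) (hd : ∀ t q, ∃ r, le r q ∧ Δ t r) :
    ∃ q, le q p ∧ ∀ t, Δ t q := by
  classical
  have key : ∀ s : Finset T, ∃ q, le q p ∧ ∀ t ∈ s, Δ t q := fun s => by
    induction s using Finset.induction_on with
    | empty => exact ⟨p, hc.refl p, fun _ m => (Finset.notMem_empty _ m).elim⟩
    | insert t s _ ih =>
      obtain ⟨q, m1, m2⟩ := ih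
      obtain ⟨r, m3, m4⟩ := hd t q
      refine ⟨r, hc.trans m3 m1, fun u hu => ?_⟩
      rcases Finset.mem_insert.1 hu with rfl | m
      · exact m4
      · exact ho u q r m3 (m2 u m)
  cases nonempty_fintype T
  obtain ⟨q, m1, m2⟩ := key Finset.univ
  exact ⟨q, m1, fun t => m2 t (Finset.mem_univ t)⟩

theorem finDec (hc : Cpl le pr) {κ : Type} {A : κ → BSet B} {φ : κ → B} (hA : Dist A φ) {p : P}
    (h : pr p ≤ (ble om ⟨κ, A, φ⟩)ᶜ) : DFin le pr φ univ p := by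
  obtain ⟨q, k1, k2 | k2⟩ := hc.or (p := p) (enum ⟨κ, A, φ⟩ ℕ)
  · have k3 : pr q ≤ ble om (chk ℕ) := le_of_emb (dist_pt _) (by simp)
    exact (hc.pos q (compl_elim (ble_trans k3 k2) ((hc.mono k1).trans h))).elim
  obtain ⟨r, s, l1, l2⟩ := hc.ex k2
  have : Finite s.1 := lt_aleph0_iff_finite.1 (s.2.trans_eq mk_nat)
  obtain ⟨e, m1, m2, -⟩ := idx_of_le hA (dist_pt _) l2
  obtain ⟨u, n1, n2⟩ := fin_all hc
    (fun (j : s.1) u => (∃ i, pr u ≤ e i j) ∨ pr u ≤ (⨆ i, e i j)ᶜ)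
    (fun _ _ _ l m => m.imp (fun ⟨i, m⟩ => ⟨i, (hc.mono l).trans m⟩) (hc.mono l).trans) r
    (fun j v => by
      obtain ⟨w, o1, o2 | o2⟩ := hc.dec v (⨆ i, e i j)
      · obtain ⟨w', i, o3, o4⟩ := hc.ex o2
        exact ⟨w', hc.trans o3 o1, Or.inl ⟨i, o4⟩⟩
      · exact ⟨w, o1, Or.inr o2⟩)
  refine ⟨u, hc.trans n1 (hc.trans l1 k1), ⋃ j, {i | pr u ≤ e i j},
    finite_iUnion fun j => Set.Subsingleton.finite fun i hi i' hi' => by_contra fun m =>
      hc.pos u (m2 i i' j _ (hc.mono n1) m hi hi'), fun x _ hx => compl_intro fun c o1 o2 => ?_⟩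
  refine iSup_elim (m1 x c (o1.trans (hc.mono n1)) o2) fun j d o3 o4 => ?_
  rcases n2 j with ⟨i, hi⟩ | hj
  · exact m2 x i j d ((o3.trans o1).trans (hc.mono n1))
      (fun m => hx (mem_iUnion.2 ⟨j, m ▸ hi⟩)) (inf_r o4) ((o3.trans o1).trans hi)
  · exact compl_elim (iSup_intro x (inf_r o4)) ((o3.trans o1).trans hj)

theorem un (F : BSet B) : ∃ (κ : Type) (Ap : κ → BSet B) (γ : κ → B), Dist Ap γ ∧
    ∀ (A : BSet B) (c : B), c ≤ bmem A F → c ≤ bsub A ⟨κ, Ap, γ⟩ := by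
  obtain ⟨κ, Ap, γ, h1, h2⟩ := exists_nf (mix (fun _ => ⊤) F.A)
  refine ⟨κ, Ap, γ, h1, fun A c h => sub_intro fun z d k1 k2 => mem_congr_right (h2 _) ?_⟩
  exact mem_elim (k1.trans h) fun i e l1 _ l3 =>
    mem_elim (mem_congr_right l3 (l1.trans k2)) fun j g _ m2 m3 =>
      mem_intro (x := mix (fun _ => ⊤) F.A) ⟨i, j⟩ (le_inf le_top m2) m3

theorem ext_mem (Y : BSet B) : Ext fun z => bmem z Y := fun _ _ _ => mem_congr_left

theorem inter_sep (b : B) (X Y : BSet B) : b ≤ binter X Y (sep X fun z => bmem z Y) :=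
  le_iInf fun _ => bi_intro
    (fun _ _ h => le_inf ((mem_sep (ext_mem Y)).1 h).1 ((mem_sep (ext_mem Y)).1 h).2)
    fun _ _ h => (mem_sep (ext_mem Y)).2 ⟨inf_l h, inf_r h⟩

theorem le_chk {κ : Type} {A : κ → BSet B} {φ : κ → B} {b : B} (S : Set κ)
    (h : ∀ x ∉ S, b ≤ (φ x)ᶜ) : b ≤ ble ⟨κ, A, φ⟩ (chk S) :=
  le_of_idx (dist_pt _) (fun x (s : S) => ⨆ _ : x = s.1, ⊤)
    (fun x c k1 k2 => by
      by_cases hx : x ∈ S
      · exact iSup_intro ⟨x, hx⟩ (le_inf le_top (le_prop rfl le_top))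
      · exact compl_elim k2 (k1.trans (h x hx)))
    fun x x' _ c _ _ _ _ k4 k5 => prop_elim k4 fun e _ => prop_elim k5 fun e' _ =>
      (e.trans e'.symm) ▸ beq_refl _

end No

open No in
theorem noS : ChainStmt → CoreStmt → NoStmt := by
  intro hch hco η P B _ le pr b F hη hAP hc hP hF hK hAD
  obtain ⟨f, hf, hinj⟩ := exists_of_le hF
  obtain ⟨κ, Ap, γ, hD, hsub⟩ := un F
  choose M hM using fun i : Ix η => max_principle
    (φ := fun A => bmem A F ⊓ bapp f A (pt i)) fun _ _ _ k l =>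
      le_inf (mem_congr_left k (inf_l l)) (app_congr (beq_refl _) k (beq_refl _) (inf_r l))
  obtain ⟨t, ht1, ht2⟩ := hco η P B κ le pr
    (fun i x => (b ⊓ (bmem (M i) F ⊓ bapp f (M i) (pt i))) ⊓ (γ x ⊓ bmem (Ap x) (M i)))
    (fun i => b ⊓ (bmem (M i) F ⊓ bapp f (M i) (pt i))) hη hAP hc hP
    (fun i j hij p => by
      obtain ⟨q, k1, k2 | k2⟩ := hc.dec p ((b ⊓ (bmem (M i) F ⊓ bapp f (M i) (pt i))) ⊓
        (b ⊓ (bmem (M j) F ⊓ bapp f (M j) (pt j))))
      · have k3 : pr q ≤ b := inf_l (inf_l k2)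
        have k4 : pr q ≤ (beq (M i) (M j))ᶜ := compl_intro fun c l1 l2 =>
          pt_ne hij (fn_unique ((l1.trans k3).trans hf)
            (app_congr (beq_refl _) l2 (beq_refl _) (l1.trans (inf_r (inf_r (inf_l k2)))))
            (l1.trans (inf_r (inf_r (inf_r k2)))))
        have k5 := hAD _ _ _ _ k3 (inf_l (inf_r (inf_l k2))) (inf_l (inf_r (inf_r k2))) k4
          (inter_sep _ _ _)
        obtain ⟨r, l1, l2⟩ := finDec hc (A := Ap) (p := q) (φ := fun x =>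
          ((b ⊓ (bmem (M i) F ⊓ bapp f (M i) (pt i))) ⊓ (γ x ⊓ bmem (Ap x) (M i))) ⊓
            ((b ⊓ (bmem (M j) F ⊓ bapp f (M j) (pt j))) ⊓ (γ x ⊓ bmem (Ap x) (M j))))
          (hD.mono fun x => inf_l (inf_r (inf_l le_rfl)))
          (compl_intro fun c l1 l2 => compl_elim (ble_trans l2 (le_of_sub
            (sub_of_idx fun x d _ m => (mem_sep (ext_mem (M j))).2
              ⟨inf_r (inf_r (inf_l m)), inf_r (inf_r (inf_r m))⟩))) (l1.trans (inf_r k5)))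
        exact ⟨r, hc.trans l1 k1, l2⟩
      · exact ⟨q, k1, ∅, finite_empty, fun x _ _ => compl_intro fun c l1 l2 =>
          compl_elim (le_inf (inf_l (inf_l l2)) (inf_l (inf_r l2))) (l1.trans k2)⟩)
    (fun i p hp S hS => by
      by_contra h
      have h1 : ∀ x ∉ S, pr p ≤ (γ x ⊓ bmem (Ap x) (M i))ᶜ := fun x hx => hc.force fun q l => by
        obtain ⟨r, m1, m2 | m2⟩ := hc.dec q (γ x ⊓ bmem (Ap x) (M i))
        · exact (h ⟨r, x, hc.trans m1 l, hx,
            le_inf ((hc.mono (hc.trans m1 l)).trans hp) m2⟩).elim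
        · exact ⟨r, m1, m2⟩
      have h2 := hK (M i) _ (inf_l hp) (inf_l (inf_r hp))
      have h3 := ble_trans (ble_congr (beq_refl _) (sub_nf (hsub _ _ (inf_l (inf_r hp)))) h2)
        (le_chk S h1)
      have h4 : η < #(Ix η) := (lt_succ η).trans_eq mk_Ix.symm
      exact hc.pos p (compl_elim h3 (le_top.trans
        (pres hc S (Ix η) (hη.inf.trans h4.le) (hP.trans h4) (hS.trans_lt h4)))))
  refine ⟨⟨κ, Ap, fun x => γ x ⊓ t x⟩, le_iInf fun A => himp_intro fun c c1 c2 =>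
    iSup_elim (fn_total (c1.trans hf) c2) fun y d d1 d2 =>
      mem_elim (inf_l d2) fun i e e1 _ e3 => ?_⟩
  have g0 : e ≤ b := (e1.trans d1).trans c1
  have g1 : e ≤ bapp f A (pt i) := app_congr (beq_refl _) (beq_refl _) e3 (e1.trans (inf_r d2))
  have g2 : e ≤ bmem (M i) F ⊓ bapp f (M i) (pt i) :=
    (iSup_intro A (le_inf ((e1.trans d1).trans c2) g1)).trans (hM i)
  have g3 : e ≤ beq A (M i) := hinj A (M i) (pt i) e g0 g1 (inf_r g2)
  have g4 := le_inf g0 g2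
  refine le_inf (iSup_elim (g4.trans (ht1 i)) fun x g l1 l2 => iSup_intro (Ap x) (le_inf
    (mem_self (x := ⟨κ, Ap, fun x => γ x ⊓ t x⟩) x (le_inf (inf_l (inf_r (inf_r l2))) (inf_l l2)))
    (mem_congr_right (beq_symm (l1.trans g3)) (inf_r (inf_r (inf_r l2))))))
    (le_iInf fun C => himp_intro fun g l1 l2 => ?_)
  refine ble_trans (le_of_sub (sub_intro fun z h m1 m2 => ?_))
    (le_top.trans (hch P B κ le pr Ap _ hc (ht2 i)))
  have m3 := bi_mp (iInf_elim (m1.trans l2) z) m2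
  refine mem_elim (inf_l m3) fun x k n1 n2 n3 => ?_
  have n4 : k ≤ e := (n1.trans m1).trans l1
  exact mem_intro (x := ⟨κ, Ap, _⟩) x (le_inf (inf_r n2) (le_inf (n4.trans g4) (le_inf (inf_l n2)
    (mem_congr_left n3 (mem_congr_right (n4.trans g3) (n1.trans (inf_r m3))))))) n3

end Pool.Agent.MP_41bf72_lc.AP
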