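import Pool.Agent.MP_41bf72_lc.AP.Spec3
import Pool.Agent.MP_41bf72_lc.AP.Gch
import Pool.Agent.MP_41bf72_lc.AP.Derive
import Pool.Agent.MP_41bf72_lc.AP.No

/-! The tree forcing preserves cardinals and GCH. -/

set_option autoImplicit false

namespace Pool.Agent.MP_41bf72_lc.AP

open Cardinal Set Order Pool.Agent.MP_76b292_lc Pool.Agent.MP_76b292_lc.BSet

namespace Card

variable {η : Cardinal.{0}} {a0 : Ix η → Set (Ix η)} {P B : Type} [CompleteBooleanAlgebra B]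
  {le : P → P → Prop} {pr : P → B} {ht : P → Ix η}

theorem pres (h : TF η a0 le ht) (hc : Cpl le pr) (S T : Type) (h0 : ℵ₀ ≤ #T) (h2 : #S < #T) :
    (⊤ : B) ≤ (ble (chk T) (chk S))ᶜ := by
  rcases lt_or_ge η #S with hS | hS
  · exact No.pres hc S T h0 ((h.card.trans (succ_le_of_lt hS)).trans_lt h2) h2
  refine compl_intro fun c _ k => hc.le_bot fun p hp => ?_
  obtain ⟨e, k1, k2, -⟩ := idx_of_le (dist_pt _) (dist_pt _) (hp.trans k)
  obtain ⟨q, n1, n2⟩ := h.dist S (fun s u => (∃ t, pr u ≤ e t s) ∨ pr u ≤ (⨆ t, e t s)ᶜ) hS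
    (fun _ _ _ l m => m.imp (fun ⟨i, m⟩ => ⟨i, (hc.mono l).trans m⟩) (hc.mono l).trans)
    (fun j v => by
      obtain ⟨w, o1, o2 | o2⟩ := hc.dec v (⨆ i, e i j)
      · obtain ⟨w', i, o3, o4⟩ := hc.ex o2
        exact ⟨w', hc.trans o3 o1, Or.inl ⟨i, o4⟩⟩
      · exact ⟨w, o1, Or.inr o2⟩) p
  have key : ∀ t, ∃ s, pr q ≤ e t s := fun t => by
    obtain ⟨r, s, m1, m2⟩ := hc.ex (k1 t _ (hc.mono n1) le_top)
    rcases n2 s with ⟨t', m3⟩ | m3
    · obtain rfl : t = t' := by_contra fun m => hc.pos r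
        (k2 t t' s _ (hc.mono (hc.trans m1 n1)) m (inf_r m2) ((hc.mono m1).trans m3))
      exact ⟨s, m3⟩
    · exact (hc.pos r (compl_elim (iSup_intro t (inf_r m2)) ((hc.mono m1).trans m3))).elim
  choose f hf using key
  exact h2.not_ge (mk_le_of_injective (f := f) fun t t' r => by_contra fun m =>
    hc.pos q (k2 t t' (f t) _ (hc.mono n1) m (hf t) (r ▸ hf t')))

theorem codes (h : TF η a0 le ht) (hc : Cpl le pr) (T : Type) (hT : #T ≤ η) (χ : T → B) :
    ⊤ ≤ ⨆ w : Set T, ⨅ a, bi (χ a) (⨆ _ : a ∈ w, ⊤) := by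
  refine hc.le_of fun p _ => ?_
  obtain ⟨q, n1, n2⟩ := h.dist T (fun a u => pr u ≤ χ a ∨ pr u ≤ (χ a)ᶜ) hT
    (fun _ _ _ l m => m.imp (hc.mono l).trans (hc.mono l).trans) (fun a v => hc.dec v (χ a)) p
  refine ⟨q, n1, iSup_intro {a | pr q ≤ χ a} (le_iInf fun a => bi_intro (fun c l m => ?_)
    fun c l m => iSup_elim m fun o _ k _ => (k.trans l).trans o)⟩
  rcases n2 a with o | o
  · exact iSup_intro o le_top
  · exact compl_elim m (l.trans o)

open Gch in
theorem gch (g : GCH) (h : TF η a0 le ht) (hc : Cpl le pr) : BGch B := by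
  intro b x p y
  suffices H : ∀ (c : Cardinal.{0}) (T : Type), #T = c → ∀ b : B, b ≤ ble x (chk T) →
      b ≤ ble om x → b ≤ (⨅ z, bi (bmem z p) (bsub z x)) → b ≤ blt y p → b ≤ ble y x by
    obtain ⟨ι, A, β⟩ := x
    exact H _ ι rfl b (le_of_emb (dist_pt _) le_rfl)
  intro c
  induction c using WellFoundedLT.induction with | ind c ih => ?_
  rintro T rfl b h1 h2 h3 h4
  refine sup_elim (enum x T) (fun d k l => ?_) fun d k l => iSup_elim l fun s e m n =>
    ih _ s.2 _ rfl e n ((m.trans k).trans h2) ((m.trans k).trans h3) ((m.trans k).trans h4)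
  rcases lt_or_ge #T ℵ₀ with i | i
  · exact compl_elim (k.trans (ble_trans h2 h1))
      (le_top.trans (Derive.fin hc T (lt_aleph0_iff_finite.1 i)))
  obtain ⟨Z, ev, z1, z2⟩ : ∃ (Z : Type) (ev : Z → T → B), #Z ≤ #(succ #T).out ∧
      ∀ χ : T → B, ⊤ ≤ ⨆ w, ⨅ a, bi (χ a) (ev w a) := by
    rcases lt_or_ge η #T with hT | hT
    · refine ⟨T → Set P, _, ?_, Gch.codes hc T⟩
      rw [mk_out, ← g _ i, mk_arrow, lift_id, lift_id, mk_set, ← power_mul]
      refine power_le_power_left two_ne_zero ?_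
      exact (mul_le_mul_left (h.card.trans (succ_le_of_lt hT)) _).trans (mul_eq_self i).le
    · exact ⟨Set T, _, by rw [mk_out, ← g _ i, mk_set], Card.codes h hc T hT⟩
  refine squeeze (ble_trans (pow z2 (k.trans h1) (k.trans h3)) (chk_le z1)) (k.trans h4)
    fun s hs => ble_trans (chk_le ?_) l
  rwa [mk_out, lt_succ_iff] at hs

end Card

theorem cardS : CardStmt := fun _ _ _ _ _ _ _ _ g _ h hc =>
  ⟨Card.gch g h hc, Card.pres h hc⟩

end Pool.Agent.MP_41bf72_lc.AP
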