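import Pool.Agent.MP_41bf72_lc.AP.Spec2

/-! A set that is cut into countably many chains of finite sets is countable. -/

set_option autoImplicit false

namespace Pool.Agent.MP_41bf72_lc.AP

open Cardinal Set Order Pool.Agent.MP_76b292_lc Pool.Agent.MP_76b292_lc.BSet

namespace Chain

variable {P B κ : Type} [CompleteBooleanAlgebra B] {le : P → P → Prop} {pr : P → B}

/-- the order on the levels -/
def R (lev : κ → ℕ) (rk : κ → Ordinal.{0}) (y x : κ) : Prop :=
  lev y = lev x ∧ (rk y < rk x ∨ (rk y = rk x ∧ WellOrderingRel y x))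

variable {lev : κ → ℕ} {rk : κ → Ordinal.{0}} {x y z : κ}

theorem R.irr : ¬ R lev rk x x := fun h =>
  h.2.elim (lt_irrefl _) fun k => irrefl_of WellOrderingRel x k.2

theorem R.rle (h : R lev rk y x) : rk y ≤ rk x := h.2.elim le_of_lt fun k => k.1.le

theorem R.tr (h : R lev rk z y) (k : R lev rk y x) : R lev rk z x := by
  refine ⟨h.1.trans k.1, ?_⟩
  rcases h.2 with a | a
  · exact Or.inl (a.trans_le k.rle)
  · rcases k.2 with b | b
    · exact Or.inl (a.1.trans_lt b)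
    · exact Or.inr ⟨a.1.trans b.1, trans_of WellOrderingRel a.2 b.2⟩

theorem R.tot (h : lev x = lev y) (k : x ≠ y) : R lev rk x y ∨ R lev rk y x := by
  rcases lt_trichotomy (rk x) (rk y) with a | a | a
  · exact Or.inl ⟨h, Or.inl a⟩
  · rcases trichotomous_of WellOrderingRel x y with b | b | b
    · exact Or.inl ⟨h, Or.inr ⟨a, b⟩⟩
    · exact (k b).elim
    · exact Or.inr ⟨h.symm, Or.inr ⟨a.symm, b⟩⟩
  · exact Or.inr ⟨h.symm, Or.inl a⟩

/-- `c` forces that `s` is the set of the predecessors of `x` -/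
def E (lev : κ → ℕ) (rk : κ → Ordinal.{0}) (φ : κ → B) (c : B) (x : κ) (s : Finset κ) : Prop :=
  (∀ y ∈ s, R lev rk y x ∧ c ≤ φ y) ∧ ∀ y, R lev rk y x → y ∉ s → c ≤ (φ y)ᶜ

theorem E.mono {φ : κ → B} {c d : B} {s : Finset κ} (h : E lev rk φ c x s) (k : d ≤ c) :
    E lev rk φ d x s :=
  ⟨fun y a => ⟨(h.1 y a).1, k.trans (h.1 y a).2⟩, fun y a b => k.trans (h.2 y a b)⟩

theorem E.bot {φ : κ → B} {c : B} {s t : Finset κ} (h : E lev rk φ c x s) (k : E lev rk φ c y t)
    (r : R lev rk x y) (hx : c ≤ φ x) (e : s.card = t.card) : c ≤ ⊥ := by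
  classical
  by_contra hc
  have a : insert x s ⊆ t := fun z hz => by_contra fun m => hc (by
    rcases Finset.mem_insert.1 hz with rfl | b
    · exact compl_elim hx (k.2 _ r m)
    · exact compl_elim (h.1 z b).2 (k.2 z ((h.1 z b).1.tr r) m))
  have b := Finset.card_le_card a
  rw [Finset.card_insert_of_notMem fun m => R.irr (h.1 x m).1] at b
  omega

theorem decide_fin (hc : Cpl le pr) (φ : κ → B) {s : Set κ} (hs : s.Finite) (p : P) :
    ∃ q, le q p ∧ ∀ y ∈ s, pr q ≤ φ y ∨ pr q ≤ (φ y)ᶜ := by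
  induction s, hs using Set.Finite.induction_on with
  | empty => exact ⟨p, hc.refl p, fun _ h => h.elim⟩
  | @insert a s _ _ ih =>
    obtain ⟨q, h1, h2⟩ := ih
    obtain ⟨r, k1, k2⟩ := hc.dec q (φ a)
    refine ⟨r, hc.trans k1 h1, fun y hy => ?_⟩
    rcases hy with rfl | hy
    · exact k2
    · exact (h2 y hy).imp (hc.mono k1).trans (hc.mono k1).trans

end Chain

open Chain

theorem chainS : ChainStmt := by
  classical
  rintro P B κ _ le pr A φ hc ⟨lev, rk, h⟩
  refine le_of_idx (dist_nat _) (fun x m => ⨆ c : {c : B // ∃ s : Finset κ,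
    m.down = Nat.pair (lev x) s.card ∧ E lev rk φ c x s}, c.1) (fun x c _ hx => ?_)
    fun x y m c _ hx hy _ k1 k2 => ?_
  · refine hc.le_of fun p hp => ?_
    obtain ⟨q, a1, s, a2, a3⟩ := h x p (hp.trans hx)
    obtain ⟨r, b1, b2⟩ := decide_fin hc φ a2 q
    refine ⟨r, hc.trans b1 a1, iSup_intro ⟨Nat.pair (lev x)
      (a2.toFinset.filter fun y => R lev rk y x ∧ pr r ≤ φ y).card⟩ (le_inf le_top
      (iSup_intro ⟨pr r, _, rfl, fun y hy => (Finset.mem_filter.1 hy).2, fun y l m => ?_⟩ le_rfl))⟩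
    by_cases c1 : y ∈ s
    · exact (b2 y c1).resolve_left fun c2 =>
        m (Finset.mem_filter.2 ⟨a2.mem_toFinset.2 c1, l, c2⟩)
    · exact (hc.mono b1).trans (a3 y ⟨l.1, l.rle⟩ c1)
  · by_cases e : x = y
    · exact e ▸ beq_refl _
    · refine iSup_elim k1 fun u d l1 l2 => iSup_elim (l1.trans k2) fun v g m1 m2 => ?_
      obtain ⟨s, s1, s2⟩ := u.2
      obtain ⟨t, t1, t2⟩ := v.2
      obtain ⟨e1, e2⟩ := Nat.pair_eq_pair.1 (s1.symm.trans t1)
      have s3 := s2.mono (m1.trans l2)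
      have t3 := t2.mono m2
      refine le_trans ?_ bot_le
      rcases R.tot (rk := rk) e1 e with r | r
      · exact s3.bot t3 r (m1.trans (l1.trans hx)) e2
      · exact t3.bot s3 r (m1.trans (l1.trans hy)) e2.symm

end Pool.Agent.MP_41bf72_lc.AP
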