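import Pool.Agent.MP_41bf72_lc.AP.Spec

/-! Failure of approachability gives ladders on a stationary set with a common trace. -/

set_option autoImplicit false

namespace Pool.Agent.MP_41bf72_lc.AP

open Cardinal Set Order Pool.Agent.MP_76b292_lc Pool.Agent.MP_76b292_lc.BSet

namespace TraceA

variable {η : Cardinal.{0}}

/-- `S` meets every set of closure points. -/
def Stat (S : Set (Ix η)) : Prop := ∀ h, ∃ d ∈ S, Cl h d

theorem isClub_Cl (hη : ℵ₀ ≤ η) (h : Ix η → Ix η) : IsClub {d | Cl h d} := by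
  refine ⟨fun D hD _ _ a ha g hg => ?_, fun a => ?_⟩
  · obtain ⟨x, hx, h1⟩ := (lt_isLUB_iff ha).1 hg
    exact (hD hx g h1).trans_le (ha.1 hx)
  · obtain ⟨d, h1, h2⟩ := club hη h a
    exact ⟨d, h2, h1.le⟩

theorem Stat.inter {S : Set (Ix η)} (hS : Stat S) (h : Ix η → Ix η) :
    Stat {d | d ∈ S ∧ Cl h d} := fun h' => by
  obtain ⟨d, hd, hc⟩ := hS fun g => max (h g) (h' g)
  exact ⟨d, ⟨hd, fun g hg => (le_max_left _ _).trans_lt (hc g hg)⟩,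
    fun g hg => (le_max_right _ _).trans_lt (hc g hg)⟩

theorem Stat.fibre (hη : ℵ₀ ≤ η) {S : Set (Ix η)} (hS : Stat S) {ι : Type} (hι : #ι ≤ η)
    (R : ι → Ix η → Prop) (hR : ∀ d ∈ S, ∃ i, R i d) : ∃ i, Stat {d | d ∈ S ∧ R i d} := by
  by_contra k
  have k' : ∀ i, ∃ h : Ix η → Ix η, ∀ d, d ∈ S → R i d → ¬ Cl h d := fun i => by
    by_contra k1
    refine k ⟨i, fun h => ?_⟩
    by_contra k2
    exact k1 ⟨h, fun d h1 h2 h3 => k2 ⟨d, ⟨h1, h2⟩, h3⟩⟩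
  choose h hh using k'
  choose u hu using fun g => bdd hη (s := range fun i => h i g) (mk_range_le.trans hι)
  obtain ⟨d, hd, hc⟩ := hS u
  obtain ⟨i, hi⟩ := hR d hd
  exact hh i d hd hi fun g hg => (hu g _ ⟨i, rfl⟩).trans (hc g hg)

theorem list (c : Crit ℵ₀ η) : ∃ a : Ix η → Set (Ix η), ∀ X : Set (Ix η), #X ≤ η →
    ∃ i, a i = X := by
  have hn : Nonempty {t : Set (Ix η) // #t ≤ η} := ⟨⟨∅, by simp⟩⟩
  obtain ⟨f, hf⟩ := exists_surj (α := Ix η) (β := {t : Set (Ix η) // #t ≤ η}) (by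
    refine (mk_bounded_set_le _ _).trans_eq ?_
    rw [mk_Ix, max_eq_left (c.inf.trans (le_succ η)), c.pow_succ])
  refine ⟨fun i => (f i).1, fun X hX => ?_⟩
  obtain ⟨i, hi⟩ := hf ⟨X, hX⟩
  exact ⟨i, congrArg Subtype.val hi⟩

theorem fin_lt (hη : ℵ₀ ≤ η) {ι U : Type} {Z : ι → Set U} (hZ : ∀ i, #(Z i) < η) {F : Set ι}
    (hF : F.Finite) : #(⋃ i ∈ F, Z i) < η := by
  induction F, hF using Set.Finite.induction_on with
  | empty => simpa using aleph0_pos.trans_le hη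
  | insert _ _ ih =>
    rw [biUnion_insert]
    exact (mk_union_le _ _).trans_lt (add_lt_of_lt hη (hZ _) ih)

/-- The subsets of finite unions of the sets `Z i`, `i ∈ s`. -/
def Sub {ι U : Type} (Z : ι → Set U) (s : Set ι) : Set (Set U) :=
  {Y | ∃ F ⊆ s, F.Finite ∧ Y ⊆ ⋃ i ∈ F, Z i}

theorem few (c : Crit ℵ₀ η) {ι U : Type} {Z : ι → Set U} (hZ : ∀ i, #(Z i) < η) {s : Set ι}
    (hs : #s ≤ η) : #(Sub Z s) ≤ η := by
  refine (mk_le_mk_of_subset (t := ⋃ l ∈ (univ : Set (List s)),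
    𝒫 (⋃ i ∈ Subtype.val '' {x | x ∈ l}, Z i)) ?_).trans (mk_biUnion_le'' c.inf ?_ fun l _ => ?_)
  · rintro Y ⟨F, h1, h2, h3⟩
    have h4 : (Subtype.val ⁻¹' F : Set s).Finite := h2.preimage Subtype.val_injective.injOn
    refine mem_biUnion (mem_univ h4.toFinset.toList) (h3.trans ?_)
    refine biUnion_subset_biUnion_left fun i hi => ⟨⟨i, h1 hi⟩, ?_, rfl⟩
    simpa using hi
  · rw [mk_univ]
    exact (mk_list_le_max _).trans (max_le c.inf hs)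
  · rw [mk_powerset]
    exact (c.sl _ (fin_lt c.inf hZ ((List.finite_toSet l).image _))).le

theorem bound (c : Crit ℵ₀ η) {a : Ix η → Set (Ix η)}
    (ha : ∀ X : Set (Ix η), #X ≤ η → ∃ i, a i = X) {ι : Type} {Z : ι → Set (Ix η)}
    (hZ : ∀ i, #(Z i) < η) {s : Ix η → Set ι} (hs : ∀ b, #(s b) ≤ η) :
    ∃ h : Ix η → Ix η, ∀ b, ∀ Y ∈ Sub Z (s b), ∃ i < h b, a i = Y := by
  have hI := ne_Ix η
  choose! j hj using ha
  choose h hh using fun b => bdd c.inf (s := j '' Sub Z (s b))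
    (mk_image_le.trans (few c hZ (hs b)))
  refine ⟨h, fun b Y hY => ⟨j Y, hh b _ ⟨Y, hY, rfl⟩, hj Y ?_⟩⟩
  obtain ⟨F, -, h2, h3⟩ := hY
  exact (mk_le_mk_of_subset h3).trans (fin_lt c.inf hZ h2).le

theorem appr_of {K : Type} [LinearOrder K] [WellFoundedLT K] {a : K → Set K} {d : K} (E : Set K)
    (h1 : ∀ b < d, ∃ x ∈ E, b ≤ x ∧ x < d) (h2 : ∀ b < d, ∀ Y ⊆ E ∩ Iio b, ∃ i < d, a i = Y) :
    Appr a d := by
  have h3 : IsCofinal (Subtype.val ⁻¹' E : Set (Iio d)) := fun b =>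
    let ⟨x, k1, k2, k3⟩ := h1 b.1 b.2
    ⟨⟨x, k3⟩, k1, k2⟩
  obtain ⟨A, k1, k2, k3⟩ := Ordinal.exists_ord_cof_eq_of_isCofinal h3
  refine ⟨A, k2, k3, fun b hb => h2 b hb _ (inter_subset_inter_left _ ?_)⟩
  rintro _ ⟨x, hx, rfl⟩
  exact k1 hx

theorem ladder {K : Type} [LinearOrder K] [WellFoundedLT K] (d : K) {τ : Cardinal.{0}}
    (hτ : Order.cof (Iio d) = τ) :
    ∃ p : Wt τ → K, StrictMono p ∧ (∀ ξ, p ξ < d) ∧ ∀ b < d, ∃ ξ, b ≤ p ξ := by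
  obtain ⟨A, k1, k2⟩ := Ordinal.exists_ord_cof_eq (Iio d)
  rw [hτ, ← Ordinal.type_toType τ.ord] at k2
  obtain ⟨e⟩ := Ordinal.type_eq.1 k2.symm
  refine ⟨fun ξ => (e ξ).1.1, fun ξ ξ' h => e.map_rel_iff.2 h, fun ξ => (e ξ).1.2,
    fun b hb => ?_⟩
  obtain ⟨x, hx, h1⟩ := k1 ⟨b, hb⟩
  exact ⟨e.symm ⟨x, hx⟩, by beta_reduce; rw [e.apply_symm_apply]; exact h1⟩

theorem not_reg (c : Crit ℵ₀ η) : ¬ η.IsRegular := fun h => by
  obtain ⟨W, h1, h2⟩ := c.dec η.out univ (by simp)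
  have h3 := (mk_le_mk_of_subset h1).trans_lt
    ((card_iUnion_lt_iff_forall_of_isRegular h (by simpa using c.lt)).2 h2)
  simp at h3

theorem exists_Iio {τ : Cardinal.{0}} (h : τ < η) : ∃ i : Wt η, τ = #(Iio i) := by
  obtain ⟨i, hi⟩ := Ordinal.typein_surj (α := Wt η) (· < ·) (o := τ.ord)
    (by rw [Ordinal.type_toType]; exact ord_lt_ord.2 h)
  refine ⟨i, ?_⟩
  have h1 := Ordinal.card_typein (r := fun x y : Wt η => x < y) i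
  rw [hi, card_ord] at h1
  exact h1

/-- The first step: a stationary set of points of one uncountable cofinality that are not
approachable. -/
theorem step (c : Crit ℵ₀ η) (hAP : ¬ AP η) {a : Ix η → Set (Ix η)}
    (ha : ∀ X : Set (Ix η), #X ≤ η → ∃ i, a i = X) :
    ∃ τ : Cardinal.{0}, τ.IsRegular ∧ ℵ₀ < τ ∧ τ < η ∧
      Stat {d : Ix η | ¬ Appr a d ∧ Order.cof (Iio d) = τ} := by
  have h0 : Stat {d : Ix η | ¬ Appr a d} := fun h => by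
    by_contra k
    refine hAP ⟨a, _, isClub_Cl c.inf h, fun d hd => ?_⟩
    by_contra k'
    exact k ⟨d, k', hd⟩
  obtain ⟨h, hh⟩ := bound c ha (Z := fun x : Ix η => {x})
    (fun i => by simpa using one_lt_aleph0.trans c.lt) (s := fun b => Iio b) mk_Iio_Ix
  have h1 : ∀ d : Ix η, ¬ Appr a d → Cl h d → ℵ₀ < Order.cof (Iio d) := fun d k1 k2 => by
    by_contra k
    obtain ⟨p, p1, p2, p3⟩ := ladder d rfl
    refine k1 (appr_of (range p) (fun b hb => ?_) fun b hb Y hY => ?_)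
    · obtain ⟨ξ, k3⟩ := p3 b hb
      exact ⟨p ξ, ⟨ξ, rfl⟩, k3, p2 ξ⟩
    · obtain ⟨ξ, k3⟩ := p3 b hb
      have k4 : (Iio ξ).Finite := lt_aleph0_iff_set_finite.1
        ((mk_Iio_Wt ξ).trans_le (not_lt.1 k))
      have k5 : Y.Finite := (k4.image p).subset fun y hy => by
        obtain ⟨⟨ζ, rfl⟩, k6⟩ := hY hy
        exact ⟨ζ, p1.lt_iff_lt.1 (lt_of_lt_of_le k6 k3), rfl⟩
      obtain ⟨i, k6, k7⟩ := hh b Y ⟨Y, fun y hy => (hY hy).2, k5, by simp⟩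
      exact ⟨i, k6.trans (k2 b hb), k7⟩
  have h2 : ∀ d : Ix η, ℵ₀ < Order.cof (Iio d) →
      (Order.cof (Iio d)).IsRegular ∧ Order.cof (Iio d) < η := fun d k => by
    have k1 : (Order.cof (Iio d)).IsRegular := ⟨k.le, (Order.cof_ord_cof _).ge⟩
    exact ⟨k1, ((cof_le_cardinalMk _).trans (mk_Iio_Ix d)).lt_of_ne fun e => not_reg c (e ▸ k1)⟩
  obtain ⟨i, hi⟩ := (h0.inter h).fibre c.inf (ι := Wt η) mk_Wt.le
    (fun i d => Order.cof (Iio d) = #(Iio i)) fun d hd => exists_Iio (h2 d (h1 d hd.1 hd.2)).2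
  obtain ⟨d, ⟨hd, e⟩, -⟩ := hi id
  have k := h1 d hd.1 hd.2
  refine ⟨#(Iio i), e ▸ (h2 d k).1, e ▸ k, mk_Iio_Wt i, fun h' => ?_⟩
  obtain ⟨d', k1, k2⟩ := hi h'
  exact ⟨d', ⟨k1.1.1, k1.2⟩, k2⟩

theorem cover (c : Crit ℵ₀ η) : ∃ X : Ix η → ℕ → Set (Ix η), (∀ b n, #(X b n) < η) ∧
    ∀ b, ∀ d < b, ∃ n, d ∈ X b n := by
  obtain ⟨e⟩ : Nonempty (ℕ ≃ (ℵ₀ : Cardinal.{0}).out) := Cardinal.eq.1 (by simp)
  choose W w1 w2 using fun b : Ix η => c.dec _ (Iio b) (mk_Iio_Ix b)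
  refine ⟨fun b n => W b (e n), fun b n => w2 b _, fun b d hd => ?_⟩
  obtain ⟨ξ, h⟩ := mem_iUnion.1 (w1 b hd)
  exact ⟨e.symm ξ, by beta_reduce; rwa [e.apply_symm_apply]⟩

end TraceA

open TraceA in
theorem trace : TraceStmt := by
  intro η c hAP
  obtain ⟨a, ha⟩ := list c
  obtain ⟨τ, hτ, h0, hη, hS⟩ := step c hAP ha
  refine ⟨τ, hτ, h0, hη, ?_⟩
  have hI := ne_Ix η
  have hl : ∀ d ∈ {d : Ix η | ¬ Appr a d ∧ Order.cof (Iio d) = τ}, ∃ p : Wt τ → Ix η,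
      StrictMono p ∧ (∀ ξ, p ξ < d) ∧ ∀ b < d, ∃ ξ, b ≤ p ξ := fun d hd => ladder d hd.2
  generalize hS1 : {d : Ix η | ¬ Appr a d ∧ Order.cof (Iio d) = τ} = S1 at hS hl
  have hna : ∀ d ∈ S1, ¬ Appr a d := fun d hd => by rw [← hS1] at hd; exact hd.1
  choose! π p1 p2 p3 using hl
  obtain ⟨X, x1, x2⟩ := cover c
  let Z : Ix η × ℕ → Set (Ix η) := fun q =>
    ⋃ d : {d | d ∈ X q.1 q.2 ∧ d ∈ S1 ∧ d < q.1}, range (π d)
  have z1 : ∀ q, #(Z q) < η := fun q =>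
    (mk_iUnion_le' (a := #(X q.1 q.2)) (b := τ) (mk_le_mk_of_subset fun d hd => hd.1)
      fun d => mk_range_le.trans_eq mk_Wt).trans_lt (mul_lt_of_lt c.inf (x1 _ _) hη)
  have z2 : ∀ q, ∀ y ∈ Z q, y < q.1 := fun q y hy => by
    obtain ⟨d, ξ, rfl⟩ := mem_iUnion.1 hy
    exact (p2 d d.2.2.1 ξ).trans d.2.2.2
  obtain ⟨h, hh⟩ := bound c ha z1 (s := fun b => Iic b ×ˢ (Set.univ : Set ℕ)) fun b => by
    rw [mk_setProd]
    exact (mul_le_mul' (mk_Iic_Ix c.inf b) (by simpa using c.inf)).trans_eq (mul_eq_self c.inf)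
  have hc : #(Wt τ → ℕ → Set (Wt τ)) ≤ η := by
    have k : #(Wt τ → ℕ → Set (Wt τ)) = 2 ^ τ := by
      rw [mk_arrow, mk_arrow, mk_set]
      simp only [lift_id, mk_nat, mk_Wt]
      rw [← power_mul, ← power_mul, mul_eq_right h0.le h0.le aleph0_ne_zero, mul_eq_self h0.le]
    exact k.trans_le (c.sl τ hη).le
  obtain ⟨z, hz⟩ := (hS.inter h).fibre c.inf hc
    (fun z d => ∀ ξ n ζ, ζ ∈ z ξ n ↔ π d ζ ∈ Z (π d ξ, n))
    fun d _ => ⟨fun ξ n => {ζ | π d ζ ∈ Z (π d ξ, n)}, fun _ _ _ => Iff.rfl⟩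
  have hfin : ∀ s : Set (Wt τ), s.Finite → ∃ b, ∀ ξ ∈ s, ξ < b := fun s hs =>
    bdd_Wt hτ ((lt_aleph0_iff_set_finite.2 hs).trans h0)
  refine ⟨_, π, z, hz, fun d hd => (p1 d hd.1.1).injective, fun d hd => p2 d hd.1.1, ?_,
    fun d hd e he hde => ?_⟩
  · obtain ⟨d, ⟨⟨hd, hcl⟩, hdz⟩, -⟩ := hz id
    refine ⟨fun ξ n ζ hζ => (p1 d hd).lt_iff_lt.1 (z2 _ _ ((hdz ξ n ζ).1 hζ)), fun E hE => ?_⟩
    by_contra k
    push Not at k
    refine hna d hd (appr_of (π d '' E) (fun b hb => ?_) fun b hb Y hY => ?_)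
    · obtain ⟨ξ, k1⟩ := p3 d hd b hb
      obtain ⟨α, k2, k3⟩ := hE ξ
      exact ⟨π d α, ⟨α, k2, rfl⟩, k1.trans ((p1 d hd).monotone k3), p2 d hd α⟩
    · obtain ⟨γ, k1⟩ := p3 d hd b hb
      obtain ⟨F, k2, k3⟩ := k γ
      obtain ⟨γ', k4⟩ := hfin _ (k2.image Prod.fst)
      have k5 : Y ∈ Sub Z (Iic (π d γ') ×ˢ (Set.univ : Set ℕ)) := by
        refine ⟨(fun q => (π d q.1, q.2)) '' F, ?_, k2.image _, fun y hy => ?_⟩
        · rintro _ ⟨q, hq, rfl⟩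
          exact ⟨(p1 d hd (k4 _ ⟨q, hq, rfl⟩)).le, mem_univ _⟩
        · obtain ⟨⟨α, k7, rfl⟩, k8⟩ := hY hy
          obtain ⟨q, hq, k9⟩ := k3 α k7 ((p1 d hd).lt_iff_lt.1 (lt_of_lt_of_le k8 k1))
          exact mem_biUnion (mem_image_of_mem _ hq) ((hdz _ _ _).1 k9)
      obtain ⟨i, k6, k7⟩ := hh (π d γ') Y k5
      exact ⟨i, k6.trans (hcl _ (p2 d hd γ')), k7⟩
  · obtain ⟨ξ0, k1⟩ := p3 e he.1.1 d hde
    obtain ⟨ξ, k2⟩ := hfin {ξ0} (finite_singleton _)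
    have k3 : d < π e ξ := k1.trans_lt (p1 e he.1.1 (k2 _ rfl))
    obtain ⟨n, k4⟩ := x2 _ d k3
    exact ⟨ξ, n, fun ζ ζ' k5 => (he.2 ξ n ζ).2
      (mem_iUnion.2 ⟨⟨d, k4, hd.1.1, k3⟩, ζ', k5.symm⟩)⟩

end Pool.Agent.MP_41bf72_lc.AP
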