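import Pool.Agent.MP_41bf72_lc.AP.Spec3
import Pool.Agent.MP_41bf72_lc.AP.Trace

/-! Closed bounded sets of approachable points form a strategically closed tree. -/

set_option autoImplicit false

namespace Pool.Agent.MP_41bf72_lc.AP

open Cardinal Set Order Pool.Agent.MP_76b292_lc Pool.Agent.MP_76b292_lc.BSet

namespace ClubA

variable {η : Cardinal.{0}}

/-- A closed bounded set of approachable points. -/
structure Cn (a : Ix η → Set (Ix η)) where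
  c : Set (Ix η)
  m : Ix η
  mm : m ∈ c
  ub : ∀ x ∈ c, x ≤ m
  cl : ∀ t ⊆ c, t.Nonempty → ∀ x, IsLUB t x → x ∈ c
  ap : ∀ x ∈ c, Appr a x

variable {a : Ix η → Set (Ix η)}

/-- End extension. -/
def le (p q : Cn a) : Prop := q.c = p.c ∩ Iic q.m

theorem ext' {p q : Cn a} (h : p.c = q.c) : p = q := by
  have : p.m = q.m := le_antisymm (q.ub _ (h ▸ p.mm)) (p.ub _ (h ▸ q.mm))
  cases p
  cases q
  cases h
  cases this
  rfl

theorem rf (p : Cn a) : le p p := (inter_eq_left.2 p.ub).symm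

theorem le.sub {p q : Cn a} (h : le p q) : q.c ⊆ p.c := h ▸ inter_subset_left

theorem le.mono {p q : Cn a} (h : le p q) : q.m ≤ p.m := p.ub _ (h.sub q.mm)

theorem tr {p q r : Cn a} (h : le p q) (h' : le q r) : le p r := by
  have := h'.mono
  rw [le, h', h, inter_assoc, Iic_inter_Iic, inf_eq_right.2 this]

theorem tree {p q r : Cn a} (h : le p q) (h' : le p r) (k : r.m ≤ q.m) : le q r := by
  rw [le, h', h, inter_assoc, Iic_inter_Iic, inf_eq_right.2 k]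

theorem lub {t : Set (Ix η)} {b : Ix η} (h : ∀ x ∈ t, x ≤ b) : ∃ d, IsLUB t d :=
  have n : (upperBounds t).Nonempty := ⟨b, h⟩
  ⟨wellFounded_lt.min _ n, wellFounded_lt.min_mem _ n, fun _ k =>
    not_lt.1 (wellFounded_lt.not_lt_min _ k)⟩

theorem lim (p : Cn a) (s : Set (Cn a)) (n : s.Nonempty) (h : ∀ q ∈ s, le p q) :
    ∃ r, le p r ∧ IsLUB (Cn.m '' s) r.m := by
  have k : Cn.m '' s ⊆ p.c := by
    rintro _ ⟨q, hq, rfl⟩
    exact (h q hq).sub q.mm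
  obtain ⟨d, hd⟩ := lub fun x hx => p.ub x (k hx)
  exact ⟨⟨p.c ∩ Iic d, d, ⟨p.cl _ k (n.image _) d hd, self_mem_Iic⟩, fun _ hx => hx.2,
    fun t ht n' x hx => ⟨p.cl t (fun y hy => (ht hy).1) n' x hx, hx.2 fun y hy => (ht hy).2⟩,
    fun x hx => p.ap x hx.1⟩, rfl, hd⟩

theorem top (S : Set (Cn a)) {d : Ix η} (ap : Appr a d) (ub : ∀ p ∈ S, p.m ≤ d)
    (cmp : ∀ p ∈ S, ∀ r ∈ S, le p r ∨ le r p)
    (H : ∀ x < d, S.Nonempty → ∃ p ∈ S, x ≤ p.m ∨ ∀ q ∈ S, q.m ≤ p.m) :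
    ∃ q : Cn a, q.m = d ∧ ∀ p ∈ S, le q p := by
  have cm : ∀ p ∈ S, ∀ r ∈ S, ∀ y ∈ r.c, y ≤ p.m → y ∈ p.c := fun p hp r hr y h1 h2 =>
    (cmp p hp r hr).elim (fun k => k.sub h1) fun k => k ▸ ⟨h1, h2⟩
  have u : ∀ x ∈ insert d (⋃ p ∈ S, p.c), x ≤ d := by
    rintro x (rfl | hx)
    · exact le_rfl
    · obtain ⟨p, hp, hx⟩ := mem_iUnion₂.1 hx
      exact (p.ub x hx).trans (ub p hp)
  refine ⟨⟨insert d (⋃ p ∈ S, p.c), d, mem_insert _ _, u, fun t ht n x hx => ?_, ?_⟩, rfl,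
    fun p hp => Subset.antisymm (fun y hy => ⟨Or.inr (mem_biUnion hp hy), p.ub y hy⟩) ?_⟩
  · refine ((hx.2 fun y hy => u y (ht hy)).eq_or_lt).imp id fun k => ?_
    have h1 : ∀ y ∈ t, ∃ r ∈ S, y ∈ r.c := fun y hy => by
      obtain ⟨r, hr, h⟩ := mem_iUnion₂.1 ((ht hy).resolve_left ((hx.1 hy).trans_lt k).ne)
      exact ⟨r, hr, h⟩
    obtain ⟨p, hp, h2⟩ := H x k (let ⟨y, hy⟩ := n; let ⟨r, hr, _⟩ := h1 y hy; ⟨r, hr⟩)
    refine mem_biUnion hp (p.cl t (fun y hy => ?_) n x hx)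
    obtain ⟨r, hr, h⟩ := h1 y hy
    exact cm p hp r hr y h (h2.elim (hx.1 hy).trans fun z => (r.ub y h).trans (z r hr))
  · rintro x (rfl | hx)
    · exact ap
    · obtain ⟨p, -, hx⟩ := mem_iUnion₂.1 hx
      exact p.ap x hx
  · rintro y ⟨rfl | hy, h⟩
    · exact le_antisymm (ub p hp) h ▸ p.mm
    · obtain ⟨r, hr, hy⟩ := mem_iUnion₂.1 hy
      exact cm p hp r hr y hy h

variable (c : Crit ℵ₀ η) (ha : ∀ X : Set (Ix η), #X ≤ η → ∃ i, a i = X)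
include c

theorem lb {ι : Type} [LinearOrder ι] [Nonempty ι] (hι : #ι ≤ η) (s : ι → Cn a)
    (h : ∀ j, ∀ l < j, le (s j) (s l))
    (inv : ∀ j, ∀ Y ⊆ (fun l => (s l).m) '' Iio j, ∃ i < (s j).m, a i = Y) :
    ∃ q, ∀ j, le q (s j) := by
  have h' : ∀ j, ∀ l ≤ j, le (s j) (s l) := fun j l k =>
    k.eq_or_lt.elim (fun e => e ▸ rf _) (h j l)
  obtain ⟨b, hb⟩ := bdd c.inf (s := range fun l => (s l).m) (mk_range_le.trans hι)
  obtain ⟨d, hd⟩ := lub fun x hx => (hb x hx).le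
  have u : ∀ j, (s j).m ≤ d := fun j => hd.1 ⟨j, rfl⟩
  have v : ∀ x < d, ∃ j, x < (s j).m := fun x hx =>
    let ⟨_, ⟨j, e⟩, k⟩ := (lt_isLUB_iff hd).1 hx; ⟨j, k.trans_eq e.symm⟩
  obtain ⟨q, -, hq⟩ := top (range s) (d := d) (by
      by_cases k : ∃ j, (s j).m = d
      · obtain ⟨j, rfl⟩ := k
        exact (s j).ap _ (s j).mm
      have w : ∀ j, (s j).m < d := fun j => (u j).lt_of_ne fun e => k ⟨j, e⟩
      refine TraceA.appr_of (range fun l => (s l).m) (fun x hx => ?_) fun x hx Y hY => ?_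
      · obtain ⟨j, hj⟩ := v x hx
        exact ⟨_, ⟨j, rfl⟩, hj.le, w j⟩
      · obtain ⟨j, hj⟩ := v x hx
        obtain ⟨i, i1, i2⟩ := inv j Y fun y hy => by
          obtain ⟨⟨l, rfl⟩, k⟩ := hY hy
          exact ⟨l, not_le.1 fun z => (lt_trans k hj).not_ge (h' l j z).mono, rfl⟩
        exact ⟨i, i1.trans (w j), i2⟩)
    (forall_mem_range.2 u) (forall_mem_range.2 fun j => forall_mem_range.2 fun l =>
      (le_total l j).imp (h' j l) (h' l j))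
    fun x hx _ => let ⟨j, hj⟩ := v x hx; ⟨_, ⟨j, rfl⟩, Or.inl hj.le⟩
  exact ⟨q, fun j => hq _ ⟨j, rfl⟩⟩

include ha

theorem suc (β : Ix η) : ∃ d, β < d ∧ Appr a d := by
  obtain ⟨i, hi⟩ := ha ∅ (by simp)
  have n : {x | max β i < x}.Nonempty :=
    let ⟨b, hb⟩ := bdd c.inf (s := {max β i}) (by simpa using one_le_aleph0.trans c.inf)
    ⟨b, hb _ rfl⟩
  have h1 : max β i < wellFounded_lt.min _ n := wellFounded_lt.min_mem _ n
  have h2 : ∀ b < wellFounded_lt.min _ n, b ≤ max β i := fun b hb =>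
    not_lt.1 fun k => wellFounded_lt.not_lt_min _ k hb
  refine ⟨_, (le_max_left _ _).trans_lt h1, TraceA.appr_of {max β i}
    (fun b hb => ⟨_, rfl, h2 b hb, h1⟩) fun b hb Y hY => ⟨i, (le_max_right _ _).trans_lt h1,
      hi.trans (eq_empty_of_forall_notMem fun y hy => ?_).symm⟩⟩
  exact (h2 b hb).not_gt ((hY hy).1 ▸ (hY hy).2)

theorem ext (p : Cn a) (β : Ix η) : ∃ q, le q p ∧ β < q.m := by
  obtain ⟨d, h1, h2⟩ := suc c ha (max β p.m)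
  obtain ⟨q, q1, q2⟩ := top {p} h2 (fun _ e => e ▸ (le_max_right _ _).trans h1.le)
    (fun _ e _ e' => Or.inl (e ▸ e' ▸ rf p)) fun _ _ _ => ⟨p, rfl, Or.inr fun _ e => e ▸ le_rfl⟩
  exact ⟨q, q2 p rfl, q1 ▸ (le_max_left _ _).trans_lt h1⟩

theorem strat (R : (j : η.ord.ToType) → (Iio j → Cn a) → Cn a → Prop)
    (hR : ∀ j s p, ∃ q, le q p ∧ R j s q) (p : Cn a) :
    ∃ (s : η.ord.ToType → Cn a) (q : Cn a), ∀ j, le q (s j) ∧ le (s j) p ∧
      R j (fun l => s l.1) (s j) ∧ ∀ l < j, le (s j) (s l) := by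
  have : Nonempty (Cn a) := ⟨p⟩
  let G : (j : η.ord.ToType) → (Iio j → Cn a) → Cn a → Prop := fun j t q => le q p ∧ R j t q ∧
    (∀ l, le q (t l)) ∧ ∀ Y ⊆ range fun l => (t l).m, ∃ i < q.m, a i = Y
  let s : η.ord.ToType → Cn a := wellFounded_lt.fix fun j t =>
    Classical.epsilon (G j fun l => t l.1 l.2)
  have key : ∀ j, G j (fun l => s l.1) (s j) := fun j => by
    refine wellFounded_lt.induction (C := fun j => G j (fun l => s l.1) (s j)) j fun j ih => ?_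
    rw [show s j = Classical.epsilon (G j fun l => s l.1) from wellFounded_lt.fix_eq _ j]
    refine Classical.epsilon_spec (p := G j fun l => s l.1) ?_
    obtain ⟨q0, k1, k2⟩ : ∃ q0, le q0 p ∧ ∀ l : Iio j, le q0 (s l.1) := by
      rcases isEmpty_or_nonempty (Iio j) with e | e
      · exact ⟨p, rf p, fun l => e.elim l⟩
      obtain ⟨q, hq⟩ := lb c (mk_Iio_Wt j).le (fun l : Iio j => s l.1)
        (fun l l' k => (ih l.1 l.2).2.2.1 ⟨l'.1, k⟩) fun l Y hY => (ih l.1 l.2).2.2.2 Y fun y hy =>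
          let ⟨l', k, e⟩ := hY hy; ⟨⟨l'.1, k⟩, e⟩
      exact ⟨q, e.elim fun l => tr (hq l) (ih l.1 l.2).1, hq⟩
    have k3 : #(range fun l : Iio j => (s l.1).m) < η := mk_range_le.trans_lt (mk_Iio_Wt j)
    have := ne_Ix η
    choose! f hf using ha
    obtain ⟨β, hβ⟩ := bdd c.inf (s := f '' 𝒫 range fun l : Iio j => (s l.1).m)
      (mk_image_le.trans (mk_powerset _ ▸ (c.sl _ k3).le))
    obtain ⟨q1, k4, k5⟩ := ext c (fun X hX => ⟨f X, hf X hX⟩) q0 β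
    obtain ⟨q, k6, k7⟩ := hR j (fun l => s l.1) q1
    exact ⟨q, tr k6 (tr k4 k1), k7, fun l => tr k6 (tr k4 (k2 l)), fun Y hY =>
      ⟨f Y, (hβ _ ⟨Y, hY, rfl⟩).trans (k5.trans_le k6.mono),
        hf Y ((mk_le_mk_of_subset hY).trans k3.le)⟩⟩
  have : Nonempty η.ord.ToType := by
    rw [← mk_ne_zero_iff, mk_ord_toType]
    exact (aleph0_pos.trans_le c.inf).ne'
  obtain ⟨q, hq⟩ := lb c mk_Wt.le s (fun j l k => (key j).2.2.1 ⟨l, k⟩) fun j Y hY =>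
    (key j).2.2.2 Y fun y hy => let ⟨l, k, e⟩ := hY hy; ⟨⟨l, k⟩, e⟩
  exact ⟨s, q, fun j => ⟨hq j, (key j).1, (key j).2.1, fun l k => (key j).2.2.1 ⟨l, k⟩⟩⟩

theorem dist (ι : Type) (D : ι → Cn a → Prop) (hι : #ι ≤ η)
    (h1 : ∀ i p q, le q p → D i p → D i q) (h2 : ∀ i p, ∃ q, le q p ∧ D i q) (p : Cn a) :
    ∃ q, le q p ∧ ∀ i, D i q := by
  obtain ⟨e⟩ : Nonempty (ι ↪ η.ord.ToType) := by rwa [← Cardinal.le_def, mk_ord_toType]
  obtain ⟨s, q, h⟩ := strat c ha (fun j _ q => ∀ i, e i = j → D i q) (fun j _ p => by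
    by_cases k : ∃ i, e i = j
    · obtain ⟨i, rfl⟩ := k
      obtain ⟨q, q1, q2⟩ := h2 i p
      exact ⟨q, q1, fun i' z => e.injective z ▸ q2⟩
    · exact ⟨p, rf p, fun i z => (k ⟨i, z⟩).elim⟩) p
  rcases isEmpty_or_nonempty ι with k | ⟨⟨i⟩⟩
  · exact ⟨p, rf p, fun i => k.elim i⟩
  · exact ⟨q, tr (h (e i)).1 (h _).2.1, fun i => h1 i _ _ (h (e i)).1 ((h _).2.2.1 i rfl)⟩

theorem diag (R : Ix η → Cn a → Prop) (h1 : ∀ β p q, le q p → R β p → R β q)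
    (h2 : ∀ β p, ∃ q, le q p ∧ R β q) (p : Cn a) : ∃ q, le q p ∧ ∀ β < q.m, R β q := by
  obtain ⟨s, q, h⟩ := strat c ha (fun j t q => ∀ l, ∀ β < (t l).m, R β q) (fun j t p => by
    obtain ⟨b, hb⟩ := bdd c.inf (s := range fun l => (t l).m) (mk_range_le.trans (mk_Iio_Wt j).le)
    obtain ⟨q, q1, q2⟩ := dist c ha (Iio b) (fun β => R β.1) (mk_Iio_Ix b) (fun β => h1 β.1)
      (fun β => h2 β.1) p
    exact ⟨q, q1, fun l β k => q2 ⟨β, k.trans (hb _ ⟨l, rfl⟩)⟩⟩) p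
  have : Nonempty η.ord.ToType := by
    rw [← mk_ne_zero_iff, mk_ord_toType]
    exact (aleph0_pos.trans_le c.inf).ne'
  have := Cardinal.noMaxOrder c.inf
  obtain ⟨r, r1, r2⟩ := lim q (range s) (range_nonempty s) (forall_mem_range.2 fun j => (h j).1)
  have r3 : ∀ j, le r (s j) := fun j => tree r1 (h j).1 (r2.1 ⟨_, ⟨j, rfl⟩, rfl⟩)
  refine ⟨r, ‹Nonempty η.ord.ToType›.elim fun j => tr (r3 j) (h j).2.1, fun β k => ?_⟩
  obtain ⟨_, ⟨_, ⟨l, rfl⟩, rfl⟩, k'⟩ := (lt_isLUB_iff r2).1 k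
  obtain ⟨j, hj⟩ := exists_gt l
  exact h1 β _ _ (r3 j) ((h j).2.2.1 ⟨l, hj⟩ β k')

end ClubA

open ClubA in
theorem clubS : ClubStmt := by
  intro η c
  obtain ⟨a, ha⟩ := TraceA.list c
  refine ⟨a, Cn a, ClubA.le, Cn.m, rf, tr, ?_, ?_, le.mono, tree, fun {p q} h k => ext' ?_,
    ClubA.lim, fun p => p.ap _ p.mm, ClubA.ext c ha, strat c ha, ClubA.dist c ha, diag c ha⟩
  · obtain ⟨β⟩ := ne_Ix η
    obtain ⟨d, -, h⟩ := suc c ha β
    obtain ⟨q, -⟩ := top ∅ h (fun _ e => e.elim) (fun _ e => e.elim) fun _ _ ⟨_, e⟩ => e.elim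
    exact ⟨q⟩
  · refine (mk_le_of_injective (f := fun p : Cn a => (⟨p.c, (mk_le_mk_of_subset p.ub).trans
      (mk_Iic_Ix c.inf p.m)⟩ : {t : Set (Ix η) // #t ≤ η})) fun p q e =>
        ext' (congrArg Subtype.val e)).trans ((mk_bounded_set_le _ _).trans_eq ?_)
    rw [mk_Ix, max_eq_left (c.inf.trans (le_succ η)), c.pow_succ]
  · exact ((h.trans (inter_eq_left.2 fun x hx => (p.ub x hx).trans k))).symm

end Pool.Agent.MP_41bf72_lc.AP
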