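import Pool.Agent.MP_41bf72_lc.AP.Defs
import Pool.Agent.MP_76b292_lc.BVZF

/-! The positive answer to the transversal question at a given set, read inside `(M, E)`. -/

set_option autoImplicit false

universe v

namespace Pool.Agent.MP_41bf72_lc.AP

open Pool.Agent.MP_76b292_lc

/-- `|x| = ℵ_ω`, and there is a family of `|x|⁺` sets of size `|x|⁺` with finite pairwise
intersections of unbounded size such that no set meets every member in a nonempty countable
set. -/
def IYesAt {M : Type v} (E : M → M → Prop) (x : M) : Prop :=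
  ∃ w k F, IOmega E w ∧ IAlephOmega E w x ∧ ISucc E x k ∧ IEq E F k ∧
  (∀ A, E A F → IEq E A k) ∧
  (∀ A A' c, E A F → E A' F → ¬ A = A' → IInter E A A' c → ILt E c w) ∧
  (∀ n, ILt E n w → ∃ A A' c, E A F ∧ E A' F ∧ ¬ A = A' ∧ IInter E A A' c ∧ ILe E n c) ∧
  ¬ ∃ T, ∀ A, E A F → (∃ z, E z T ∧ E z A) ∧ ∀ c, IInter E T A c → ILe E c w

/-- The canonical name of the type `T`: the names `pt t` of its points, each with value `⊤`. -/
noncomputable def nm (B : Type) [CompleteBooleanAlgebra B] (T : Type) : BSet B :=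
  ⟨T, BSet.pt, fun _ => ⊤⟩

end Pool.Agent.MP_41bf72_lc.AP
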