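import Pool.Agent.MP_41bf72_lc.AP.Spec

/-! The family in the extension. -/

set_option autoImplicit false

namespace Pool.Agent.MP_41bf72_lc.AP

open Cardinal Set Order Pool.Agent.MP_76b292_lc Pool.Agent.MP_76b292_lc.BSet

namespace Fam

variable {B : Type} [CompleteBooleanAlgebra B] {K W P : Type} {b v : B}

/-- the value of `y` being the point chosen by `ν` -/
noncomputable def val (pr : P → B) (ν : P → Option K) (y : K) : B :=
  lst (fun y => ⨆ p : {p // ν p = some y}, pr p.1) y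

/-- the guessed members -/
noncomputable def gv (S : Set K) (C : K → Set W) (π : K → W → K) (L : W → B)
    (w : K → K → K → B) (i u : K ⊕ K) (y : K) : B :=
  ⨆ a : {a : K × W // i = Sum.inr a.1 ∧ u = Sum.inl (π a.1 a.2) ∧ a.1 ∈ S ∧ a.2 ∈ C a.1},
    L a.1.2 ⊓ w a.1.1 (π a.1.1 a.1.2) y

theorem gv_elim {S : Set K} {C : K → Set W} {π : K → W → K} {L : W → B} {w : K → K → K → B}
    {i u : K ⊕ K} {y : K} (h : b ≤ gv S C π L w i u y)
    (h' : ∀ d ξ, i = Sum.inr d → u = Sum.inl (π d ξ) → d ∈ S → ∀ c ≤ b, c ≤ L ξ →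
      c ≤ w d (π d ξ) y → c ≤ v) : b ≤ v :=
  iSup_elim h fun a c k1 k2 => h' a.1.1 a.1.2 a.2.1 a.2.2.1 a.2.2.2.1 c k1 (inf_l k2) (inf_r k2)

theorem gv_intro {S : Set K} {C : K → Set W} {π : K → W → K} {L : W → B} {w : K → K → K → B}
    {d : K} {ξ : W} {y : K} (h1 : d ∈ S) (h2 : ξ ∈ C d) (h3 : b ≤ L ξ)
    (h4 : b ≤ w d (π d ξ) y) : b ≤ gv S C π L w (Sum.inr d) (Sum.inl (π d ξ)) y :=
  iSup_intro (f := fun a : {a : K × W // (Sum.inr d : K ⊕ K) = Sum.inr a.1 ∧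
      (Sum.inl (π d ξ) : K ⊕ K) = Sum.inl (π a.1 a.2) ∧ a.1 ∈ S ∧ a.2 ∈ C a.1} =>
    L a.1.2 ⊓ w a.1.1 (π a.1.1 a.1.2) y) ⟨(d, ξ), rfl, rfl, h1, h2⟩ (le_inf h3 h4)

/-- the weights of the members of the family -/
noncomputable def mm (g : K ⊕ K → K ⊕ K → K → B) (r : K ⊕ K → ℕ) (i : K ⊕ K) :
    ((K ⊕ K) × K) ⊕ ℕ → B :=
  Sum.elim (fun a => (⨆ _ : a.1 = i, ⊤) ⊔ g i a.1 a.2) (fun k => ⨆ _ : k < r i, ⊤)

/-- the members of the family -/
noncomputable def AA (g : K ⊕ K → K ⊕ K → K → B) (r : K ⊕ K → ℕ) (i : K ⊕ K) : BSet B :=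
  ⟨((K ⊕ K) × K) ⊕ ℕ, pt, mm g r i⟩

variable {g : K ⊕ K → K ⊕ K → K → B} {r : K ⊕ K → ℕ} {i j u : K ⊕ K} {y : K}

theorem mm_self : b ≤ mm g r i (Sum.inl (i, y)) := sup_l (le_prop rfl le_top)

theorem mm_g (h : b ≤ g i u y) : b ≤ mm g r i (Sum.inl (u, y)) := sup_r h

theorem mm_ne (h : b ≤ mm g r i (Sum.inl (u, y))) (hu : u ≠ i) : b ≤ g i u y :=
  sup_elim h (fun _ _ k => prop_elim k fun e _ => (hu e).elim) (fun _ _ k => k)

theorem mm_nat {k : ℕ} (h : k < r i) : b ≤ mm g r i (Sum.inr k) := le_prop h le_top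

theorem mm_nat_elim {k : ℕ} (h : b ≤ mm g r i (Sum.inr k)) (h' : ¬ k < r i) : b ≤ v :=
  prop_elim h fun e _ => (h' e).elim

theorem mem_AA {a : ((K ⊕ K) × K) ⊕ ℕ} (h : b ≤ bmem (pt a) (AA g r i)) : b ≤ mm g r i a :=
  mem_nf (dist_pt fun _ => ⊤) (fun _ => le_top) le_top h

theorem AA_mem {a : ((K ⊕ K) × K) ⊕ ℕ} (h : b ≤ mm g r i a) : b ≤ bmem (pt a) (AA g r i) :=
  mem_self (x := AA g r i) a h

theorem dist_AA [Nonempty K] (h1 : ∀ x u y, g (Sum.inl x) u y ≤ ⊥)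
    (h2 : ∀ i e y, g i (Sum.inr e) y ≤ ⊥) : Dist (AA g r) (fun _ => ⊤) := by
  intro i j b hij _ _ h
  obtain ⟨y⟩ := ‹Nonempty K›
  have k1 : b ≤ g j i y := mm_ne (mem_AA (mem_congr_right h (AA_mem mm_self))) hij
  have k2 : b ≤ g i j y := mm_ne (mem_AA (mem_congr_right (beq_symm h) (AA_mem mm_self))) hij.symm
  rcases i with x | x
  · exact k2.trans (h1 _ _ _)
  · exact k1.trans (h2 _ _ _)

/-- one point in each of finitely many columns -/
theorem le_fin {V T : Type} (col : V → T) (s : Set T) (β : V → B)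
    (h1 : ∀ a, ∀ c ≤ b, c ≤ β a → col a ∉ s → c ≤ ⊥)
    (h2 : ∀ a a', ∀ c ≤ b, c ≤ β a → c ≤ β a' → col a = col a' → a ≠ a' → c ≤ ⊥) :
    b ≤ ble ⟨V, pt, β⟩ (chk (Option s)) := by
  classical
  refine le_of_inj (dist_pt _) (fun a => if h : col a ∈ s then some ⟨col a, h⟩ else none)
    (fun _ _ _ _ => le_top) (fun a a' c k1 k2 k3 e => ?_)
  by_cases l1 : col a ∈ s
  · by_cases l2 : col a' ∈ s
    · simp only [l1, l2, dif_pos, Option.some.injEq, Subtype.mk.injEq] at e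
      by_cases l3 : a = a'
      · subst l3
        exact beq_refl _
      · exact (h2 a a' c k1 k2 k3 e l3).trans bot_le
    · exact (h1 a' c k1 k3 l2).trans bot_le
  · exact (h1 a c k1 k2 l1).trans bot_le

theorem lt_om {T : Type} [Finite T] {x : BSet B} (hf : (⊤ : B) ≤ (ble om (chk T))ᶜ)
    (h : b ≤ ble x (chk T)) : b ≤ blt x om :=
  le_inf (ble_trans h (le_of_emb (dist_nat _) (by
      rw [mk_uLift, mk_nat, lift_aleph0]
      exact mk_lt_aleph0.le)))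
    (compl_intro fun _ k1 k2 => compl_elim (ble_trans k2 (k1.trans h)) (le_top.trans hf))

/-- two members meet in a finite set -/
theorem meet_fin (hf : ∀ T : Type, Finite T → (⊤ : B) ≤ (ble om (chk T))ᶜ)
    (h3 : ∀ i u y y', ∀ c : B, y ≠ y' → c ≤ g i u y → c ≤ g i u y' → c ≤ ⊥) (hij : i ≠ j)
    {s : Set (K ⊕ K)} (hs : s.Finite)
    (h4 : ∀ u y, ∀ c ≤ b, c ≤ g i u y → c ≤ g j u y → u ∉ s → c ≤ ⊥) {x : BSet B}
    (hx : ∀ z, ∀ c ≤ b, c ≤ bmem z x → c ≤ bmem z (AA g r i) ⊓ bmem z (AA g r j)) :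
    b ≤ blt x om := by
  let t : Set ((K ⊕ K) ⊕ ℕ) := Sum.inl '' (insert i (insert j s)) ∪ Sum.inr '' Iio (r i)
  have ht : t.Finite := (((hs.insert j).insert i).image _).union ((finite_Iio _).image _)
  have := ht.to_subtype
  have k0 : b ≤ bsub x (AA g r i) := sub_intro fun z c k1 k2 => inf_l (hx z c k1 k2)
  have k1 : ∀ a, ∀ c ≤ b, c ≤ mm g r i a ⊓ bmem (pt a) x → c ≤ mm g r j a :=
    fun a c l1 l2 => mem_AA (inf_r (hx _ c l1 (inf_r l2)))
  refine lt_om (hf (Option t) inferInstance) (ble_congr (beq_symm (sub_nf k0)) (beq_refl _)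
    (le_fin (Sum.map Prod.fst id) t _ ?_ ?_))
  · rintro (⟨u, y⟩ | k) c l1 l2 l3
    · have m1 : u ∉ insert i (insert j s) := fun m => l3 (Or.inl ⟨u, m, rfl⟩)
      simp only [mem_insert_iff, not_or] at m1
      exact h4 u y c l1 (mm_ne (inf_l l2) m1.1) (mm_ne (k1 _ c l1 l2) m1.2.1) m1.2.2
    · exact mm_nat_elim (inf_l l2) fun m => l3 (Or.inr ⟨k, m, rfl⟩)
  · rintro (⟨u, y⟩ | k) (⟨u', y'⟩ | k') c l1 l2 l3 e ne
    · obtain rfl : u = u' := Sum.inl_injective e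
      have m1 : y ≠ y' := fun m => ne (m ▸ rfl)
      by_cases m2 : u = i
      · have m3 : u ≠ j := m2 ▸ hij
        exact h3 j u y y' c m1 (mm_ne (k1 _ c l1 l2) m3) (mm_ne (k1 _ c l1 l3) m3)
      · exact h3 i u y y' c m1 (mm_ne (inf_l l2) m2) (mm_ne (inf_l l3) m2)
    · exact (Sum.inl_ne_inr e).elim
    · exact (Sum.inr_ne_inl e).elim
    · exact (ne (congrArg Sum.inr (Sum.inr_injective e))).elim

theorem ext_mem (x : BSet B) : Ext (fun z => bmem z x) := fun _ _ _ => mem_congr_left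

theorem inter_sep (x y : BSet B) : b ≤ binter x y (sep x fun z => bmem z y) :=
  le_iInf fun _ => bi_intro
    (fun _ _ k => le_inf ((mem_sep (ext_mem y)).1 k).1 ((mem_sep (ext_mem y)).1 k).2)
    (fun _ _ k => (mem_sep (ext_mem y)).2 ⟨inf_l k, inf_r k⟩)

theorem inter_sep' (x y : BSet B) : b ≤ binter y x (sep x fun z => bmem z y) :=
  le_iInf fun _ => bi_intro
    (fun _ _ k => le_inf ((mem_sep (ext_mem y)).1 k).2 ((mem_sep (ext_mem y)).1 k).1)
    (fun _ _ k => (mem_sep (ext_mem y)).2 ⟨inf_r k, inf_l k⟩)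

/-- the finite intersections have unbounded sizes -/
theorem no_bound (hD : Dist (AA g r) (fun _ => ⊤))
    (hr : ∀ N, ∃ i j, i ≠ j ∧ N ≤ r i ∧ N ≤ r j) {n : BSet B} (hn : b ≤ blt n om) :
    b ≤ ⨆ A, ⨆ A', ⨆ c, bmem A ⟨K ⊕ K, AA g r, fun _ => ⊤⟩ ⊓
      (bmem A' ⟨K ⊕ K, AA g r, fun _ => ⊤⟩ ⊓ ((beq A A')ᶜ ⊓ (binter A A' c ⊓ ble n c))) := by
  refine sup_elim (enum n ℕ) (fun c k1 k2 => compl_elim (ble_trans (le_of_emb (dist_pt _) ?_) k2)
    (k1.trans (inf_r hn))) (fun c _ k2 => iSup_elim k2 fun s d _ l => ?_)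
  · rw [mk_uLift, lift_id]
  · have hs : s.1.Finite := lt_aleph0_iff_set_finite.1 (s.2.trans_eq mk_nat)
    obtain ⟨N, hN⟩ := hs.bddAbove
    obtain ⟨i, j, hij, hi, hj⟩ := hr (N + 1)
    refine iSup_intro (AA g r i) (iSup_intro (AA g r j) (iSup_intro
      (sep (AA g r i) fun z => bmem z (AA g r j)) (le_inf
        (mem_self (x := ⟨K ⊕ K, AA g r, fun _ => ⊤⟩) i le_top) (le_inf
        (mem_self (x := ⟨K ⊕ K, AA g r, fun _ => ⊤⟩) j le_top) (le_inf
        (compl_intro fun e _ m => hD i j e hij le_top le_top m) (le_inf (inter_sep _ _)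
        (ble_trans l ?_)))))))
    refine le_of_inj (κ := ((K ⊕ K) × K) ⊕ ℕ) (A' := pt)
      (β' := fun a => mm g r i a ⊓ bmem (pt a) (AA g r j)) (dist_pt _) (fun x => Sum.inr x.1)
      (fun x c _ _ => ?_) (fun x x' c _ _ _ e => ?_)
    · have := hN x.2
      exact le_inf (mm_nat (by omega)) (AA_mem (mm_nat (by omega)))
    · rw [Subtype.ext (Sum.inr_injective e)]
      exact beq_refl _

section Main

variable {η τ μ : Cardinal.{0}} {S : Set (Ix η)} {π : Ix η → Wt τ → Ix η}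
  {z : Wt τ → ℕ → Set (Wt τ)} {le : P → P → Prop} {pr : P → B} {L : Wt τ → B}
  {C : Ix η → Set (Wt τ)}

/-- two members share only finitely many guessed columns -/
theorem cols (tr : Tr η τ S π z) (fr : Frc τ μ z le pr L) {w : Ix η → Ix η → Ix η → B}
    {i j : Ix η ⊕ Ix η} (hij : i ≠ j) (p : P) : ∃ q, le q p ∧ ∃ s : Set (Ix η ⊕ Ix η), s.Finite ∧
      ∀ u y, ∀ c ≤ pr q, c ≤ gv S C π L w i u y → c ≤ gv S C π L w j u y → u ∉ s → c ≤ ⊥ := by
  wlog h : ∀ d e, i = Sum.inr d → j = Sum.inr e → d < e generalizing i j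
  · push Not at h
    obtain ⟨d, e, rfl, rfl, hde⟩ := h
    obtain ⟨q, k1, s, k2, k3⟩ := this hij.symm (fun e' d' l1 l2 => by
      obtain rfl := Sum.inr_injective l1
      obtain rfl := Sum.inr_injective l2
      exact lt_of_le_of_ne hde fun m => hij (m ▸ rfl))
    exact ⟨q, k1, s, k2, fun u y c l1 l2 l3 => k3 u y c l1 l3 l2⟩
  by_cases h' : ∃ d ∈ S, ∃ e ∈ S, i = Sum.inr d ∧ j = Sum.inr e
  · obtain ⟨d, hd, e, he, rfl, rfl⟩ := h'
    obtain ⟨ξ, n, hξ⟩ := tr.ad d hd e he (h d e rfl rfl)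
    obtain ⟨q, k1, s, k2, k3⟩ := fr.zfin ξ n p
    refine ⟨q, k1, (fun ζ => Sum.inl (π e ζ)) '' s, k2.image _, fun u y c l1 l2 l3 l4 => ?_⟩
    refine gv_elim l2 fun d' ζ' m1 m2 _ c' m3 _ _ =>
      gv_elim (m3.trans l3) fun e' ζ n1 n2 _ c'' n3 n4 _ => ?_
    obtain rfl := Sum.inr_injective m1
    obtain rfl := Sum.inr_injective n1
    exact compl_elim n4 ((n3.trans (m3.trans l1)).trans (k3 ζ
      (hξ ζ ζ' (Sum.inl_injective (n2.symm.trans m2))) fun o => l4 ⟨ζ, o, n2.symm⟩))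
  · refine ⟨p, fr.hc.refl p, ∅, finite_empty, fun u y c _ l2 l3 _ => ?_⟩
    exact gv_elim l2 fun d _ m1 _ m2 c' m3 _ _ => gv_elim (m3.trans l3) fun e _ n1 _ n2 _ _ _ _ =>
      (h' ⟨d, m2, e, n2, m1, n1⟩).elim

/-- no set meets all members in a nonempty countable set -/
theorem no_T (hτ : τ.IsRegular) (tr : Tr η τ S π z) (fr : Frc τ μ z le pr L)
    {G : Ix η → Ix η → P → Option (Ix η)}
    (hG : ∀ f : Ix η → P → Option (Ix η),
      ∃ d ∈ S, IsCofinal (C d) ∧ ∀ ξ ∈ C d, G d (π d ξ) = f (π d ξ))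
    {r : Ix η ⊕ Ix η → ℕ} (hr : ∀ x, r (Sum.inl x) = 0) {T : BSet B} {p : P}
    (h1 : ∀ i, pr p ≤ ⨆ a, bmem a T ⊓ bmem a (AA (gv S C π L fun d x => val pr (G d x)) r i))
    (h2 : ∀ i c, pr p ≤ binter T (AA (gv S C π L fun d x => val pr (G d x)) r i) c ⇨ ble c om) :
    False := by
  classical
  have hc := fr.hc
  let t : Ix η → Ix η → B := fun x y =>
    bmem (pt (Sum.inl (Sum.inl x, y) : ((Ix η ⊕ Ix η) × Ix η) ⊕ ℕ)) T
  let f : Ix η → P → Option (Ix η) := fun x q =>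
    if h : ∃ y, pr q ≤ t x y then some h.choose else none
  have hf1 : ∀ x q y, f x q = some y → pr q ≤ t x y := by
    intro x q y e
    by_cases h : ∃ y, pr q ≤ t x y
    · simp only [f, dif_pos h, Option.some.injEq] at e
      exact e ▸ h.choose_spec
    · simp only [f, dif_neg h, reduceCtorEq] at e
  have hf2 : ∀ x q y, pr q ≤ t x y → ∃ y', f x q = some y' := fun x q y h =>
    ⟨_, dif_pos ⟨y, h⟩⟩
  obtain ⟨d, hd, hC, hf⟩ := hG f
  obtain ⟨q, k1, S0, k2, k3⟩ := fr.cov _ (fun a => mm (gv S C π L fun d x => val pr (G d x)) r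
    (Sum.inr d) a ⊓ bmem (pt a) T) p (mp (h2 (Sum.inr d) _) (inter_sep' _ _))
  have k4 : #{ξ : Wt τ | ∃ y, Sum.inl (Sum.inl (π d ξ), y) ∈ S0} < τ := by
    have l : ∀ ξ : {ξ : Wt τ | ∃ y, Sum.inl (Sum.inl (π d ξ), y) ∈ S0},
      ∃ y, Sum.inl (Sum.inl (π d ξ.1), y) ∈ S0 := fun ξ => ξ.2
    choose y hy using l
    refine (mk_le_of_injective (f := fun ξ => (⟨_, hy ξ⟩ : S0)) fun ξ ξ' e => ?_).trans_lt k2
    exact Subtype.ext (tr.inj d hd (Sum.inl_injective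
      (congrArg Prod.fst (Sum.inl_injective (congrArg Subtype.val e)))))
  obtain ⟨γ, hγ⟩ := bdd_Wt hτ k4
  obtain ⟨q1, ξ, l1, ⟨l2, l3⟩, l4⟩ := fr.unb (C d ∩ Ici γ) (fun a =>
    let ⟨a', m1, m2⟩ := hC (max a γ)
    ⟨a', ⟨m1, (le_max_right _ _).trans m2⟩, (le_max_left _ _).trans m2⟩) q
  have l5 : pr q1 ≤ ⨆ y, t (π d ξ) y := by
    refine iSup_elim ((hc.mono (hc.trans l1 k1)).trans (h1 (Sum.inl (π d ξ)))) fun a c _ m2 =>
      mem_elim (inf_r m2) ?_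
    rintro (⟨u, y⟩ | k) e n1 n2 n3
    · by_cases o : u = Sum.inl (π d ξ)
      · subst o
        exact iSup_intro y (mem_congr_left n3 (n1.trans (inf_l m2)))
      · exact gv_elim (mm_ne n2 o) fun _ _ o1 => (Sum.inl_ne_inr o1).elim
    · exact mm_nat_elim n2 (by rw [hr]; omega)
  obtain ⟨q2, y0, m1, m2⟩ := hc.ex l5
  obtain ⟨y1, m3⟩ := hf2 _ _ _ m2
  obtain ⟨q3, y, n1, n2⟩ := hc.ex ((iSup_intro (f := fun p' : {p' // f (π d ξ) p' = some y1} =>
    pr p'.1) ⟨q2, m3⟩ le_rfl).trans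
      (le_iSup_lst (fun y => ⨆ p' : {p' // f (π d ξ) p' = some y}, pr p'.1) y1))
  have n3 : pr q3 ≤ t (π d ξ) y :=
    n2.trans ((lst_le _ _).trans (iSup_le fun p' => hf1 _ _ _ p'.2))
  have n4 := hc.trans n1 m1
  refine hc.pos q3 (compl_elim (le_inf (mm_g (gv_intro hd l2 ((hc.mono n4).trans l4) ?_)) n3)
    ((hc.mono (hc.trans n4 l1)).trans (k3 (Sum.inl (Sum.inl (π d ξ), y)) fun o =>
      (hγ ξ ⟨y, o⟩).not_ge l3)))
  rw [hf ξ l2]
  exact n2

end Main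

end Fam

open Fam in
theorem fam : FamStmt := by
  intro hg η τ μ S π z P B _ le pr L hη hτ hτ0 hμ tr fr
  have hK : ℵ₀ ≤ #(Ix η) := by
    rw [mk_Ix]
    exact hη.inf.trans (le_succ η)
  have hne := ne_Ix η
  have hI : #(Ix η ⊕ Ix η) = #(Ix η) := by
    rw [mk_sum, lift_id, add_eq_self hK]
  have hV : #(((Ix η ⊕ Ix η) × Ix η) ⊕ ℕ) ≤ #(Ix η) := by
    rw [mk_sum, mk_prod, lift_id, lift_id, lift_id, lift_id, hI, mul_eq_self hK, mk_nat,
      add_eq_left hK hK]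
  have hY : #(P → Option (Ix η)) ≤ succ η := by
    rw [← power_def, mk_option, add_one_eq hK, mk_Ix]
    exact (power_le_power_left (succ_ne_zero η) (fr.card.trans hμ)).trans_eq hη.pow_succ
  obtain ⟨C, G, hG⟩ := hg η τ S π z hη hτ hτ0 tr (P → Option (Ix η)) hY
  have := infinite_iff.2 hK
  let j := Infinite.natEmbedding (Ix η)
  let r : Ix η ⊕ Ix η → ℕ := Sum.elim (fun _ => 0) (Function.invFun j)
  have hr : ∀ n, r (Sum.inr (j n)) = n := fun n => Function.leftInverse_invFun j.injective n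
  let g := gv S C π L fun d x => val pr (G d x)
  have hD : Dist (AA g r) (fun _ => ⊤) :=
    dist_AA (fun x u y => gv_elim le_rfl fun _ _ e => (Sum.inl_ne_inr e).elim)
      (fun i e y => gv_elim le_rfl fun _ _ _ e => (Sum.inr_ne_inl e).elim)
  have h3 : ∀ i u y y', ∀ c : B, y ≠ y' → c ≤ g i u y → c ≤ g i u y' → c ≤ ⊥ := by
    intro i u y y' c ne k1 k2
    refine gv_elim k1 fun d ξ l1 l2 _ c' l3 _ l4 =>
      gv_elim (l3.trans k2) fun d' ξ' m1 m2 _ c'' m3 _ m4 => ?_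
    obtain rfl := Sum.inr_injective (l1.symm.trans m1)
    rw [← Sum.inl_injective (l2.symm.trans m2)] at m4
    exact lst_unique (m3.trans l4) m4 ne
  refine ⟨⟨Ix η ⊕ Ix η, AA g r, fun _ => ⊤⟩, le_of_emb (dist_pt _) hI.le, le_of_emb hD hI.ge,
    fun b A h => ⟨mem_elim h fun i c _ _ k => ?_, mem_elim h fun i c _ _ k => ?_⟩,
    fun b A A' x h h' hne hx => mem_elim h fun i c k1 _ k2 =>
      mem_elim (k1.trans h') fun i' e l1 _ l2 => ?_,
    fun b n hn => no_bound hD (fun N => ⟨Sum.inr (j N), Sum.inr (j (N + 1)), fun e => ?_,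
      (hr N).ge, (Nat.le_succ N).trans (hr (N + 1)).ge⟩) hn,
    fun b T h => fr.hc.le_bot fun p hp => ?_⟩
  · exact ble_congr (beq_symm k) (beq_refl _) (le_of_emb (dist_pt _) hV)
  · exact ble_congr (beq_refl _) (beq_symm k) (le_of_inj (κ := ((Ix η ⊕ Ix η) × Ix η) ⊕ ℕ)
      (A' := pt) (β' := mm g r i) (dist_pt _) (fun y => Sum.inl (i, y))
      (fun _ _ _ _ => mm_self) (fun y y' _ _ _ _ e => by
        rw [show y = y' from congrArg Prod.snd (Sum.inl_injective e)]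
        exact beq_refl _))
  · by_cases hi : i = i'
    · subst hi
      exact compl_elim (beq_trans (l1.trans k2) (beq_symm l2)) ((l1.trans k1).trans hne)
    · refine fr.hc.le_of fun p hp => ?_
      obtain ⟨q, m1, s, m2, m3⟩ := cols (C := C) (w := fun d x => val pr (G d x)) tr fr hi p
      have m4 := (fr.hc.mono m1).trans hp
      refine ⟨q, m1, meet_fin (r := r) fr.fin h3 hi m2 m3 fun a c' n1 n2 => ?_⟩
      have n3 := n1.trans m4
      have n4 := bi_mp ((n3.trans (l1.trans k1)).trans (iInf_elim hx a)) n2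
      exact le_inf (mem_congr_right (n3.trans (l1.trans k2)) (inf_l n4))
        (mem_congr_right (n3.trans l2) (inf_r n4))
  · have := j.injective (Sum.inr_injective e)
    omega
  · have k : ∀ i, pr p ≤ _ := fun i => mp (iInf_elim (hp.trans h) (AA g r i))
      (mem_self (x := ⟨Ix η ⊕ Ix η, AA g r, fun _ => ⊤⟩) i le_top)
    exact no_T hτ tr fr hG (r := r) (fun _ => rfl) (fun i => inf_l (k i))
      (fun i c => iInf_elim (inf_r (k i)) c)

end Pool.Agent.MP_41bf72_lc.AP
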