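import Pool.Agent.MP_41bf72_lc.AP.Spec

/-! The guessing lemma for ladders on a stationary set. -/

set_option autoImplicit false

namespace Pool.Agent.MP_41bf72_lc.AP

open Cardinal Set Order Pool.Agent.MP_76b292_lc Pool.Agent.MP_76b292_lc.BSet

namespace Guess

variable {η τ : Cardinal.{0}} {S : Set (Ix η)} {π : Ix η → Wt τ → Ix η}
  {z : Wt τ → ℕ → Set (Wt τ)}

theorem piece (hτ : τ.IsRegular) {J : Type} (hJ : #J < τ) (A : J → Set (Wt τ))
    (h : ∀ ξ, ∃ n, ξ ∈ A n) : ∃ n, IsCofinal (A n) := by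
  by_contra k
  push Not at k
  choose b hb using fun n => not_isCofinal_iff.1 (k n)
  obtain ⟨u, hu⟩ := bdd_Wt hτ (s := range b) (mk_range_le.trans_lt hJ)
  obtain ⟨n, hn⟩ := h u
  exact (hb n u hn).not_gt (hu _ ⟨n, rfl⟩)

theorem g0 (c : Crit ℵ₀ η) (hτ : τ.IsRegular) (h0 : ℵ₀ < τ) (s : Tr η τ S π z) {Y : Type}
    [Nonempty Y] (hY : #Y ≤ succ η) :
    ∃ (D : Ix η → η.out → Set (Ix η)) (G : Ix η → η.out → Ix η → Y), ∀ f : Ix η → Y,
      ∃ d ∈ S, ∃ w, IsCofinal (π d ⁻¹' D d w) ∧ ∀ x ∈ D d w, G d w x = f x := by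
  classical
  have hi : ℵ₀ ≤ succ η := c.inf.trans (le_succ η)
  have hI := ne_Ix η
  obtain ⟨e, he⟩ := exists_surj (α := Ix η) (β := Ix η × Y) (by
    rw [mk_prod, lift_id, lift_id, mk_Ix]
    exact (mul_le_mul_right hY _).trans_eq (mul_eq_self hi))
  choose W w1 w2 using fun d : Ix η => c.dec _ (Iio d) (mk_Iio_Ix d)
  have h2 : ∀ d, ∃ X : η.out → Set (Ix η), ∀ ξ, ∀ Z ⊆ W d ξ, ∃ z, X z = Z := fun d => by
    have hn : Nonempty (insert ∅ (⋃ ξ ∈ (univ : Set (ℵ₀ : Cardinal.{0}).out), 𝒫 (W d ξ)) :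
      Set (Set (Ix η))) := ⟨⟨∅, mem_insert _ _⟩⟩
    obtain ⟨X, hX⟩ := exists_surj (α := η.out)
      (β := (insert ∅ (⋃ ξ ∈ (univ : Set (ℵ₀ : Cardinal.{0}).out), 𝒫 (W d ξ)) :
        Set (Set (Ix η)))) (by
      rw [mk_out, insert_eq]
      exact mk_union_le' c.inf (by simpa using one_le_aleph0.trans c.inf)
        (mk_biUnion_le'' c.inf (by simpa using c.lt.le) fun ξ _ => by
          rw [mk_powerset]; exact (c.sl _ (w2 d ξ)).le))
    refine ⟨fun z => (X z).1, fun ξ Z hZ => ?_⟩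
    obtain ⟨z, hz⟩ := hX ⟨Z, Or.inr (mem_biUnion (mem_univ ξ) hZ)⟩
    exact ⟨z, congrArg Subtype.val hz⟩
  choose X hX using h2
  refine ⟨fun d w => {x | ∃ i ∈ X d w, (e i).1 = x}, fun d w x =>
    if k : ∃ i ∈ X d w, (e i).1 = x then (e k.choose).2 else Classical.arbitrary Y, fun f => ?_⟩
  choose h hh using fun g => he (g, f g)
  obtain ⟨d, hd, hc⟩ := s.stat h
  let Z : (ℵ₀ : Cardinal.{0}).out → Set (Ix η) :=
    fun n => {i | i ∈ W d n ∧ (e i).2 = f (e i).1}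
  obtain ⟨n, h3⟩ := piece hτ ((mk_out _).trans_lt h0)
    (fun n => π d ⁻¹' {x | ∃ i ∈ Z n, (e i).1 = x}) fun ξ => by
      obtain ⟨n, h5⟩ := mem_iUnion.1 (w1 d (hc _ (s.lt d hd ξ)))
      exact ⟨n, h (π d ξ), ⟨h5, by rw [hh]⟩, by rw [hh]⟩
  obtain ⟨w, hw⟩ := hX d n (Z n) fun i hi => hi.1
  refine ⟨d, hd, w, by beta_reduce; rw [hw]; exact h3, fun x hx => ?_⟩
  have k : ∃ i ∈ X d w, (e i).1 = x := hx
  have h6 : k.choose ∈ Z n := hw.subset k.choose_spec.1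
  exact (dif_pos k).trans (h6.2.trans (congrArg f k.choose_spec.2))

end Guess

theorem guess : GuessStmt := by
  intro η τ S π z c hτ h0 s Y _ hY
  obtain ⟨D, G, h⟩ := Guess.g0 c hτ h0 s (Y := η.out → Y) (by
    rw [mk_arrow]; simpa using (power_le_power_right hY).trans c.pow_succ.le)
  by_contra k
  push Not at k
  choose f hf using fun w => k (fun d => π d ⁻¹' D d w) fun d x => G d w x w
  obtain ⟨d, hd, w, h1, h2⟩ := h fun x w => f w x
  obtain ⟨ξ, h3, h4⟩ := hf w d hd h1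
  exact h4 (congrFun (h2 _ h3) w)

end Pool.Agent.MP_41bf72_lc.AP
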