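import Pool.Agent.MP_41bf72_lc.AP.Pos1

/-! Master conditions, density and the properties of the completion. -/

set_option autoImplicit false

namespace Pool.Agent.MP_41bf72_lc.AP

open Cardinal Set Order Pool.Agent.MP_76b292_lc Pool.Agent.MP_76b292_lc.BSet

namespace Poset

namespace Dat

variable {τ : Cardinal.{0}} {X : Type} {Δ : Dat τ X}

theorem add (p : Δ.Cd) {y : X} (hy : Δ.Md y) (hp : p.supp ⊆ Δ.c y) {u : Set (Wt τ)}
    (hu : u.Subsingleton) (hu' : ∀ α ∈ u, Δ.dl y ≤ α) : ∃ q, Le q p ∧ y ∈ q.n ∧ u ⊆ q.s := by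
  obtain ⟨h1, h2, h3, -, -⟩ := supp_sub.1 hp
  have h4 : ∀ α ∈ p.s, α < Δ.dl y := fun α k => Δ.dl1 y α (h1 α k)
  refine ⟨⟨p.s ∪ u, p.F, insert y p.n, p.f, p.fs.union hu.finite, p.fF, p.fn.insert y, p.ff,
    ?_, ?_, ?_, p.f1, p.f2⟩, ⟨subset_union_left, Subset.rfl, subset_insert _ _, Subset.rfl, ?_⟩,
    mem_insert _ _, subset_union_right⟩
  · rintro x (rfl | k)
    exacts [hy, p.md x k]
  · rintro x (rfl | k) x' (rfl | k') e
    exacts [(e rfl).elim, Or.inr (h3 k'), Or.inl (h3 k), p.ch x k x' k' e]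
  · rintro α (k | k) β (k' | k') e
    · obtain ⟨x, l1, l2⟩ := p.sp α k β k' e
      exact ⟨x, Or.inr l1, l2⟩
    · exact ⟨y, Or.inl rfl, h4 α k, hu' β k'⟩
    · exact ((h4 β k').trans_le (hu' α k)).not_gt e |>.elim
    · exact (e.ne (hu k k')).elim
  · rintro α (k | k) k' a ha l
    · exact k' k
    · exact ((Δ.zlt _ _ l).trans (Δ.dl1 y _ (h2 a ha))).not_ge (hu' α k)

theorem Cd.up (r : Δ.Cd) {y x : X} (hy : y ∈ r.n) (hx : x ∈ r.n) (h : x ∉ Δ.c y) :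
    Δ.c y ⊆ Δ.c x := by
  by_cases e : x = y
  · exact e ▸ Subset.rfl
  · exact (r.md x hx).m2 y ((r.ch x hx y hy e).resolve_left h)

theorem Cd.down (r : Δ.Cd) {y x : X} (hy : y ∈ r.n) (hx : x ∈ r.n) (h : Δ.dl x < Δ.dl y) :
    x ∈ Δ.c y :=
  (r.ch x hx y hy fun e => h.ne (e ▸ rfl)).resolve_right fun k => ((r.md x hx).m3 y k).not_gt h

/-- The part of `r` inside the model `y`. -/
def Cd.res (r : Δ.Cd) {y : X} (hy : y ∈ r.n) : Δ.Cd where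
  s := r.s ∩ Iio (Δ.dl y)
  F := {a ∈ r.F | a.1 < Δ.dl y}
  n := r.n ∩ Δ.c y
  f := {a ∈ r.f | a.1 < Δ.dl y}
  fs := r.fs.inter_of_left _
  fF := r.fF.subset fun _ k => k.1
  fn := r.fn.inter_of_left _
  ff := r.ff.subset fun _ k => k.1
  md := fun x k => r.md x k.1
  ch := fun x k x' k' => r.ch x k.1 x' k'.1
  sp := fun α k β k' e => by
    obtain ⟨x, l1, l2⟩ := r.sp α k.1 β k'.1 e
    exact ⟨x, ⟨l1, r.down hy l1 (l2.2.trans_lt k'.2)⟩, l2⟩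
  f1 := fun a k => r.f1 a k.1
  f2 := fun δ α α' k l l' => r.f2 δ α α' k l.1 l'.1

theorem Cd.res_supp (r : Δ.Cd) {y : X} (hy : y ∈ r.n) : (r.res hy).supp ⊆ Δ.c y :=
  supp_sub.2 ⟨fun α k => (r.md y hy).m1 α k.2, fun _ k => (r.md y hy).m1 _ k.2, fun _ k => k.2,
    fun _ k => (r.md y hy).m1 _ k.2, fun a k => (r.md y hy).m1 _ ((r.f1 a k.1).trans k.2)⟩

theorem Cd.res_le (r : Δ.Cd) {y : X} (hy : y ∈ r.n) : Le r (r.res hy) :=
  ⟨fun _ k => k.1, fun _ k => k.1, fun _ k => k.1, fun _ k => k.1, fun _ k k' _ ha l =>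
    k' ⟨k, (Δ.zlt _ _ l).trans ha.2⟩⟩

theorem Cd.amal (r : Δ.Cd) {y : X} (hy : y ∈ r.n) {d : Δ.Cd} (h1 : Le d (r.res hy))
    (h2 : d.supp ⊆ Δ.c y) (h3 : ∀ α ∈ d.s, α ∉ r.s → ∀ a ∈ r.F, α ∉ Δ.z a.1 a.2) :
    ∃ t, Le t r ∧ Le t d := by
  obtain ⟨k1, k2, k3, k4, -⟩ := supp_sub.1 h2
  have k5 : ∀ α ∈ d.s, α < Δ.dl y := fun α k => Δ.dl1 y α (k1 α k)
  have k6 : ∀ x ∈ d.n, ∀ x' ∈ r.n, x ≠ x' → x ∈ Δ.c x' ∨ x' ∈ Δ.c x := fun x k x' k' e => by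
    by_cases l : x' ∈ Δ.c y
    · exact d.ch x k x' (h1.n ⟨k', l⟩) e
    · exact Or.inl (r.up hy k' l (k3 k))
  refine ⟨⟨r.s ∪ d.s, r.F ∪ d.F, r.n ∪ d.n, r.f ∪ d.f, r.fs.union d.fs, r.fF.union d.fF,
    r.fn.union d.fn, r.ff.union d.ff, ?_, ?_, ?_, ?_, ?_⟩,
    ⟨subset_union_left, subset_union_left, subset_union_left, subset_union_left, ?_⟩,
    ⟨subset_union_right, subset_union_right, subset_union_right, subset_union_right, ?_⟩⟩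
  · rintro x (k | k)
    exacts [r.md x k, d.md x k]
  · rintro x (k | k) x' (k' | k') e
    exacts [r.ch x k x' k' e, (k6 x' k' x k e.symm).symm, k6 x k x' k' e, d.ch x k x' k' e]
  · rintro α (k | k) β (k' | k') e
    · obtain ⟨x, l1, l2⟩ := r.sp α k β k' e
      exact ⟨x, Or.inl l1, l2⟩
    · obtain ⟨x, l1, l2⟩ := d.sp α (h1.s ⟨k, e.trans (k5 β k')⟩) β k' e
      exact ⟨x, Or.inr l1, l2⟩
    · by_cases l : β < Δ.dl y
      · obtain ⟨x, l1, l2⟩ := d.sp α k β (h1.s ⟨k', l⟩) e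
        exact ⟨x, Or.inr l1, l2⟩
      · exact ⟨y, Or.inl hy, k5 α k, not_lt.1 l⟩
    · obtain ⟨x, l1, l2⟩ := d.sp α k β k' e
      exact ⟨x, Or.inr l1, l2⟩
  · rintro a (k | k)
    exacts [r.f1 a k, d.f1 a k]
  · rintro δ α α' n (k | k) (k' | k')
    · exact r.f2 δ α α' n k k'
    · exact d.f2 δ α α' n (h1.f ⟨k, Δ.dl1 y δ (k4 (δ, α', n) k')⟩) k'
    · exact d.f2 δ α α' n k (h1.f ⟨k', Δ.dl1 y δ (k4 (δ, α, n) k)⟩)
    · exact d.f2 δ α α' n k k'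
  · rintro α (k | k) k'
    exacts [(k' k).elim, h3 α k k']
  · rintro α (k | k) k' a ha l
    · exact k' (h1.s ⟨k, (Δ.zlt _ _ l).trans (Δ.dl1 y _ (k2 a ha))⟩)
    · exact k' k

theorem Cd.fat (r : Δ.Cd) {y : X} (hy : y ∈ r.n) {T : Set (Finset (Wt τ))} (hT : Δ.it T ∈ Δ.c y)
    (a : Finset (Wt τ)) : (∀ α ∈ a, α ∈ r.s ∧ Δ.dl y ≤ α) → ∀ k, Δ.Fat T k a →
      ∃ k', Δ.Fat T k' ∅ := by
  induction a using Finset.induction_on_max with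
  | empty => exact fun _ k h => ⟨k, h⟩
  | insert β a hβ ih =>
    intro h k h'
    have h1 : ∀ α ∈ a, α ∈ r.s ∧ Δ.dl y ≤ α := fun α l => h α (Finset.mem_insert_of_mem l)
    obtain ⟨h2, h3⟩ := h β (Finset.mem_insert_self _ _)
    refine ih h1 (k + 1) ((Δ.gam1 _).resolve_right fun l => ?_)
    obtain ⟨x, l1, l2, l3, l4⟩ : ∃ x ∈ r.n, Δ.it T ∈ Δ.c x ∧ (∀ α ∈ a, α < Δ.dl x) ∧
        Δ.dl x ≤ β := by
      rcases a.eq_empty_or_nonempty with rfl | m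
      · exact ⟨y, hy, hT, by simp, h3⟩
      · obtain ⟨x, m1, m2, m3⟩ := r.sp _ (h1 _ (a.max'_mem m)).1 β h2 (hβ _ (a.max'_mem m))
        exact ⟨x, m1, r.up hy m1 (fun o => (((r.md y hy).m3 x o).trans_le
          (h1 _ (a.max'_mem m)).2).not_gt m2) hT, fun α o => (a.le_max' α o).trans_lt m2, m3⟩
    exact ((mem_Iio.1 (l h')).trans ((r.md x l1).m4 T l2 k a l3)).not_ge l4

theorem pick {y : X} (hy : Δ.Md y) {T : Set (Finset (Wt τ))} (hT : Δ.it T ∈ Δ.c y)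
    {F : Set (Wt τ × ℕ)} (hF : F.Finite) (k : ℕ) : ∀ a : Finset (Wt τ),
      (∀ α ∈ a, α < Δ.dl y ∧ ∀ e ∈ F, α ∉ Δ.z e.1 e.2) → Δ.Fat T k a →
      ∃ b ∈ T, ∀ α ∈ b, α < Δ.dl y ∧ ∀ e ∈ F, α ∉ Δ.z e.1 e.2 := by
  induction k with
  | zero => exact fun a h h' => ⟨a, h', h⟩
  | succ k ih =>
    intro a h h'
    obtain ⟨β, k1, k2, k3⟩ := h' F hF
    refine ih (insert β a) (fun α l => ?_) k1
    rcases Finset.mem_insert.1 l with rfl | l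
    exacts [⟨k2.trans (hy.m4 T hT k a fun α l => (h α l).1), k3⟩, h α l]

theorem proper (D : ℕ → Set Δ.Cd) (hD : ∀ n p, ∃ q ∈ D n, Le q p) (p : Δ.Cd) :
    ∃ q, Le q p ∧ ∃ S : Set Δ.Cd, #S < τ ∧
      ∀ n r, Le r q → ∃ d ∈ D n, d ∈ S ∧ ∃ t, Le t r ∧ Le t d := by
  obtain ⟨y, h1, h2, h3⟩ := master D (p.supp_fin.lt_aleph0.trans Δ.unc)
  obtain ⟨q, k1, k2, -⟩ := add p h1 h2 subsingleton_empty (by simp)
  refine ⟨q, k1, {d | d.supp ⊆ Δ.c y}, (count (le_max_right _ _) (le_max_left _ _)).trans_lt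
    (max_lt (Δ.c1 y) Δ.unc), fun n r₀ hr => ?_⟩
  obtain ⟨r, l1, l2⟩ := hD n r₀
  have hy : y ∈ r.n := l2.n (hr.n k2)
  obtain ⟨m1, m2⟩ := h3 n (r.res hy) (r.res_supp hy)
  obtain ⟨k, hk⟩ := r.fat hy m1 (r.fs.inter_of_left (Ici (Δ.dl y))).toFinset
    (fun α o => by simpa using o) 0 ⟨r, l1, r.res_le hy, fun α o => by
      by_cases o' : α < Δ.dl y
      · exact Or.inl ⟨o, o'⟩
      · exact Or.inr (by simpa using ⟨o, not_lt.1 o'⟩)⟩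
  obtain ⟨b, n1, n2⟩ := pick h1 m1 r.fF k ∅ (by simp) hk
  obtain ⟨d, o1, o2, o3, o4⟩ := m2 b n1 fun α o => (n2 α o).1
  obtain ⟨t, u1, u2⟩ := r.amal hy o2 o4 fun α o o' =>
    (n2 α ((o3 α o).resolve_left fun v => o' v.1)).2
  exact ⟨d, o1, o4, t, u1.tr l2, u2⟩

theorem cap (p : Δ.Cd) (x : X) : ∃ y, Δ.Md y ∧ p.supp ⊆ Δ.c y ∧ x ∈ Δ.c y := by
  obtain ⟨y, h1, h2, -⟩ := master (Δ := Δ) (fun _ => ∅)
    ((p.supp_fin.insert x).lt_aleph0.trans Δ.unc)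
  exact ⟨y, h1, (subset_insert _ _).trans h2, h2 (mem_insert _ _)⟩

theorem addF (p : Δ.Cd) (a : Wt τ × ℕ) : ∃ q, Le q p ∧ a ∈ q.F :=
  ⟨{ p with F := insert a p.F, fF := p.fF.insert a },
    ⟨Subset.rfl, subset_insert _ _, Subset.rfl, Subset.rfl, fun _ h h' => (h' h).elim⟩,
    mem_insert _ _⟩

theorem addf (p : Δ.Cd) {δ α : Wt τ} (h : α < δ) : ∃ q k, Le q p ∧ (δ, α, k) ∈ q.f := by
  obtain ⟨k, hk⟩ := (p.ff.image fun a => a.2.2).exists_notMem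
  refine ⟨⟨p.s, p.F, p.n, insert (δ, α, k) p.f, p.fs, p.fF, p.fn, p.ff.insert _, p.md, p.ch, p.sp,
    ?_, ?_⟩, k, ⟨Subset.rfl, Subset.rfl, Subset.rfl, subset_insert _ _,
      fun _ h h' => (h' h).elim⟩, mem_insert _ _⟩
  · rintro a (rfl | l)
    exacts [h, p.f1 a l]
  · rintro δ' β β' n (l | l) (l' | l')
    · exact (congrArg (fun a => a.2.1) l).trans (congrArg (fun a => a.2.1) l').symm
    · exact (hk ⟨_, l', congrArg (fun a => a.2.2) l⟩).elim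
    · exact (hk ⟨_, l, congrArg (fun a => a.2.2) l'⟩).elim
    · exact p.f2 δ' β β' n l l'

end Dat

theorem rel_le {P B : Type} [CompleteBooleanAlgebra B] {le : P → P → Prop} {pr : P → B}
    (hc : Cpl le pr) {ι κ : Type} {A : κ → BSet B} (hA : Dist A fun _ => ⊤)
    (R : P → ι → κ → Prop) (h1 : ∀ p q i j, le q p → R p i j → R q i j)
    (h2 : ∀ p i, ∃ q j, le q p ∧ R q i j) (h3 : ∀ p i i' j, R p i j → R p i' j → i = i') :
    (⊤ : B) ≤ ble (chk ι) ⟨κ, A, fun _ => ⊤⟩ := by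
  refine le_of_idx hA (fun i j => ⨆ q : {q // R q i j}, pr q.1)
    (fun i c _ _ => hc.le_of fun p _ => ?_) fun i i' j c _ _ _ _ k1 k2 => hc.le_of fun p hp => ?_
  · obtain ⟨q, j, k1, k2⟩ := h2 p i
    exact ⟨q, k1, iSup_intro j (le_inf le_top (iSup_intro ⟨q, k2⟩ le_rfl))⟩
  · obtain ⟨q, r, l1, l2, l3⟩ := hc.ex_pr (hp.trans k1)
    obtain ⟨q', r', m1, m2, m3⟩ := hc.ex_pr ((hc.mono l2).trans (hp.trans k2))
    obtain rfl := h3 q' i i' j (h1 _ _ _ _ (hc.trans m2 l3) l1) (h1 _ _ _ _ m3 m1)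
    exact ⟨p, hc.refl p, beq_refl _⟩

theorem exists_dat {τ μ : Cardinal.{0}} {z : Wt τ → ℕ → Set (Wt τ)} (hτ : τ.IsRegular)
    (h0 : ℵ₀ < τ) (h1 : 2 ^ τ ≤ μ) (h2 : μ ^ τ ≤ μ) (hz : Hz z) :
    ∃ Δ : Dat τ μ.out, Δ.z = z := by
  have h3 : τ ≤ μ := (cantor τ).le.trans h1
  obtain ⟨iw⟩ : Nonempty (Wt τ ↪ μ.out) := by rwa [← Cardinal.le_def, mk_Wt, mk_out]
  have : Infinite (Wt τ) := infinite_iff.2 (by rw [mk_Wt]; exact h0.le)
  obtain ⟨it⟩ : Nonempty (Set (Finset (Wt τ)) ↪ μ.out) := by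
    rwa [← Cardinal.le_def, mk_set, mk_finset_of_infinite, mk_Wt, mk_out]
  have hn : Nonempty {A : Set μ.out // #A < τ} := ⟨⟨∅, by simpa using hτ.pos⟩⟩
  obtain ⟨c, hc⟩ := exists_surj (α := μ.out) (β := {A : Set μ.out // #A < τ}) (by
    refine (mk_subtype_le_of_subset (q := fun A : Set μ.out => #A ≤ τ) fun _ k => le_of_lt k).trans
      ((mk_bounded_set_le _ _).trans ?_)
    rwa [mk_out, max_eq_left (h0.le.trans h3)])
  have h4 : ∀ x, {δ | ∀ α, iw α ∈ (c x).1 → α < δ}.Nonempty := fun x =>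
    bdd_Wt hτ ((mk_preimage_of_injective _ _ iw.injective).trans_lt (c x).2)
  have h5 : ∀ E, ∃ γ, Pos z E γ ∨ E ⊆ Iio γ := fun E => by
    by_cases k : IsCofinal E
    · exact (hz.2 E k).imp fun _ => Or.inl
    · exact (not_isCofinal_iff.1 k).imp fun _ l => Or.inr l
  choose gam hg using h5
  refine ⟨⟨z, iw, it, fun x => (c x).1, fun x => wellFounded_lt.min _ (h4 x), gam, hτ, h0, hz.1,
    iw.injective, it.injective, fun x => (c x).2, fun A k => ?_,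
    fun x => wellFounded_lt.min_mem _ (h4 x), fun x α k => ?_, hg⟩, rfl⟩
  · obtain ⟨x, hx⟩ := hc ⟨A, k⟩
    exact ⟨x, congrArg Subtype.val hx⟩
  · by_contra l
    push Not at l
    exact wellFounded_lt.not_lt_min {δ | ∀ α, iw α ∈ (c x).1 → α < δ}
      (fun β m => not_le.1 fun o => l β o m) k

end Poset

open Poset Dat in
theorem poset : PosetStmt := by
  intro τ μ z hτ h0 h1 h2 hz
  obtain ⟨Δ, rfl⟩ := exists_dat hτ h0 h1 h2 hz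
  obtain ⟨B, _, pr, hc⟩ := exists_cpl (Le (Δ := Δ)) Le.rf Le.tr
  have h3 : ℵ₀ ≤ μ := h0.le.trans ((cantor τ).le.trans h1)
  have hj : ∀ y, ∃ j : μ.out → Wt τ, InjOn j (Δ.c y) := fun y => by
    obtain ⟨e⟩ : Nonempty (Δ.c y ↪ Wt τ) := by
      rw [← Cardinal.le_def, mk_Wt]; exact (Δ.c1 y).le
    have : Nonempty (Wt τ) := ⟨Δ.dl y⟩
    exact ⟨Function.extend Subtype.val e fun _ => Δ.dl y, fun x k x' k' l => by
      rw [show x = (⟨x, k⟩ : Δ.c y).1 from rfl, show x' = (⟨x', k'⟩ : Δ.c y).1 from rfl,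
        Subtype.val_injective.extend_apply, Subtype.val_injective.extend_apply] at l
      exact congrArg Subtype.val (e.injective l)⟩
  choose j hj using hj
  refine ⟨Δ.Cd, B, inferInstance, Le, pr, fun α => ⨆ q : {q : Δ.Cd // α ∈ q.s}, pr q.1, hc,
    ⟨⟨∅, ∅, ∅, ∅, finite_empty, finite_empty, finite_empty, finite_empty, by simp, by simp,
      by simp, by simp, by simp⟩⟩, ?_, fun δ => ?_, ?_, proper, fun E hE p => ?_,
    fun ξ n p => ?_⟩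
  · have := count (Δ := Δ) (N := univ) h3 (by simp)
    simpa using this
  · exact rel_le hc (dist_nat _) (fun p (α : Iio δ) (k : ULift ℕ) => (δ, α.1, k.down) ∈ p.f)
      (fun _ _ _ _ k l => k.f l) (fun p α => let ⟨q, k, l⟩ := addf p α.2; ⟨q, ⟨k⟩, l⟩)
      fun p _ _ _ k l => Subtype.ext (p.f2 _ _ _ _ k l)
  · refine ble_trans (rel_le hc (dist_pt _) (fun p (x : μ.out) (a : Wt τ × Wt τ) =>
      ∃ y ∈ p.n, Δ.dl y = a.1 ∧ x ∈ Δ.c y ∧ j y x = a.2)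
      (fun _ _ _ _ k ⟨y, l1, l2⟩ => ⟨y, k.n l1, l2⟩) (fun p x => ?_) ?_)
      (chk_le (S := Wt τ × Wt τ) (by simp [mul_eq_self h0.le]))
    · obtain ⟨y, k1, k2, k3⟩ := cap p x
      obtain ⟨q, l1, l2, -⟩ := add p k1 k2 subsingleton_empty (by simp)
      exact ⟨q, (Δ.dl y, j y x), l1, y, l2, rfl, k3, rfl⟩
    · rintro p x x' a ⟨y, k1, k2, k3, k4⟩ ⟨y', l1, l2, l3, l4⟩
      obtain rfl : y = y' := by_contra fun e => (p.ch y k1 y' l1 e).elim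
        (fun m => ((p.md y' l1).m3 y m).ne (k2.trans l2.symm))
        fun m => ((p.md y k1).m3 y' m).ne (l2.trans k2.symm)
      exact hj y k3 l3 (k4.trans l4.symm)
  · obtain ⟨y, k1, k2, -⟩ := cap p (Δ.it ∅)
    obtain ⟨α, k3, k4⟩ := hE (Δ.dl y)
    obtain ⟨q, l1, -, l2⟩ := add p k1 k2 (subsingleton_singleton (a := α)) (by simpa using k4)
    exact ⟨q, α, l1, k3, iSup_intro ⟨q, l2 rfl⟩ le_rfl⟩
  · obtain ⟨q, k1, k2⟩ := addF p (ξ, n)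
    refine ⟨q, k1, q.s, q.fs, fun α k3 k4 => compl_intro fun c l1 l2 =>
      hc.le_bot fun r hr => ?_⟩
    obtain ⟨r', -, m1, m2⟩ := hc.compat (le_refl (pr r)) (hr.trans l1)
    obtain ⟨t, u, n1, n2, n3⟩ := hc.ex_pr (m2.trans (hr.trans l2))
    exact (n2.tr m1).av α (n3.s n1) k4 _ k2 k3

end Pool.Agent.MP_41bf72_lc.AP
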