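import Pool.Agent.MP_41bf72_lc.AP.Trace
import Pool.Agent.MP_41bf72_lc.AP.Guess
import Pool.Agent.MP_41bf72_lc.AP.Poset
import Pool.Agent.MP_41bf72_lc.AP.Derive
import Pool.Agent.MP_41bf72_lc.AP.Gch
import Pool.Agent.MP_41bf72_lc.AP.Aleph
import Pool.Agent.MP_41bf72_lc.AP.Fam

/-! The extension. -/

set_option autoImplicit false

namespace Pool.Agent.MP_41bf72_lc.AP

open Cardinal Set Order Pool.Agent.MP_76b292_lc Pool.Agent.MP_76b292_lc.BSet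

theorem crit_aleph (g : GCH) (o : Ordinal.{0}) : Crit ℵ₀ (ℵ_ (o + Ordinal.omega0)) := by
  have h1 : IsSuccLimit (o + Ordinal.omega0) :=
    Ordinal.isSuccLimit_add o Ordinal.isSuccLimit_omega0
  refine crit_of g le_rfl (aleph0_lt_aleph.2 h1.bot_lt) ?_
  rw [ord_aleph, Ordinal.cof_omega h1, Ordinal.cof_add o Ordinal.omega0_ne_zero,
    Ordinal.cof_omega0]

theorem lt_aleph_add {o : Ordinal.{0}} {τ : Cardinal.{0}} (h : τ < ℵ_ (o + Ordinal.omega0)) :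
    ∃ k : ℕ, τ ≤ ℵ_ (o + k) := by
  by_contra l
  push Not at l
  have h0 : ℵ₀ ≤ τ := (aleph0_le_aleph _).trans (l 0).le
  obtain ⟨a, rfl⟩ := mem_range_aleph_iff.2 h0
  obtain ⟨k, hk⟩ := (Ordinal.lt_add_iff_of_isSuccLimit Ordinal.isSuccLimit_omega0).1
    (aleph_lt_aleph.1 h)
  obtain ⟨n, rfl⟩ := Ordinal.lt_omega0.1 hk.1
  exact (l n).not_gt (aleph_lt_aleph.2 hk.2)

theorem ext_of_not_AP (g : GCH) (o : Ordinal.{0}) (h : ¬ AP (ℵ_ (o + Ordinal.omega0))) :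
    ∃ (P B : Type) (_ : CompleteBooleanAlgebra B) (le : P → P → Prop) (pr : P → B),
      Cpl le pr ∧ Nonempty P ∧ #P < ℵ_ (o + Ordinal.omega0) ∧ BGch B ∧
      BAl (B := B) (chk (ℵ_ (o + Ordinal.omega0)).out) (chk (Ix (ℵ_ (o + Ordinal.omega0)))) ∧
      ∃ F : BSet B, BFam (chk (Ix (ℵ_ (o + Ordinal.omega0)))) F := by
  have c := crit_aleph g o
  obtain ⟨τ, h1, h2, h3, S, π, z, h4⟩ := trace _ c h
  obtain ⟨k, hk⟩ := lt_aleph_add h3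
  have e : ℵ_ (o + ((k + 1 : ℕ) : Ordinal)) = 2 ^ ℵ_ (o + k) := by
    rw [g _ (aleph0_le_aleph _), Nat.cast_succ, ← add_assoc, succ_aleph]
  have h5 : 2 ^ τ ≤ ℵ_ (o + ((k + 1 : ℕ) : Ordinal)) :=
    e ▸ power_le_power_left two_ne_zero hk
  have h6 : τ ≤ ℵ_ (o + ((k + 1 : ℕ) : Ordinal)) := (cantor τ).le.trans h5
  have h7 : ℵ_ (o + ((k + 1 : ℕ) : Ordinal)) ^ τ ≤ ℵ_ (o + ((k + 1 : ℕ) : Ordinal)) := by
    rw [e, ← power_mul, mul_eq_left (aleph0_le_aleph _) hk h1.pos.ne']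
  have h8 : ℵ_ (o + ((k + 1 : ℕ) : Ordinal)) < ℵ_ (o + Ordinal.omega0) :=
    aleph_lt_aleph.2 (add_lt_add_right (Ordinal.natCast_lt_omega0 _) o)
  obtain ⟨P, B, _, le, pr, L, h9⟩ := poset τ _ z h1 h2 h5 h7 h4.hz
  have f := derive τ _ z P B le pr L h1 h2 h6 h7 h9
  exact ⟨P, B, inferInstance, le, pr, h9.hc, h9.ne, h9.card.trans_lt h8,
    gch τ _ z P B le pr L g h2 h6 f, aleph τ o (k + 1) z P B le pr L h2 h6 f,
    fam AP.guess _ τ _ S π z P B le pr L c h1 h2 h8.le h4 f⟩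

end Pool.Agent.MP_41bf72_lc.AP
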