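import Pool.Agent.MP_41bf72_lc.AP.Spec

/-! From the Boolean values to a model. -/

set_option autoImplicit false

namespace Pool.Agent.MP_41bf72_lc.AP

open Cardinal Set Order Pool.Agent.MP_76b292_lc Pool.Agent.MP_76b292_lc.BSet

namespace Model

open BU

variable {B : Type} [CompleteBooleanAlgebra B] {U : BU B}

lemma bi_inter {b : B} {x y c x' y' c' : BSet B} (h1 : b ≤ beq x x') (h2 : b ≤ beq y y')
    (h3 : b ≤ beq c c') : b ≤ bi (binter x y c) (binter x' y' c') :=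
  bi_iInf fun _ => bi_bi (bi_mem (beq_refl _) h3)
    (bi_inf (bi_mem (beq_refl _) h1) (bi_mem (beq_refl _) h2))

lemma L_inter {x y c : BSet B} : U.L (binter x y c) (IInter U.E (U.cl x) (U.cl y) (U.cl c)) :=
  L_iInf (fun _ _ _ h => bi_bi (bi_mem h (beq_refl _))
    (bi_inf (bi_mem h (beq_refl _)) (bi_mem h (beq_refl _))))
    (fun _ => L_bi L_mem (L_inf L_mem L_mem))

lemma L_lim {w x : BSet B} : U.L (blim w x) (ILim U.E (U.cl w) (U.cl x)) :=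
  L_inf L_lt (L_iInf (fun _ _ _ h => bi_himp (bi_lt h (beq_refl _))
    (bi_iSup fun _ => bi_inf (bi_lt h (beq_refl _)) bi_refl))
    (fun _ => L_himp L_lt (L_iSup
      (fun _ _ _ h => bi_inf (bi_lt (beq_refl _) h) (bi_lt h (beq_refl _)))
      (fun _ => L_inf L_lt L_lt))))

lemma L_pow {p x : BSet B} : U.L (⨅ z, bi (bmem z p) (bsub z x))
    (∀ z, U.E z (U.cl p) ↔ ISub U.E z (U.cl x)) :=
  L_iInf (fun _ _ _ h => bi_bi (bi_mem h (beq_refl _)) (bi_sub h (beq_refl _)))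
    (fun _ => L_bi L_mem L_sub)

lemma L_wit {F n : BSet B} : U.L (⨆ A, ⨆ A', ⨆ c, bmem A F ⊓ (bmem A' F ⊓ ((beq A A')ᶜ ⊓
      (binter A A' c ⊓ ble n c))))
    (∃ A A' c, U.E A (U.cl F) ∧ U.E A' (U.cl F) ∧ ¬ A = A' ∧ IInter U.E A A' c ∧
      ILe U.E (U.cl n) c) :=
  L_iSup (fun _ _ _ h => bi_iSup fun _ => bi_iSup fun _ => bi_inf (bi_mem h (beq_refl _))
      (bi_inf bi_refl (bi_inf (bi_compl (bi_eq h (beq_refl _)))
        (bi_inf (bi_inter h (beq_refl _) (beq_refl _)) bi_refl))))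
    (fun _ => L_iSup (fun _ _ _ h => bi_iSup fun _ => bi_inf bi_refl
        (bi_inf (bi_mem h (beq_refl _)) (bi_inf (bi_compl (bi_eq (beq_refl _) h))
          (bi_inf (bi_inter (beq_refl _) h (beq_refl _)) bi_refl))))
      (fun _ => L_iSup (fun _ _ _ h => bi_inf bi_refl (bi_inf bi_refl (bi_inf bi_refl
          (bi_inf (bi_inter (beq_refl _) (beq_refl _) h) (bi_le (beq_refl _) h)))))
        (fun _ => L_inf L_mem (L_inf L_mem (L_inf (L_compl L_eq) (L_inf L_inter L_le))))))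

lemma L_trans {F T : BSet B} :
    U.L (⨅ A, bmem A F ⇨ (⨆ z, bmem z T ⊓ bmem z A) ⊓ ⨅ c, binter T A c ⇨ ble c om)
      (∀ A, U.E A (U.cl F) → (∃ z, U.E z (U.cl T) ∧ U.E z A) ∧
        ∀ c, IInter U.E (U.cl T) A c → ILe U.E c (U.cl om)) :=
  L_iInf (fun _ _ _ h => bi_himp (bi_mem h (beq_refl _))
      (bi_inf (bi_iSup fun _ => bi_inf bi_refl (bi_mem (beq_refl _) h))
        (bi_iInf fun _ => bi_himp (bi_inter (beq_refl _) h (beq_refl _)) bi_refl)))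
    (fun _ => L_himp L_mem (L_inf
      (L_iSup (fun _ _ _ h => bi_inf (bi_mem h (beq_refl _)) (bi_mem h (beq_refl _)))
        (fun _ => L_inf L_mem L_mem))
      (L_iInf (fun _ _ _ h => bi_himp (bi_inter (beq_refl _) (beq_refl _) h)
          (bi_le h (beq_refl _)))
        (fun _ => L_himp L_inter L_le))))

lemma gch (U : BU B) (h : BGch B) : IGCH U.E := by
  intro w x p y h1 h2 h3 h4
  obtain ⟨w, rfl⟩ := U.cl_surj w
  obtain ⟨x, rfl⟩ := U.cl_surj x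
  obtain ⟨p, rfl⟩ := U.cl_surj p
  obtain ⟨y, rfl⟩ := U.cl_surj y
  refine L_le.1 (U.mono ?_
    (U.inf (U.inf (L_omega.2 h1) (L_le.2 h2)) (U.inf (L_pow.2 h3) (L_lt.2 h4))))
  exact h _ x p y (bi_mp (bi_le (eq_om (inf_l inf_le_left)) (beq_refl _)) (inf_r inf_le_left))
    (inf_l inf_le_right) (inf_r inf_le_right)

lemma yes (U : BU B) {X K F : BSet B} (h : BAl X K) (h' : BFam K F) : IYes U.E := by
  obtain ⟨a1, a2, a3, a4⟩ := h
  obtain ⟨f1, f2, f3, f4, f5, f6⟩ := h'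
  refine ⟨U.cl om, U.cl X, U.cl K, U.cl F, L_omega.1 (U.of_top omega_om),
    ⟨L_lim.1 (U.of_top a1), fun y hy => ?_⟩, ⟨L_lt.1 (U.of_top a3), fun y hy => ?_⟩,
    ⟨L_le.1 (U.of_top f1), L_le.1 (U.of_top f2)⟩, fun A hA => ?_, fun A A' c k1 k2 k3 k4 => ?_,
    fun n hn => ?_, ?_⟩
  · obtain ⟨y, rfl⟩ := U.cl_surj y
    exact L_le.1 (U.mono (a2 _ y le_rfl) (L_lim.2 hy))
  · obtain ⟨y, rfl⟩ := U.cl_surj y
    exact L_le.1 (U.mono (a4 _ y le_rfl) (L_lt.2 hy))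
  · obtain ⟨A, rfl⟩ := U.cl_surj A
    exact ⟨L_le.1 (U.mono (f3 _ A le_rfl).1 (L_mem.2 hA)),
      L_le.1 (U.mono (f3 _ A le_rfl).2 (L_mem.2 hA))⟩
  · obtain ⟨A, rfl⟩ := U.cl_surj A
    obtain ⟨A', rfl⟩ := U.cl_surj A'
    obtain ⟨c, rfl⟩ := U.cl_surj c
    refine L_lt.1 (U.mono ?_ (U.inf (U.inf (L_mem.2 k1) (L_mem.2 k2))
      (U.inf ((L_compl L_eq).2 k3) (L_inter.2 k4))))
    exact f4 _ A A' c (inf_l inf_le_left) (inf_r inf_le_left) (inf_l inf_le_right)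
      (inf_r inf_le_right)
  · obtain ⟨n, rfl⟩ := U.cl_surj n
    exact L_wit.1 (U.mono (f5 _ n le_rfl) (L_lt.2 hn))
  · rintro ⟨T, hT⟩
    obtain ⟨T, rfl⟩ := U.cl_surj T
    exact U.not_bot (U.mono (f6 _ T le_rfl) (L_trans.2 hT))

end Model

theorem model : ModelStmt := by
  intro B _ _ X K F h1 h2 h3
  obtain ⟨U⟩ := exists_bu (B := B)
  exact ⟨U.N, U.E, U.zfc, Model.gch U h1, Model.yes U h2 h3⟩

end Pool.Agent.MP_41bf72_lc.AP
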