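import Pool.Agent.MP_41bf72_lc.AP.Spec2
import Pool.Agent.MP_41bf72_lc.AP.DefsAt
import Pool.Agent.MP_41bf72_lc.AP.Model
import Pool.Agent.MP_41bf72_lc.AP.Main

/-! Both directions in the quotient models. -/

set_option autoImplicit false

namespace Pool.Agent.MP_41bf72_lc.AP

open Cardinal Set Order Pool.Agent.MP_76b292_lc Pool.Agent.MP_76b292_lc.BSet

namespace Conv

open BU Model

variable {B : Type} [CompleteBooleanAlgebra B]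

lemma yesAt (U : BU B) {X K F : BSet B} (h : BAl X K) (h' : BFam K F) : IYesAt U.E (U.cl X) := by
  obtain ⟨a1, a2, a3, a4⟩ := h
  obtain ⟨f1, f2, f3, f4, f5, f6⟩ := h'
  refine ⟨U.cl om, U.cl K, U.cl F, L_omega.1 (U.of_top omega_om),
    ⟨L_lim.1 (U.of_top a1), fun y hy => ?_⟩, ⟨L_lt.1 (U.of_top a3), fun y hy => ?_⟩,
    ⟨L_le.1 (U.of_top f1), L_le.1 (U.of_top f2)⟩, fun A hA => ?_, fun A A' c k1 k2 k3 k4 => ?_,
    fun n hn => ?_, ?_⟩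
  · obtain ⟨y, rfl⟩ := U.cl_surj y
    exact L_le.1 (U.mono (a2 _ y le_rfl) (L_lim.2 hy))
  · obtain ⟨y, rfl⟩ := U.cl_surj y
    exact L_le.1 (U.mono (a4 _ y le_rfl) (L_lt.2 hy))
  · obtain ⟨A, rfl⟩ := U.cl_surj A
    exact ⟨L_le.1 (U.mono (f3 _ A le_rfl).1 (L_mem.2 hA)),
      L_le.1 (U.mono (f3 _ A le_rfl).2 (L_mem.2 hA))⟩
  · obtain ⟨A, rfl⟩ := U.cl_surj A
    obtain ⟨A', rfl⟩ := U.cl_surj A'
    obtain ⟨c, rfl⟩ := U.cl_surj c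
    refine L_lt.1 (U.mono ?_ (U.inf (U.inf (L_mem.2 k1) (L_mem.2 k2))
      (U.inf ((L_compl L_eq).2 k3) (L_inter.2 k4))))
    exact f4 _ A A' c (inf_l inf_le_left) (inf_r inf_le_left) (inf_l inf_le_right)
      (inf_r inf_le_right)
  · obtain ⟨n, rfl⟩ := U.cl_surj n
    exact L_wit.1 (U.mono (f5 _ n le_rfl) (L_lt.2 hn))
  · rintro ⟨T, hT⟩
    obtain ⟨T, rfl⟩ := U.cl_surj T
    exact U.not_bot (U.mono (f6 _ T le_rfl) (L_trans.2 hT))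

lemma mk_le_of_cpl {P : Type} {le : P → P → Prop} {pr : P → B} (hc : Cpl le pr) :
    #B ≤ 2 ^ #P := by
  rw [← mk_set]
  refine mk_le_of_injective (f := fun b => {p | pr p ≤ b}) fun b b' e => le_antisymm
    (hc.le_of fun p hp => ⟨p, hc.refl p, ?_⟩) (hc.le_of fun p hp => ⟨p, hc.refl p, ?_⟩)
  · exact (congrArg (p ∈ ·) e).mp hp
  · exact (congrArg (p ∈ ·) e).mpr hp

lemma cpl_self : Cpl (P := {b : B // ¬ b ≤ ⊥}) (fun p q => p.1 ≤ q.1) Subtype.val :=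
  ⟨fun _ => le_rfl, le_trans, id, fun p => p.2, fun b h => ⟨⟨b, h⟩, le_rfl⟩,
    fun {_ _ r} h1 h2 => ⟨r, h1, h2, le_rfl⟩⟩

lemma pres {P : Type} {le : P → P → Prop} {pr : P → B} (hc : Cpl le pr) (S T : Type)
    (h0 : ℵ₀ ≤ #T) (h1 : #P < #T) (h2 : #S < #T) : (⊤ : B) ≤ (ble (chk T) (chk S))ᶜ := by
  refine compl_intro fun c _ k => hc.le_bot fun p hp => ?_
  obtain ⟨e, k1, k2, -⟩ := idx_of_le (dist_pt _) (dist_pt _) (hp.trans k)
  choose q s m1 m2 using fun t => hc.ex (k1 t _ le_rfl le_top)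
  refine (mul_lt_of_lt h0 h1 h2).not_ge ?_
  have := mk_le_of_injective (f := fun t => (q t, s t)) fun t t' r => by_contra fun m => by
    obtain ⟨r1, r2⟩ := Prod.mk.inj r
    exact hc.pos (q t) (k2 t t' (s t) _ (hc.mono (m1 t)) m (inf_r (m2 t))
      (r1 ▸ r2 ▸ inf_r (m2 t')))
  simpa using this

lemma succ_eq {η : Cardinal.{0}} {b : B} {k : BSet B}
    (hp : (⊤ : B) ≤ (ble (chk (Ix η)) (chk η.out))ᶜ) (h1 : b ≤ blt (chk η.out) k)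
    (h2 : b ≤ ⨅ y, blt y k ⇨ ble y (chk η.out)) :
    b ≤ ble k (chk (Ix η)) ⊓ ble (chk (Ix η)) k :=
  le_inf (le_chk_of _ fun _ l m =>
      compl_elim (mp (l.trans (iInf_elim h2 _)) m) (le_top.trans hp))
    (sup_elim (enum k (Ix η)) (fun _ _ l => l) fun _ l m => iSup_elim m fun s _ n o =>
      compl_elim (ble_trans o (chk_le ((lt_succ_iff.1 (s.2.trans_eq mk_Ix)).trans_eq
        (mk_out _).symm))) ((n.trans l).trans (inf_r h1)))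

variable {U : BU B}

lemma L_below {k x : BSet B} : U.L (⨅ y, blt y k ⇨ ble y x)
    (∀ y, ILt U.E y (U.cl k) → ILe U.E y (U.cl x)) :=
  L_iInf (fun _ _ _ l => bi_himp (bi_lt l (beq_refl _)) (bi_le l (beq_refl _)))
    (fun _ => L_himp L_lt L_le)

lemma L_big {k F : BSet B} : U.L (⨅ A, bmem A F ⇨ ble k A)
    (∀ A, U.E A (U.cl F) → ILe U.E (U.cl k) A) :=
  L_iInf (fun _ _ _ l => bi_himp (bi_mem l (beq_refl _)) (bi_le (beq_refl _) l))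
    (fun _ => L_himp L_mem L_le)

lemma L_ad {F : BSet B} : U.L (⨅ A, ⨅ A', ⨅ D, bmem A F ⇨ bmem A' F ⇨ (beq A A')ᶜ ⇨
      binter A A' D ⇨ blt D om)
    (∀ A A' D, U.E A (U.cl F) → U.E A' (U.cl F) → ¬ A = A' → IInter U.E A A' D →
      ILt U.E D (U.cl om)) :=
  L_iInf (fun _ _ _ l => bi_iInf fun _ => bi_iInf fun _ => bi_himp (bi_mem l (beq_refl _))
      (bi_himp bi_refl (bi_himp (bi_compl (bi_eq l (beq_refl _)))
        (bi_himp (bi_inter l (beq_refl _) (beq_refl _)) bi_refl))))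
    (fun _ => L_iInf (fun _ _ _ l => bi_iInf fun _ => bi_himp bi_refl
        (bi_himp (bi_mem l (beq_refl _)) (bi_himp (bi_compl (bi_eq (beq_refl _) l))
          (bi_himp (bi_inter (beq_refl _) l (beq_refl _)) bi_refl))))
      (fun _ => L_iInf (fun _ _ _ l => bi_himp bi_refl (bi_himp bi_refl (bi_himp bi_refl
          (bi_himp (bi_inter (beq_refl _) (beq_refl _) l) (bi_lt l (beq_refl _))))))
        (fun _ => L_himp L_mem (L_himp L_mem (L_himp (L_compl L_eq) (L_himp L_inter L_lt))))))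

lemma exT (hno : NoStmt) {η : Cardinal.{0}} (c : Crit ℵ₀ η) (hB : #B < η) (hAP : AP η) {b : B}
    {k F : BSet B} (h1 : b ≤ ble F k) (h2 : b ≤ blt (chk η.out) k)
    (h3 : b ≤ ⨅ y, blt y k ⇨ ble y (chk η.out)) (h4 : b ≤ ⨅ A, bmem A F ⇨ ble k A)
    (h5 : b ≤ ⨅ A, ⨅ A', ⨅ D, bmem A F ⇨ bmem A' F ⇨ (beq A A')ᶜ ⇨ binter A A' D ⇨ blt D om) :
    ∃ T, b ≤ ⨅ A, bmem A F ⇨ (⨆ z, bmem z T ⊓ bmem z A) ⊓ ⨅ c, binter T A c ⇨ ble c om := by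
  have hP : #{b : B // ¬ b ≤ ⊥} < η := (mk_subtype_le _).trans_lt hB
  have a2 := succ_eq (pres cpl_self η.out (Ix η) (by rw [mk_Ix]; exact c.inf.trans (le_succ η))
    (by rw [mk_Ix]; exact hP.trans (lt_succ η)) (by rw [mk_Ix, mk_out]; exact lt_succ η)) h2 h3
  exact hno η _ B _ _ b F c hAP cpl_self hP (ble_trans h1 (inf_l a2))
    (fun A _ l m => ble_trans (l.trans (inf_r a2)) (mp (l.trans (iInf_elim h4 A)) m))
    fun A A' D _ l m1 m2 m3 m4 => mp (mp (mp (mp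
      (l.trans (iInf_elim (iInf_elim (iInf_elim h5 A) A') D)) m1) m2) m3) m4

theorem not_AP (hno : NoStmt) {η : Cardinal.{0}} (c : Crit ℵ₀ η) (U : BU B) (hB : #B < η)
    (h : IYesAt U.E (U.cl (chk η.out))) : ¬ AP η := by
  intro hAP
  obtain ⟨w, k, F, h1, -, ⟨h2, h3⟩, h4, h5, h6, -, h7⟩ := h
  obtain ⟨w, rfl⟩ := U.cl_surj w
  obtain ⟨k, rfl⟩ := U.cl_surj k
  obtain ⟨F, rfl⟩ := U.cl_surj F
  have e : U.cl w = U.cl om := L_eq.1 (U.mono (eq_om le_rfl) (L_omega.2 h1))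
  rw [e] at h6 h7
  have a := U.inf (U.inf (L_le.2 h4.1) (L_lt.2 h2))
    (U.inf (L_below.2 h3) (U.inf (L_big.2 fun A l => (h5 A l).2) (L_ad.2 h6)))
  obtain ⟨b, hb, b1, b2, b3, b4, b5⟩ : ∃ b, U.mem b ∧ b ≤ ble F k ∧ b ≤ blt (chk η.out) k ∧
      b ≤ (⨅ y, blt y k ⇨ ble y (chk η.out)) ∧ b ≤ (⨅ A, bmem A F ⇨ ble k A) ∧
      b ≤ ⨅ A, ⨅ A', ⨅ D, bmem A F ⇨ bmem A' F ⇨ (beq A A')ᶜ ⇨ binter A A' D ⇨ blt D om :=
    ⟨_, a, inf_l inf_le_left, inf_r inf_le_left, inf_l inf_le_right,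
      inf_l (inf_r inf_le_right), inf_r (inf_r inf_le_right)⟩
  obtain ⟨T, hT⟩ := exT hno c hB hAP b1 b2 b3 b4 b5
  exact h7 ⟨U.cl T, L_trans.1 (U.mono hT hb)⟩

end Conv

theorem main_of (hno : NoStmt) (g : GCH) (o : Ordinal.{0}) :
    ¬ AP (ℵ_ (o + Ordinal.omega0)) ↔ ∃ (B : Type) (_ : CompleteBooleanAlgebra B) (U : BU B),
      #B < ℵ_ (o + Ordinal.omega0) ∧ ZFC U.E ∧ IGCH U.E ∧
      IYesAt U.E (U.cl (chk (ℵ_ (o + Ordinal.omega0)).out)) := by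
  have c := crit_aleph g o
  refine ⟨fun h => ?_, fun ⟨B, _, U, h1, _, _, h2⟩ => Conv.not_AP hno c U h1 h2⟩
  obtain ⟨P, B, _, le, pr, hc, ⟨p⟩, h1, h2, h3, F, h4⟩ := ext_of_not_AP g o h
  have := hc.nontrivial p
  obtain ⟨U⟩ := exists_bu (B := B)
  exact ⟨B, inferInstance, U, (Conv.mk_le_of_cpl hc).trans_lt (c.sl _ h1), U.zfc,
    Model.gch U h2, Conv.yesAt U h3 h4⟩

end Pool.Agent.MP_41bf72_lc.AP
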