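import Pool.Agent.MP_41bf72_lc.AP.Spec2

/-! The selection of a transversal name. -/

set_option autoImplicit false

namespace Pool.Agent.MP_41bf72_lc.AP

open Cardinal Set Order Pool.Agent.MP_76b292_lc Pool.Agent.MP_76b292_lc.BSet

namespace Core

theorem rec_wf {J U : Type} {r : J → J → Prop} (hwf : WellFounded r) {Q : J → Set U → U → Prop}
    (h : ∀ (i : J) (t : {j | r j i} → U), ∃ x, Q i (range t) x) :
    ∃ t : J → U, ∀ i, Q i (t '' {j | r j i}) (t i) := by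
  let t : J → U := hwf.fix fun i s => (h i fun j => s j.1 j.2).choose
  refine ⟨t, fun i => ?_⟩
  have e : t i = (h i fun j => t j.1).choose := hwf.fix_eq _ i
  rw [image_eq_range, e]
  exact (h i fun j => t j.1).choose_spec

variable {η : Cardinal.{0}} {P B κ : Type} [CompleteBooleanAlgebra B] {le : P → P → Prop}
  {pr : P → B}

/-- The points that may lie in both rows. -/
def EE {K : Type} (a : K → κ → B) (i j : K) : Set κ := {x | ¬ a i x ⊓ a j x ≤ ⊥}

theorem card_EE {K : Type} {a : K → κ → B} (hc : Cpl le pr) (hA : ADm le pr a) {i j : K}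
    (h : i ≠ j) : #(EE a i j) ≤ max #P ℵ₀ := by
  choose q q1 s s1 s2 using hA i j h
  refine (mk_le_mk_of_subset (t := ⋃ p ∈ (univ : Set P), s p) fun x hx => ?_).trans
    (mk_biUnion_le'' (le_max_right _ _) (by simp) fun p _ =>
      (s1 p).lt_aleph0.le.trans (le_max_right _ _))
  obtain ⟨p, hp⟩ := hc.dense _ hx
  refine mem_biUnion (mem_univ p) (by_contra fun k => hc.pos (q p) ?_)
  exact compl_elim ((hc.mono (q1 p)).trans hp) (s2 p x (mem_univ _) k)

theorem exists_rho (hη : ℵ₀ ≤ η) (bl : Ix η → Ix η) (h : ∀ d, #{i | bl i = d} ≤ η) :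
    ∃ ρ : Ix η → η.ord.ToType, ∀ i j, bl i = bl j → ρ i = ρ j → i = j := by
  have hn : Nonempty η.ord.ToType := by
    rw [← mk_ne_zero_iff, mk_ord_toType]; exact (aleph0_pos.trans_le hη).ne'
  have h1 : ∀ d, ∃ f : Ix η → η.ord.ToType, ∀ i j, bl i = d → bl j = d → f i = f j → i = j := by
    intro d
    obtain ⟨e⟩ : Nonempty ({i | bl i = d} ↪ η.ord.ToType) := by
      rw [← Cardinal.le_def, mk_ord_toType]; exact h d
    refine ⟨Function.extend Subtype.val e fun _ => Classical.choice hn, fun i j hi hj k => ?_⟩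
    have e1 := Subtype.val_injective.extend_apply e (fun _ => Classical.choice hn) ⟨i, hi⟩
    have e2 := Subtype.val_injective.extend_apply e (fun _ => Classical.choice hn) ⟨j, hj⟩
    exact congrArg Subtype.val (e.injective (e1.symm.trans (k.trans e2)))
  choose f hf using h1
  exact ⟨fun i => f (bl i) i, fun i j k l => hf (bl i) i j rfl k.symm (l.trans (by rw [k]))⟩

end Core

open Core in
theorem coreS : BadStmt → BlockStmt → CoreStmt := by
  classical
  intro hBad hBl η P B κ _ le pr a al c hAP hc hP hA big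
  have hη := c.inf
  have hm : max #P ℵ₀ < η := max_lt hP c.lt
  let I := {u : Ix η × P // pr u.2 ≤ al u.1}
  have h1 : ∀ u : I, ∃ g : Set κ, g ⊆ {x | ∃ q, le q u.1.2 ∧ pr q ≤ a u.1.1 x} \
      (⋃ j ∈ Iio u.1.1, EE a u.1.1 j) ∧ #g = η := fun u => by
    refine le_mk_iff_exists_subset.1 (not_lt.1 fun k => ?_)
    obtain ⟨q, x, k1, k2, k3⟩ := big _ _ u.2 _ (mk_union_le' hη k.le
      (mk_biUnion_le'' (s := Iio u.1.1) (F := fun j => EE a u.1.1 j) hη (mk_Iio_Ix _)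
        fun j hj => (card_EE hc hA (ne_of_gt hj)).trans hm.le))
    exact k2 (Or.inl ⟨⟨q, k1, k3⟩, fun l => k2 (Or.inr l)⟩)
  choose gu g1 g2 using h1
  let g : Ix η → Set κ := fun i => ⋃ u ∈ {u : I | u.1.1 = i}, gu u
  have hg : ∀ i, #(g i) ≤ η := fun i => mk_biUnion_le'' hη
    ((mk_le_of_injective (f := fun u : {u : I | u.1.1 = i} => u.1.1.2) fun u v e =>
      Subtype.ext (Subtype.ext (Prod.ext (u.2.trans v.2.symm) e))).trans hP.le)
    fun u _ => (g2 u).le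
  obtain ⟨bl, b1, b2, b3⟩ := hBl η P B κ le pr a g c hAP hc hP hA hg
  obtain ⟨ρ, hρ⟩ := exists_rho hη bl b1
  let r : I → I → Prop := fun v u => bl v.1.1 = bl u.1.1 ∧ ρ v.1.1 < ρ u.1.1
  have hwf : WellFounded r := Subrelation.wf (fun k => k.2)
    (InvImage.wf (fun u : I => ρ u.1.1) wellFounded_lt)
  have hr : ∀ u, #{v | r v u} < η := fun u => by
    refine (mk_le_of_injective (f := fun v : {v | r v u} =>
      ((⟨ρ v.1.1.1, v.2.2⟩ : Iio (ρ u.1.1)), v.1.1.2)) fun v w e => ?_).trans_lt ?_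
    · obtain ⟨e1, e2⟩ := Prod.mk.inj e
      exact Subtype.ext (Subtype.ext (Prod.ext
        (hρ _ _ (v.2.1.trans w.2.1.symm) (congrArg Subtype.val e1)) e2))
    · rw [mk_prod, lift_id, lift_id]
      exact mul_lt_of_lt hη (mk_Iio_toType_ord_lt _) hP
  have h2 : ∀ (u : I) (t : {v | r v u} → κ), ∃ x, x ∈ gu u ∧ x ∉ range t ∧
      ∀ j ∈ Bad le pr a (range t), u.1.1 ≠ j → x ∉ EE a u.1.1 j := fun u t => by
    by_contra k
    push Not at k
    have k1 : #(range t) < η := mk_range_le.trans_lt (hr u)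
    have k2 := hBad η P B κ _ le pr a c hc hP hA _ k1
    have k3 : max (max #(range t) #(Bad le pr a (range t))) (max #P ℵ₀) < η :=
      max_lt (max_lt k1 k2) hm
    have k4 : ℵ₀ ≤ max (max #(range t) #(Bad le pr a (range t))) (max #P ℵ₀) :=
      (le_max_right _ _).trans (le_max_right _ _)
    refine k3.not_ge ((g2 u).ge.trans ((mk_le_mk_of_subset (t := range t ∪
      ⋃ j ∈ {j | j ∈ Bad le pr a (range t) ∧ u.1.1 ≠ j}, EE a u.1.1 j) fun x hx => ?_).trans
      (mk_union_le' k4 ((le_max_left _ _).trans (le_max_left _ _)) (mk_biUnion_le'' k4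
        ((mk_le_mk_of_subset fun j hj => hj.1).trans
          ((le_max_right _ _).trans (le_max_left _ _)))
        fun j hj => (card_EE hc hA hj.2).trans (le_max_right _ _)))))
    by_cases l : x ∈ range t
    · exact Or.inl l
    · obtain ⟨j, l1, l2, l3⟩ := k x hx l
      exact Or.inr (mem_biUnion (show j ∈ {j | j ∈ Bad le pr a (range t) ∧ u.1.1 ≠ j} from
        ⟨l1, l2⟩) l3)
  obtain ⟨x, hx⟩ := rec_wf hwf (Q := fun u W x => x ∈ gu u ∧ x ∉ W ∧
    ∀ j ∈ Bad le pr a W, u.1.1 ≠ j → x ∉ EE a u.1.1 j) h2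
  choose q q1 q2 using fun u => (g1 u (hx u).1).1
  let f : Ix η → P → B := fun i p => ⨆ h : pr p ≤ al i, pr (q ⟨(i, p), h⟩)
  let τ : I → B := fun u => lst (f u.1.1) u.1.2
  let t : κ → B := fun y => ⨆ u : {u : I // x u = y}, τ u.1
  have hτ : ∀ u, τ u ≤ a u.1.1 (x u) := fun u =>
    (lst_le _ _).trans (iSup_le fun _ => q2 u)
  have hE : ∀ (u : I) j s, pr s ≤ τ u → pr s ≤ a j (x u) → x u ∈ EE a u.1.1 j :=
    fun u j s k1 k2 k3 => hc.pos s ((le_inf (k1.trans (hτ u)) k2).trans k3)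
  have inj : ∀ u v : I, bl u.1.1 = bl v.1.1 → x u = x v → u.1.1 = v.1.1 := fun u v k1 k2 => by
    rcases lt_trichotomy (ρ u.1.1) (ρ v.1.1) with l | l | l
    · exact ((hx v).2.1 ⟨u, ⟨k1, l⟩, k2⟩).elim
    · exact hρ _ _ k1 l
    · exact ((hx u).2.1 ⟨v, ⟨k1.symm, l⟩, k2.symm⟩).elim
  have uq : ∀ (u v : I) s, u.1.1 = v.1.1 → pr s ≤ τ u → pr s ≤ τ v → u = v := by
    rintro ⟨⟨i, p⟩, h⟩ ⟨⟨i', p'⟩, h'⟩ s (rfl : i = i') k1 k2
    obtain rfl : p = p' := by_contra fun l => hc.pos s (lst_unique k1 k2 l)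
    rfl
  refine ⟨t, fun i => hc.le_of fun p hp => ⟨q ⟨(i, p), hp⟩, q1 _, ?_⟩, fun j => ?_⟩
  · refine (le_iSup (fun h : pr p ≤ al i => pr (q ⟨(i, p), h⟩)) hp).trans
      ((le_iSup_lst (f i) p).trans (iSup_le fun p' => ?_))
    by_cases k : pr p' ≤ al i
    · exact iSup_intro (x ⟨(i, p'), k⟩) (le_inf
        (le_iSup (fun u : {u : I // x u = x ⟨(i, p'), k⟩} => τ u.1) ⟨⟨(i, p'), k⟩, rfl⟩)
        (hτ ⟨(i, p'), k⟩))
    · exact (lst_le _ _).trans (iSup_le fun l => (k l).elim)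
  obtain ⟨lev0, rk0, h0⟩ := b3 j
  set N : Set κ := ⋃ i ∈ {i | bl i < bl j}, g i
  have blk : ∀ (u : I) s, x u ∉ N → pr s ≤ τ u → pr s ≤ a j (x u) → bl u.1.1 = bl j := by
    intro u s k1 k2 k3
    rcases lt_trichotomy (bl u.1.1) (bl j) with l | l | l
    · exact (k1 (mem_biUnion l (mem_biUnion (show u ∈ {v : I | v.1.1 = u.1.1} from rfl)
        (hx u).1))).elim
    · exact l
    · exact ((g1 u (hx u).1).2 (mem_biUnion (mem_Iio.2 (b2 _ _ l)) (hE u j s k2 k3))).elim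
  have frc : ∀ s y, (∀ (s' : P) (v : I), le s' s → x v = y → pr s' ≤ τ v → pr s' ≤ a j y →
      False) → pr s ≤ (t y ⊓ a j y)ᶜ := fun s y k => hc.force fun s1 l1 => by
    obtain ⟨s2, l2, l3 | l3⟩ := hc.dec s1 (t y ⊓ a j y)
    · obtain ⟨s3, v, l4, l5⟩ := hc.ex (inf_l l3)
      exact (k s3 v.1 (hc.trans l4 (hc.trans l2 l1)) v.2 l5
        ((hc.mono l4).trans (inf_r l3))).elim
    · exact ⟨s2, l2, l3⟩
  let o : η.ord.ToType → Ordinal.{0} := fun z => Ordinal.typein (α := η.ord.ToType) (· < ·) z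
  let lev : κ → ℕ := fun y =>
    if y ∈ N then lev0 y + 2 else if ∃ u : I, u.1.1 = j ∧ x u = y then 1 else 0
  let rk : κ → Ordinal.{0} := fun y => if y ∈ N then rk0 y else
    if h : ∃ u : I, bl u.1.1 = bl j ∧ x u = y then o (ρ h.choose.1.1) else 0
  have l1 : ∀ y ∈ N, lev y = lev0 y + 2 := fun y h => if_pos h
  have l2 : ∀ y ∉ N, lev y ≤ 1 := fun y h => by
    simp only [lev, if_neg h]
    split_ifs <;> omega
  have l3 : ∀ y ∉ N, (lev y = 1 ↔ ∃ u : I, u.1.1 = j ∧ x u = y) := fun y h => by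
    simp only [lev, if_neg h]
    split_ifs with k <;> simp [k]
  have r1 : ∀ y ∈ N, rk y = rk0 y := fun y h => if_pos h
  have r2 : ∀ u : I, x u ∉ N → bl u.1.1 = bl j → rk (x u) = o (ρ u.1.1) := fun u h k => by
    have k1 : ∃ v : I, bl v.1.1 = bl j ∧ x v = x u := ⟨u, k, rfl⟩
    simp only [rk, if_neg h, dif_pos k1]
    rw [inj _ u (k1.choose_spec.1.trans k.symm) k1.choose_spec.2]
  refine ⟨lev, rk, fun x0 p hp => ?_⟩
  by_cases hN : x0 ∈ N
  · obtain ⟨s, k1, S, k2, k3⟩ := h0 x0 hN p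
    refine ⟨s, k1, S, k2, fun y hy k4 => (k3 y ?_ k4).trans (compl_le_compl inf_le_right)⟩
    have hy1 : lev y = lev x0 := hy.1
    have hy2 : rk y ≤ rk x0 := hy.2
    have yN : y ∈ N := by_contra fun k => by
      have := l2 y k
      have := l1 x0 hN
      omega
    rw [l1 y yN, l1 x0 hN] at hy1
    rw [r1 y yN, r1 x0 hN] at hy2
    exact ⟨yN, by omega, hy2⟩
  obtain ⟨p1, ⟨u, rfl⟩, k1, k2⟩ := hc.ex (inf_l hp)
  have k3 : pr p1 ≤ a j (x u) := (hc.mono k1).trans (inf_r hp)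
  have k4 := blk u p1 hN k2 k3
  have out : ∀ y, lev y = lev (x u) → y ∉ N := fun y e k => by
    have := l1 y k
    have := l2 _ hN
    omega
  by_cases hu : u.1.1 = j
  · refine ⟨p1, k1, {x u}, finite_singleton _, fun y hy k5 => frc p1 y ?_⟩
    rintro s v m1 rfl m2 m3
    have vN := out _ hy.1
    obtain ⟨w, n1, n2⟩ := (l3 _ vN).1 (hy.1.trans ((l3 _ hN).2 ⟨u, hu, rfl⟩))
    have n3 := inj v w ((blk v s vN m2 m3).trans (by rw [n1])) n2.symm
    exact k5 (congrArg x (uq v u s (n3.trans (n1.trans hu.symm)) m2 ((hc.mono m1).trans k2)))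
  · obtain ⟨p2, k5, S, k6, k7⟩ : DFin le pr (a j) (x '' {v | r v u}) p1 :=
      not_not.1 (fun k => (hx u).2.2 j k hu (hE u j p1 k2 k3)) p1
    refine ⟨p2, hc.trans k5 k1, insert (x u) S, k6.insert _, fun y hy k8 => frc p2 y ?_⟩
    rintro s v m1 rfl m2 m3
    have vN := out _ hy.1
    have n1 := blk v s vN m2 m3
    have n2 : rk (x v) ≤ rk (x u) := hy.2
    rw [r2 v vN n1, r2 u hN k4] at n2
    rcases ((Ordinal.typein_le_typein' _).1 n2).eq_or_lt with n3 | n3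
    · exact k8 (Or.inl (congrArg x (uq v u s (hρ _ _ (n1.trans k4.symm) n3) m2
        ((hc.mono (hc.trans m1 k5)).trans k2))))
    · exact hc.pos s (compl_elim m3 ((hc.mono m1).trans
        (k7 _ ⟨v, ⟨n1.trans k4.symm, n3⟩, rfl⟩ fun k => k8 (Or.inr k))))

end Pool.Agent.MP_41bf72_lc.AP
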