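import Mathlib
import Pool.Agent.MP_76b292_lc.Defs2

/-! The approachability property, and GCH and the positive answer to the transversal question
read inside a structure `(M, E)`, where `E a b` means `a ∈ b`. -/

set_option autoImplicit false

universe v

namespace Pool.Agent.MP_41bf72_lc.AP

open Cardinal Set Pool.Agent.MP_76b292_lc

/-- `d` is approachable with respect to the list `a`: some cofinal subset of `d` of order type
`cf d` has all its proper initial segments listed before `d`. -/
def Appr {K : Type} [LinearOrder K] [WellFoundedLT K] (a : K → Set K) (d : K) : Prop :=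
  ∃ A : Set (Iio d), IsCofinal A ∧ Ordinal.type (α := A) (· < ·) = (Order.cof (Iio d)).ord ∧
    ∀ b < d, ∃ i < d, a i = Subtype.val '' A ∩ Iio b

/-- The approachability property at `η⁺`: for some list, club many points are approachable. -/
def AP (η : Cardinal.{0}) : Prop :=
  ∃ (a : (Order.succ η).ord.ToType → Set (Order.succ η).ord.ToType)
    (C : Set (Order.succ η).ord.ToType), IsClub C ∧ ∀ d ∈ C, Appr a d

section Inner

variable {M : Type v} (E : M → M → Prop)

/-- `|x| = |y|` -/
def IEq (x y : M) : Prop := ILe E x y ∧ ILe E y x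

/-- `c = x ∩ y` -/
def IInter (x y c : M) : Prop := ∀ z, E z c ↔ E z x ∧ E z y

/-- GCH: no size lies strictly between an infinite set and its power set. -/
def IGCH : Prop := ∀ w x p y, IOmega E w → ILe E w x → (∀ z, E z p ↔ ISub E z x) →
  ILt E y p → ILe E y x

/-- `|x|` is an uncountable limit cardinal (`w` is `ω`). -/
def ILim (w x : M) : Prop := ILt E w x ∧ ∀ y, ILt E y x → ∃ y', ILt E y y' ∧ ILt E y' x

/-- `|x| = ℵ_ω`, the least uncountable limit cardinal. -/
def IAlephOmega (w x : M) : Prop := ILim E w x ∧ ∀ y, ILim E w y → ILe E x y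

/-- `|k| = |x|⁺` -/
def ISucc (x k : M) : Prop := ILt E x k ∧ ∀ y, ILt E y k → ILe E y x

/-- There is a family of `ℵ_{ω+1}` sets of size `ℵ_{ω+1}` with finite pairwise intersections of
unbounded size such that no set meets every member in a nonempty countable set. -/
def IYes : Prop := ∃ w x k F, IOmega E w ∧ IAlephOmega E w x ∧ ISucc E x k ∧ IEq E F k ∧
  (∀ A, E A F → IEq E A k) ∧
  (∀ A A' c, E A F → E A' F → ¬ A = A' → IInter E A A' c → ILt E c w) ∧
  (∀ n, ILt E n w → ∃ A A' c, E A F ∧ E A' F ∧ ¬ A = A' ∧ IInter E A A' c ∧ ILe E n c) ∧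
  ¬ ∃ T, ∀ A, E A F → (∃ z, E z T ∧ E z A) ∧ ∀ c, IInter E T A c → ILe E c w

end Inner

end Pool.Agent.MP_41bf72_lc.AP
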