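import Pool.Agent.MP_41bf72_lc.AP.Conv
import Pool.Agent.MP_41bf72_lc.AP.Chain
import Pool.Agent.MP_41bf72_lc.AP.Block
import Pool.Agent.MP_41bf72_lc.AP.Core
import Pool.Agent.MP_41bf72_lc.AP.No

/-! The equivalence. -/

set_option autoImplicit false

namespace Pool.Agent.MP_41bf72_lc.AP

open Cardinal Pool.Agent.MP_76b292_lc Pool.Agent.MP_76b292_lc.BSet

theorem main (g : GCH) (o : Ordinal.{0}) :
    ¬ AP (ℵ_ (o + Ordinal.omega0)) ↔ ∃ (B : Type) (_ : CompleteBooleanAlgebra B) (U : BU B),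
      #B < ℵ_ (o + Ordinal.omega0) ∧ ZFC U.E ∧ IGCH U.E ∧
      IYesAt U.E (U.cl (chk (ℵ_ (o + Ordinal.omega0)).out)) :=
  main_of (noS chainS (coreS bad block)) g o

end Pool.Agent.MP_41bf72_lc.AP
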