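import Pool.Agent.MP_41bf72_lc.AP.Spec3
import Pool.Agent.MP_41bf72_lc.AP.Block

/-! Good conditions in a tree with approachable heights. -/

set_option autoImplicit false

namespace Pool.Agent.MP_41bf72_lc.AP

open Cardinal Set Order Pool.Agent.MP_76b292_lc Pool.Agent.MP_76b292_lc.BSet

namespace Good

variable {η : Cardinal.{0}} {a0 : Ix η → Set (Ix η)} {P B κ : Type} [CompleteBooleanAlgebra B]
  {le : P → P → Prop} {pr : P → B} {ht : P → Ix η} {a : Ix η → κ → B} {al : Ix η → B}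

/-- points forced into the row `i` and out of the earlier rows -/
def Z (pr : P → B) (a : Ix η → κ → B) (i : Ix η) (q : P) : Set κ :=
  {x | pr q ≤ a i x ∧ ∀ j < i, pr q ≤ (a j x)ᶜ}

/-- the row `i` is switched off or has many such points -/
def Dec (pr : P → B) (a : Ix η → κ → B) (al : Ix η → B) (i : Ix η) (q : P) : Prop :=
  pr q ≤ (al i)ᶜ ∨ η ≤ #(Z pr a i q)

theorem Z_mono (hc : Cpl le pr) {i : Ix η} {q r : P} (h : le r q) : Z pr a i q ⊆ Z pr a i r :=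
  fun _ hx => ⟨(hc.mono h).trans hx.1, fun j hj => (hc.mono h).trans (hx.2 j hj)⟩

theorem Dec_mono (hc : Cpl le pr) {i : Ix η} {q r : P} (h : le r q) (k : Dec pr a al i q) :
    Dec pr a al i r :=
  k.imp (hc.mono h).trans fun l => l.trans (mk_le_mk_of_subset (Z_mono hc h))

theorem step (c : Crit ℵ₀ η) (T : TF η a0 le ht) (hc : Cpl le pr) (ad : ADm le pr a)
    (big : ∀ i p, pr p ≤ al i → ∀ S : Set κ, #S ≤ η → ∃ q x, le q p ∧ x ∉ S ∧ pr q ≤ a i x)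
    (i : Ix η) (p : P) (hp : pr p ≤ al i) (S : Set κ) (hS : #S ≤ η) :
    ∃ q, le q p ∧ ∃ x ∈ Z pr a i q, x ∉ S := by
  obtain ⟨q1, k1, k2⟩ := T.dist (Iio i)
    (fun j q => ∃ s : Set κ, s.Finite ∧ ∀ x, x ∉ s → pr q ≤ (a i x ⊓ a j x)ᶜ) (mk_Iio_Ix i)
    (fun _ _ _ l ⟨s, l1, l2⟩ => ⟨s, l1, fun x hx => (hc.mono l).trans (l2 x hx)⟩)
    (fun j p => let ⟨q, l1, s, l2, l3⟩ := ad i j (ne_of_gt j.2) p
      ⟨q, l1, s, l2, fun x => l3 x (mem_univ x)⟩) p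
  choose s s1 s2 using k2
  obtain ⟨q, x, k3, k4, k5⟩ := big i q1 ((hc.mono k1).trans hp) (S ∪ ⋃ j ∈ (univ : Set (Iio i)), s j)
    (mk_union_le' c.inf hS (mk_biUnion_le'' c.inf (by rw [mk_univ]; exact mk_Iio_Ix i)
      fun j _ => (s1 j).lt_aleph0.le.trans c.inf))
  refine ⟨q, hc.trans k3 k1, x, ⟨k5, fun j hj => compl_intro fun d l1 l2 => ?_⟩,
    fun l => k4 (Or.inl l)⟩
  exact compl_elim (le_inf (l1.trans k5) l2) (l1.trans ((hc.mono k3).trans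
    (s2 ⟨j, hj⟩ x fun l => k4 (Or.inr (mem_biUnion (mem_univ _) l)))))

theorem dec_dense (c : Crit ℵ₀ η) (T : TF η a0 le ht) (hc : Cpl le pr) (ad : ADm le pr a)
    (big : ∀ i p, pr p ≤ al i → ∀ S : Set κ, #S ≤ η → ∃ q x, le q p ∧ x ∉ S ∧ pr q ≤ a i x)
    (i : Ix η) (p : P) : ∃ q, le q p ∧ Dec pr a al i q := by
  obtain ⟨s, q, k⟩ := T.strat (fun j s q => (∀ l, #(Z pr a i (s l)) ≤ η) →
      pr q ≤ (al i)ᶜ ∨ ∃ x ∈ Z pr a i q, ∀ l, x ∉ Z pr a i (s l)) (fun j s p => by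
    by_cases h : ∀ l, #(Z pr a i (s l)) ≤ η
    · obtain ⟨q1, k1, k2 | k2⟩ := hc.dec p (al i)
      · obtain ⟨q, k3, x, k4, k5⟩ := step c T hc ad big i q1 k2
          (⋃ l ∈ (univ : Set (Iio j)), Z pr a i (s l))
          (mk_biUnion_le'' c.inf (by rw [mk_univ]; exact (mk_Iio_toType_ord_lt j).le)
            fun l _ => h l)
        exact ⟨q, hc.trans k3 k1, fun _ => Or.inr ⟨x, k4, fun l m =>
          k5 (mem_biUnion (mem_univ l) m)⟩⟩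
      · exact ⟨q1, k1, fun _ => Or.inl k2⟩
    · exact ⟨p, hc.refl p, fun m => (h m).elim⟩) p
  obtain ⟨j0⟩ : Nonempty η.ord.ToType := by
    rw [← mk_ne_zero_iff, mk_ord_toType]; exact (aleph0_pos.trans_le c.inf).ne'
  refine ⟨q, hc.trans (k j0).1 (k j0).2.1, ?_⟩
  by_contra hn
  obtain ⟨n1, n2⟩ := not_or.1 hn
  have h1 : ∀ j, ∃ x ∈ Z pr a i (s j), ∀ l < j, x ∉ Z pr a i (s l) := fun j => by
    rcases (k j).2.2.1 fun l => (mk_le_mk_of_subset (Z_mono hc (k l).1)).trans (not_le.1 n2).le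
      with m | ⟨x, m1, m2⟩
    · exact (n1 ((hc.mono (k j).1).trans m)).elim
    · exact ⟨x, m1, fun l hl => m2 ⟨l, hl⟩⟩
  choose x x1 x2 using h1
  refine n2 ((mk_ord_toType η).ge.trans (mk_le_of_injective
    (f := fun j => (⟨x j, Z_mono hc (k j).1 (x1 j)⟩ : Z pr a i q)) fun j l e => ?_))
  have e' : x j = x l := congrArg Subtype.val e
  rcases lt_trichotomy j l with m | m | m
  · exact (x2 l j m (e' ▸ x1 j)).elim
  · exact m
  · exact (x2 j l m (e' ▸ x1 l)).elim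

theorem pool (c : Crit ℵ₀ η) (T : TF η a0 le ht) (hc : Cpl le pr) :
    ∃ g : Ix η → P → Set κ, (∀ i q, #(g i q) ≤ η) ∧ (∀ i q, g i q ⊆ Z pr a i q) ∧
      (∀ i q, Dec pr a al i q → pr q ≤ (al i)ᶜ ∨ η ≤ #(g i q)) ∧
      ∀ i q r, le r q → Dec pr a al i q → g i r = g i q := by
  have h0 : ∀ i r, ∃ G ⊆ Z pr a i r, #G ≤ η ∧ (η ≤ #(Z pr a i r) → η ≤ #G) := fun i r => by
    by_cases h : η ≤ #(Z pr a i r)
    · obtain ⟨G, k1, k2⟩ := le_mk_iff_exists_subset.1 h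
      exact ⟨G, k1, k2.le, fun _ => k2.ge⟩
    · exact ⟨∅, empty_subset _, by simp, fun k => (h k).elim⟩
  choose G G1 G2 G3 using h0
  let M : Ix η → P → Set P := fun i q =>
    {r | le q r ∧ Dec pr a al i r ∧ ∀ r', le r r' → Dec pr a al i r' → ht r ≤ ht r'}
  have u0 : ∀ i q r r', r ∈ M i q → r' ∈ M i q → ht r ≤ ht r' → r' = r := fun i q r r' h h' k =>
    T.eq (T.tree h'.1 h.1 k) (h'.2.2 r (T.tree h'.1 h.1 k) h.2.1)
  have u : ∀ i q, (M i q).Subsingleton := fun i q r h r' h' =>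
    (le_total (ht r) (ht r')).elim (fun k => (u0 i q r r' h h' k).symm) (u0 i q r' r h' h)
  have e : ∀ i q, Dec pr a al i q → ∃ r, r ∈ M i q := fun i q h => by
    obtain ⟨_, ⟨r, k1, rfl⟩, k2⟩ := wellFounded_lt.has_min
      (ht '' {r | le q r ∧ Dec pr a al i r}) ⟨ht q, q, ⟨T.rf q, h⟩, rfl⟩
    exact ⟨r, k1.1, k1.2, fun r' l1 l2 => not_lt.1 (k2 _ ⟨r', ⟨T.tr k1.1 l1, l2⟩, rfl⟩)⟩
  refine ⟨fun i q => ⋃ r ∈ M i q, G i r, fun i q => mk_biUnion_le'' c.inf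
    ((mk_le_one_iff_set_subsingleton.2 (u i q)).trans (one_le_aleph0.trans c.inf))
    fun r _ => G2 i r, fun i q => iUnion₂_subset fun r hr => (G1 i r).trans (Z_mono hc hr.1),
    fun i q h => ?_, fun i q r k h => ?_⟩
  · obtain ⟨r, hr⟩ := e i q h
    exact hr.2.1.imp (hc.mono hr.1).trans fun k => (G3 i r k).trans
      (mk_le_mk_of_subset (subset_biUnion_of_mem (u := G i) hr))
  · obtain ⟨r0, h0⟩ := e i q h
    have : M i r = M i q := by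
      ext t
      refine ⟨fun l => ?_, fun l => ⟨T.tr k l.1, l.2⟩⟩
      rw [u i r l ⟨T.tr k h0.1, h0.2⟩]
      exact h0
    simp only [this]

theorem uniq (hc : Cpl le pr) (ad : ADm le pr a) {f : ℕ → κ} (hf : Function.Injective f)
    {i j : Ix η} {r : P} (h1 : ∀ m, pr r ≤ a i (f m)) (h2 : ∀ m, pr r ≤ a j (f m)) : i = j := by
  by_contra h
  obtain ⟨q, k1, s, k2, k3⟩ := ad i j h r
  obtain ⟨_, ⟨m, rfl⟩, k4⟩ := (infinite_range_of_injective hf).exists_notMem_finite k2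
  exact hc.pos q (compl_elim ((hc.mono k1).trans (le_inf (h1 m) (h2 m))) (k3 _ (mem_univ _) k4))

/-- small sets meet the late rows in finite sets -/
theorem late (c : Crit ℵ₀ η) (T : TF η a0 le ht) (hc : Cpl le pr) (ad : ADm le pr a)
    {ι : Type} (I : Set ι) (hI : #I ≤ η) (W : ι → Set κ) (hW : ∀ t ∈ I, #(W t) < η) (p : P) :
    ∃ q, le q p ∧ ∃ b, ∀ t ∈ I, ∀ j, b ≤ j → ∀ r, le r q → {x ∈ W t | pr r ≤ a j x}.Finite := by
  have hF : #(⋃ t ∈ I, {f : ℕ → κ | ∀ m, f m ∈ W t}) ≤ η := mk_biUnion_le'' c.inf hI fun t ht' => by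
    refine le_trans ?_ (c.pow (hW t ht')).le
    have h9 : #(ℕ → W t) = #(W t) ^ ℵ₀ := by rw [mk_arrow]; simp
    rw [← h9]
    exact mk_le_of_injective (f := fun f m => (⟨f.1 m, f.2 m⟩ : W t)) fun f f' e =>
      Subtype.ext (funext fun m => congrArg Subtype.val (congrFun e m))
  obtain ⟨q, k1, k2⟩ := T.dist (⋃ t ∈ I, {f : ℕ → κ | ∀ m, f m ∈ W t})
    (fun f q => (∃ j, ∀ m, pr q ≤ a j (f.1 m)) ∨ ¬ ∃ r j, le r q ∧ ∀ m, pr r ≤ a j (f.1 m)) hF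
    (fun f p q l h => h.imp (fun ⟨j, m⟩ => ⟨j, fun n => (hc.mono l).trans (m n)⟩)
      fun m ⟨r, j, m1, m2⟩ => m ⟨r, j, hc.trans m1 l, m2⟩)
    (fun f p => by
      by_cases h : ∃ r j, le r p ∧ ∀ m, pr r ≤ a j (f.1 m)
      · obtain ⟨r, j, m1, m2⟩ := h
        exact ⟨r, m1, Or.inl ⟨j, m2⟩⟩
      · exact ⟨p, hc.refl p, Or.inr h⟩) p
  obtain ⟨b, hb⟩ := bdd c.inf (s := ⋃ f ∈ ⋃ t ∈ I, {f : ℕ → κ | ∀ m, f m ∈ W t},
      {j | Function.Injective f ∧ ∀ m, pr q ≤ a j (f m)})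
    (mk_biUnion_le'' c.inf hF fun f _ => (mk_le_one_iff_set_subsingleton.2 fun i hi j hj =>
      uniq hc ad hi.1 hi.2 hj.2).trans (one_le_aleph0.trans c.inf))
  refine ⟨q, k1, b, fun t ht' j hj r hr => by_contra fun h => ?_⟩
  let e := Set.Infinite.natEmbedding _ h
  have e1 : Function.Injective fun m => (e m).1 := fun m n l => e.injective (Subtype.ext l)
  have e2 : (fun m => (e m).1) ∈ ⋃ t ∈ I, {f : ℕ → κ | ∀ m, f m ∈ W t} :=
    mem_biUnion ht' fun m => (e m).2.1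
  rcases k2 ⟨_, e2⟩ with ⟨j0, m⟩ | m
  · have m1 := hb j0 (mem_biUnion e2 ⟨e1, m⟩)
    exact (m1.trans_le hj).ne
      (uniq hc ad e1 (fun n => (hc.mono hr).trans (m n)) fun n => (e n).2.2)
  · exact m ⟨r, j, hr, fun n => (e n).2.2⟩

end Good

open Good Block in
theorem goodS : GoodStmt := by
  classical
  intro η a0 P B κ _ le pr ht a al c T hc ad big
  obtain ⟨g, g1, g2, g3, g4⟩ := pool (a := a) (al := al) c T hc
  obtain ⟨X, ν, x1, x2, x3⟩ := cover c (fun Y : Set κ => if #Y ≤ η then Y else ∅)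
    fun Y => by split_ifs with h; exacts [h, by simp]
  let U : Ix η → P → Set κ := fun b q => ⋃ b1 ∈ Iic b, g b1 q
  let W : Ix η → ℕ → P → Set κ := fun i n q => ⋃ b ∈ a0 i, X (U b q) n
  have u1 : ∀ b q, #(U b q) ≤ η := fun b q =>
    mk_biUnion_le'' c.inf (mk_Iic_Ix c.inf b) fun i _ => g1 i q
  have w1 : ∀ i n q, #(a0 i) < η → #(W i n q) < η := fun i n q k => by
    simp only [W]
    rw [biUnion_eq_iUnion]
    exact (mk_iUnion_le' le_rfl fun b : a0 i => x2 _ n).trans_lt (mul_lt_of_lt c.inf k (x1 n))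
  have w2 : ∀ β i n q r, le r q → (∀ b ≤ β, Dec pr a al b q) → a0 i ⊆ Iic β →
      W i n r = W i n q := fun β i n q r k h l =>
    iUnion₂_congr fun b hb => congrArg (X · n)
      (iUnion₂_congr fun b1 h1 => g4 b1 q r k (h b1 (le_trans h1 (l hb))))
  let R : Ix η → P → Prop := fun β q => (∃ γ, β < γ ∧ γ < ht q) ∧ (∀ b ≤ β, Dec pr a al b q) ∧
    (∀ b ≤ β, ∀ j ≤ β, ∀ x ∈ g b q, pr q ≤ a j x ∨ pr q ≤ (a j x)ᶜ) ∧
    ∀ i ≤ β, ∀ n, a0 i ⊆ Iic β → #(a0 i) < η → ∀ j, ht q ≤ j → ∀ r, le r q →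
      {x ∈ W i n q | pr r ≤ a j x}.Finite
  have ro : ∀ β p q, le q p → R β p → R β q := by
    rintro β p q k ⟨⟨γ, l1, l2⟩, l3, l4, l5⟩
    refine ⟨⟨γ, l1, l2.trans_le (T.mono k)⟩, fun b hb => Dec_mono hc k (l3 b hb),
      fun b hb j hj x hx => ?_, fun i hi n m1 m2 j hj r hr => ?_⟩
    · rw [g4 b p q k (l3 b hb)] at hx
      exact (l4 b hb j hj x hx).imp (hc.mono k).trans (hc.mono k).trans
    · rw [w2 β i n p q k l3 m1]
      exact l5 i hi n m1 m2 j ((T.mono k).trans hj) r (T.tr hr k)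
  have rd : ∀ β p, ∃ q, le q p ∧ R β q := by
    intro β p
    obtain ⟨q1, k1, l1⟩ := T.dist (Iic β) (fun b q => Dec pr a al b q) (mk_Iic_Ix c.inf β)
      (fun _ _ _ => Dec_mono hc) (fun b => dec_dense c T hc ad big b) p
    have l1' : ∀ b ≤ β, Dec pr a al b q1 := fun b hb => l1 ⟨b, hb⟩
    obtain ⟨q2, k2, l2⟩ := T.dist (Iic β × U β q1)
      (fun t q => pr q ≤ a t.1 t.2 ∨ pr q ≤ (a t.1 t.2)ᶜ)
      (by simpa using mul_le_of_le c.inf (mk_Iic_Ix c.inf β) (u1 β q1))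
      (fun _ _ _ k h => h.imp (hc.mono k).trans (hc.mono k).trans) (fun t p => hc.dec p _) q1
    obtain ⟨q3, k3, b, l3⟩ := late c T hc ad {t : Ix η × ℕ | t.1 ≤ β ∧ #(a0 t.1) < η}
      ((mk_le_mk_of_subset (t := Iic β ×ˢ (univ : Set ℕ)) fun t h => ⟨h.1, mem_univ _⟩).trans
        (by simpa [mk_setProd] using mul_le_of_le c.inf (mk_Iic_Ix c.inf β) c.inf))
      (fun t => W t.1 t.2 q1) (fun t h => w1 _ _ _ h.2) q2
    obtain ⟨γ, hγ⟩ := bdd c.inf (s := {β}) (by simpa using one_le_aleph0.trans c.inf)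
    obtain ⟨q4, k4, l4⟩ := T.ext q3 (max γ b)
    have k5 := T.tr k4 k3
    have k6 := T.tr k5 k2
    refine ⟨q4, T.tr k6 k1, ⟨γ, hγ β rfl, (le_max_left _ _).trans_lt l4⟩,
      fun b hb => Dec_mono hc k6 (l1' b hb), fun b hb j hj x hx => ?_,
      fun i hi n m1 m2 j hj r hr => ?_⟩
    · rw [g4 b q1 q4 k6 (l1' b hb)] at hx
      exact (l2 (⟨j, hj⟩, ⟨x, mem_biUnion hb hx⟩)).imp (hc.mono k5).trans (hc.mono k5).trans
    · rw [w2 β i n q1 q4 k6 l1' m1]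
      exact l3 (i, n) ⟨hi, m2⟩ j (((le_max_right _ _).trans l4.le).trans hj) r (T.tr hr k4)
  refine ⟨g, fun q => ∀ β < ht q, R β q, fun p β => ?_,
    fun q i h hi => g3 i q ((h i hi).2.1 i le_rfl), fun q i _ _ x hx => g2 i q hx,
    fun q i j h hi hj => (h _ (max_lt hi hj)).2.2.1 i (le_max_left _ _) j (le_max_right _ _),
    fun q r i h hi k => g4 i q r k ((h i hi).2.1 i le_rfl), fun q j => ?_⟩
  · obtain ⟨q1, k1, k2⟩ := T.ext p β
    obtain ⟨q, k3, k4⟩ := T.diag R ro rd q1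
    exact ⟨q, T.tr k3 k1, k2.trans_le (T.mono k3), k4⟩
  rcases eq_empty_or_nonempty {r | (∀ β < ht r, R β r) ∧ le q r ∧ ht r ≤ j} with h | h
  · refine countable_empty.mono ?_
    rintro x ⟨⟨r, k1, k2, k3, -⟩, -⟩
    exact (eq_empty_iff_forall_notMem.1 h r ⟨k1, k2, k3⟩).elim
  obtain ⟨r0, k1, k2⟩ := T.lim q _ h fun r hr => hr.2.1
  have k3 : ht r0 ≤ j := k2.2 (by rintro _ ⟨r, hr, rfl⟩; exact hr.2.2)
  have k4 : ∀ r, (∀ β < ht r, R β r) → le q r → ht r ≤ j → le r0 r := fun r l1 l2 l3 =>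
    T.tree k1 l2 (k2.1 ⟨r, ⟨l1, l2, l3⟩, rfl⟩)
  have k5 : ∀ β < ht r0, R β r0 := fun β hβ => by
    obtain ⟨_, ⟨r, l1, rfl⟩, l2⟩ := (lt_isLUB_iff k2).1 hβ
    exact ro β r r0 (k4 r l1.1 l1.2.1 l1.2.2) (l1.1 β l2)
  obtain ⟨A, a1, a2, a3⟩ := T.app r0
  have k6 : ∀ n, (⋃ d ∈ Iio (ht r0),
      {x ∈ ⋃ b ∈ (Subtype.val '' A ∩ Iio d : Set (Ix η)), X (U b r0) n |
        pr q ≤ a j x}).Countable := fun n => by
    rw [← le_aleph0_iff_set_countable]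
    refine chain le_rfl (fun d e l x hx => ⟨biUnion_subset_biUnion_left
      (inter_subset_inter_right _ (Iio_subset_Iio l)) hx.1, hx.2⟩) fun d hd => ?_
    obtain ⟨i, l1, l2⟩ := a3 d hd
    rw [← l2]
    refine ((k5 _ (max_lt l1 hd)).2.2.2 i (le_max_left _ _) n ?_ (l2 ▸ small a1 a2 hd) j k3 q
      k1).lt_aleph0
    rw [l2]
    exact fun z hz => mem_Iic.2 ((mem_Iio.1 hz.2).le.trans (le_max_right _ _))
  refine (countable_iUnion k6).mono ?_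
  rintro x ⟨⟨r, l1, l2, l3, i, l4, l5⟩, l6⟩
  have m1 := k4 r l1 l2 l3
  rw [← g4 i r r0 m1 ((l1 i l4).2.1 i le_rfl)] at l5
  obtain ⟨b, m2, m3⟩ := a1 ⟨i, l4.trans_le (T.mono m1)⟩
  obtain ⟨n, m4⟩ := x3 (U b r0) x (by rw [if_pos (u1 _ _)]; exact mem_biUnion (x := i) m3 l5)
  obtain ⟨d, m5, m6⟩ := (k5 b b.2).1
  exact mem_iUnion.2 ⟨n, mem_biUnion (x := d) m6
    ⟨mem_biUnion (x := b.1) ⟨⟨b, m2, rfl⟩, m5⟩ m4, l6⟩⟩

end Pool.Agent.MP_41bf72_lc.AP
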