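import Pool.Agent.MP_41bf72_lc.AP.Spec3
import Pool.Agent.MP_41bf72_lc.Sel

/-! Selection along the tree of good conditions. -/

set_option autoImplicit false

namespace Pool.Agent.MP_41bf72_lc.AP

open Cardinal Set Order Pool.Agent.MP_76b292_lc Pool.Agent.MP_76b292_lc.BSet

namespace Sel2

variable {η : Cardinal.{0}} {P B κ : Type} [CompleteBooleanAlgebra B] {le : P → P → Prop}
  {pr : P → B} {ht : P → Ix η} {a : Ix η → κ → B} {al : Ix η → B} {g : Ix η → P → Set κ}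
  {good : P → Prop}

theorem no (hc : Cpl le pr) {p : P} {b : B} (h1 : pr p ≤ b) (h2 : pr p ≤ bᶜ) : False :=
  hc.pos p ((le_inf h1 h2).trans (by simp))

/-- the choice at one good condition -/
theorem pick (c : Crit ℵ₀ η) (hc : Cpl le pr) (hA : ADm le pr a)
    (G : Gd η le pr ht a al g good) (q : P) (C : Ix η → Prop) : ∃ W : Set κ, good q →
      (∀ i < ht q, η ≤ #(g i q) → C i → ∃ x ∈ W, x ∈ g i q) ∧
      (∀ x ∈ W, ∃ i < ht q, C i ∧ x ∈ g i q) ∧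
      ∀ j < ht q, η ≤ #(g j q) → {x | x ∈ W ∧ pr q ≤ a j x}.Countable := by
  by_cases hq : good q
  swap
  · exact ⟨∅, fun h => (hq h).elim⟩
  have h1 : AD ℵ₀ fun j : {j // j < ht q ∧ η ≤ #(g j q)} => {x | pr q ≤ a j.1 x} := by
    intro i j hij
    obtain ⟨r, k1, s, k2, k3⟩ := hA i.1 j.1 (fun e => hij (Subtype.ext e)) q
    refine lt_aleph0_iff_set_finite.2 (k2.subset fun x hx => by_contra fun k4 => ?_)
    exact no hc ((hc.mono k1).trans (le_inf hx.1 hx.2)) (k3 x (mem_univ x) k4)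
  have h2 : #{i : {j // j < ht q ∧ η ≤ #(g j q)} | C i.1} ≤ η :=
    (mk_le_of_injective
      (f := fun i : {i : {j // j < ht q ∧ η ≤ #(g j q)} | C i.1} =>
        (⟨i.1.1, i.1.2.1⟩ : Iio (ht q))) fun i j e => by
      apply Subtype.ext
      apply Subtype.ext
      exact congrArg (fun z : Iio (ht q) => z.1) e).trans (mk_Iio_Ix _)
  obtain ⟨t, t1, t2⟩ := sel le_rfl c.lt (fun _ => c.pow) h1 h2 (g := fun i => g i.1 q)
    (fun i x hx => (G.sub q i.1 hq i.2.1 x hx).1) fun i => i.2.2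
  refine ⟨range t, fun _ => ⟨fun i k1 k2 k3 =>
    ⟨_, ⟨⟨⟨i, k1, k2⟩, k3⟩, rfl⟩, t1 ⟨⟨i, k1, k2⟩, k3⟩⟩, ?_, fun j k1 k2 => ?_⟩⟩
  · rintro _ ⟨i, rfl⟩
    exact ⟨i.1.1, i.1.2.1, i.2, t1 i⟩
  · refine Set.Countable.mono ?_ (le_aleph0_iff_set_countable.1 (t2 ⟨j, k1, k2⟩))
    exact fun x hx => ⟨hx.2, hx.1⟩

/-- the lowest good condition above `q` that passes `j` -/
theorem low (hc : Cpl le pr) {q : P} {j : Ix η} (hq : good q) (hj : j < ht q) :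
    ∃ q0, good q0 ∧ le q q0 ∧ j < ht q0 ∧
      ∀ r, good r → le q0 r → ht r < ht q0 → ht r ≤ j := by
  obtain ⟨_, ⟨q0, k, rfl⟩, hm⟩ := (wellFounded_lt (α := Ix η)).has_min
    (ht '' {r | good r ∧ le q r ∧ j < ht r}) ⟨_, q, ⟨hq, hc.refl q, hj⟩, rfl⟩
  exact ⟨q0, k.1, k.2.1, k.2.2, fun r k1 k2 k3 => not_lt.1 fun k4 =>
    hm _ ⟨r, ⟨k1, hc.trans k.2.1 k2, k4⟩, rfl⟩ k3⟩

end Sel2

theorem selS : SelStmt := by
  intro η a0 P B κ _ le pr ht a al g good c T hc hA hal G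
  choose W hW using fun q => Sel2.pick c hc hA G q
    fun i => ∀ r, good r → le q r → ht r < ht q → ht r ≤ i
  refine ⟨fun x => ⨆ q : {q // good q ∧ x ∈ W q}, pr q.1, fun i => hc.le_of fun p hp => ?_,
    fun j p => ?_⟩
  · obtain ⟨q, k1, k2, k3⟩ := G.dense p i
    obtain ⟨q0, l1, l2, l3, l4⟩ := Sel2.low hc k3 k2
    have h1 : η ≤ #(g i q0) := (G.big q0 i l1 l3).resolve_left fun k =>
      Sel2.no hc ((hc.mono k1).trans hp) ((hc.mono l2).trans k)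
    obtain ⟨x, m1, m2⟩ := (hW q0 l1).1 i l3 h1 l4
    refine ⟨q, k1, (hc.mono l2).trans (le_iSup_of_le x (le_inf ?_ (G.sub q0 i l1 l3 x m2).1))⟩
    exact le_iSup (fun q : {q // good q ∧ x ∈ W q} => pr q.1) ⟨q0, l1, m1⟩
  obtain ⟨q, k1, k2, k3⟩ := G.dense p j
  obtain ⟨q0, l1, l2, l3, l4⟩ := Sel2.low hc k3 k2
  have h1 : {x | η ≤ #(g j q0) ∧ x ∈ W q0 ∧ pr q0 ≤ a j x}.Countable := by
    by_cases k : η ≤ #(g j q0)
    · exact ((hW q0 l1).2.2 j l3 k).mono fun x hx => hx.2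
    · exact countable_empty.mono fun x hx => k hx.1
  refine ⟨q, k1, _, (G.ctb q0 j).union h1, fun x hx => by_contra fun k4 => hx ?_⟩
  obtain ⟨r', m1, m2⟩ := hc.ext (p := q)
    (b := (⨆ q : {q // good q ∧ x ∈ W q}, pr q.1) ⊓ a j x) fun k =>
      k4 (le_compl_iff_disjoint_right.2 (disjoint_iff_inf_le.2 k))
  obtain ⟨r, q1, ⟨n1, n2⟩, n3, n4⟩ := hc.ex_pr (m2.trans inf_le_left)
  have n5 : pr r ≤ a j x := (hc.mono n3).trans (m2.trans inf_le_right)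
  have n6 : le r q0 := hc.trans n3 (hc.trans m1 l2)
  obtain ⟨i, o1, o2, o3⟩ := (hW q1 n1).2.1 x n2
  have h2 : i < ht q0 → x ∈ g i q0 → pr q0 ≤ a j x := fun u v =>
    (G.dec q0 i j l1 u l3 x v).resolve_right fun k => Sel2.no hc n5 ((hc.mono n6).trans k)
  rcases lt_trichotomy (ht q0) (ht q1) with h | h | h
  · have h3 : ht q0 ≤ i := o2 q0 l1 (T.tree n4 n6 h.le) h
    exact (Sel2.no hc n5 ((hc.mono n4).trans
      ((G.sub q1 i n1 o1 x o3).2 j (l3.trans_le h3)))).elim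
  · obtain rfl : q0 = q1 := T.eq (T.tree n6 n4 h.ge) h.le
    have h3 := h2 o1 o3
    exact Or.inr ⟨(G.big q0 j l1 l3).resolve_left fun k =>
      Sel2.no hc (h3.trans (hal j x)) k, n2, h3⟩
  · have h3 : le q0 q1 := T.tree n6 n4 h.le
    refine Or.inl ⟨⟨q1, n1, h3, l4 q1 n1 h3 h, i, o1, o3⟩, h2 (o1.trans h) ?_⟩
    rw [G.coh q1 q0 i n1 o1 h3]
    exact o3

end Pool.Agent.MP_41bf72_lc.AP
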