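import Pool.Agent.MP_41bf72_lc.AP.Spec3
import Pool.Agent.MP_41bf72_lc.AP.Block

/-! A countably complete uniform ultrafilter on the successor of a critical cardinal makes
approachability fail. -/

set_option autoImplicit false

namespace Pool.Agent.MP_41bf72_lc.AP

open Cardinal Set Order Pool.Agent.MP_76b292_lc Pool.Agent.MP_76b292_lc.BSet

namespace Ultra

open Filter

variable {η : Cardinal.{0}}

theorem ctbl {K ι : Type} [Countable ι] (U : Ultrafilter K) [CountableInterFilter (U : Filter K)]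
    (p : ι → K → Prop) (h : ∀ᶠ i in U, ∃ n, p n i) : ∃ n, ∀ᶠ i in U, p n i := by
  by_contra k
  have h1 : ∀ᶠ i in U, ∀ n, ¬ p n i := eventually_countable_forall.2 fun n =>
    Ultrafilter.eventually_not.2 fun k' => k ⟨n, k'⟩
  obtain ⟨i, ⟨n, h2⟩, h3⟩ := (h.and h1).exists
  exact h3 n h2

theorem least {K : Type} [LinearOrder K] [WellFoundedLT K] (U : Ultrafilter K)
    [CountableInterFilter (U : Filter K)] (h : ∀ a : K, ∀ᶠ i in (U : Filter K), a < i) :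
    ∃ f : K → K, (∀ a, ∀ᶠ i in U, a < f i) ∧
      ∀ g : K → K, (∀ᶠ i in U, g i < f i) → ∃ a, ∀ᶠ i in U, g i ≤ a := by
  by_contra k
  have h1 : ∀ f : {f : K → K // ∀ a, ∀ᶠ i in U, a < f i},
      ∃ g : {f : K → K // ∀ a, ∀ᶠ i in U, a < f i}, ∀ᶠ i in U, g.1 i < f.1 i := fun f => by
    by_contra k1
    refine k ⟨f.1, f.2, fun g hg => ?_⟩
    by_contra k2
    refine k1 ⟨⟨g, fun a => ?_⟩, hg⟩
    exact (Ultrafilter.eventually_not.2 fun k3 => k2 ⟨a, k3⟩).mono fun i hi => not_le.1 hi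
  choose σ hσ using h1
  obtain ⟨i, hi⟩ := (eventually_countable_forall.2 fun n : ℕ => hσ (σ^[n] ⟨id, h⟩)).exists
  obtain ⟨_, ⟨n, rfl⟩, h2⟩ := wellFounded_lt.has_min (range fun n : ℕ => (σ^[n] ⟨id, h⟩).1 i)
    (range_nonempty _)
  refine h2 _ ⟨n + 1, rfl⟩ ?_
  beta_reduce
  rw [Function.iterate_succ_apply']
  exact hi n

theorem sizes (c : Crit ℵ₀ η) :
    ∃ ν : ℕ → Cardinal.{0}, (∀ n, ν n < η) ∧ ∀ a < η, ∃ n, a ≤ ν n := by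
  obtain ⟨X, ν, h1, h2, h3⟩ := Block.cover c (fun _ : Unit => (univ : Set η.out)) (by simp)
  refine ⟨ν, h1, fun a ha => ?_⟩
  by_contra k
  push Not at k
  have h4 := (mk_le_mk_of_subset (s := univ) (t := ⋃ n, X () n) fun x hx =>
    mem_iUnion.2 (h3 () x hx)).trans
    (mk_iUnion_le' (a := ℵ₀) (b := a) mk_nat.le fun n => (h2 () n).trans (k n).le)
  rw [mk_univ, mk_out] at h4
  exact h4.not_gt (mul_lt_of_lt c.inf c.lt ha)

theorem appr {a0 : Ix η → Set (Ix η)} {d : Ix η} (h : Appr a0 d) : ∃ A : Set (Ix η),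
    (∀ b < d, ∃ x ∈ A, b ≤ x ∧ x < d) ∧
      ∀ b < d, ∃ k < d, a0 k = A ∩ Iio b ∧ #(a0 k) < η := by
  obtain ⟨A, h1, h2, h3⟩ := h
  refine ⟨Subtype.val '' A, fun b hb => ?_, fun b hb => ?_⟩
  · obtain ⟨x, k1, k2⟩ := h1 ⟨b, hb⟩
    exact ⟨x.1, ⟨x, k1, rfl⟩, k2, x.2⟩
  · obtain ⟨k, k1, k2⟩ := h3 b hb
    exact ⟨k, k1, k2, by rw [k2]; exact Block.small h1 h2 hb⟩

theorem above (hη : ℵ₀ ≤ η) (a : Ix η) : ∃ b, a < b :=
  let ⟨d, h, _⟩ := club hη id a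
  ⟨d, h⟩

end Ultra

open Filter Ultra in
theorem ultraS : UltraStmt := by
  rintro η U c hU hs ⟨a0, C, hC, hA⟩
  have hI := ne_Ix η
  obtain ⟨f, f1, f2⟩ := least U fun a => by
    have h1 : Iic a ∉ U := fun k => (lt_succ η).not_ge ((hs _ k).ge.trans (mk_Iic_Ix c.inf a))
    exact (Ultrafilter.eventually_not.2 h1).mono fun i hi => not_le.1 hi
  have f3 : ∀ R : Ix η → Ix η → Prop, (∀ᶠ i in U, ∃ x < f i, R i x) →
      ∃ a, ∀ᶠ i in U, ∃ x ≤ a, R i x := fun R h => by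
    have h1 : ∀ i, (∃ x < f i, R i x) → ∃ x < f i, R i x := fun _ k => k
    choose! g g1 g2 using h1
    obtain ⟨a, ha⟩ := f2 g (h.mono g1)
    exact ⟨a, (h.and ha).mono fun i hi => ⟨g i, hi.2, g2 i hi.1⟩⟩
  have f4 : ∀ᶠ i in U, f i ∈ C := by
    by_contra k
    obtain ⟨c0, k0, -⟩ := hC.isCofinal (Classical.choice hI)
    obtain ⟨a, ha⟩ := f3 (fun i x => x ∈ upperBounds (C ∩ Iio (f i)))
      (((Ultrafilter.eventually_not.2 k).and (f1 c0)).mono fun i hi => by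
        have k1 : f i ∈ upperBounds (C ∩ Iio (f i)) := fun x hx => le_of_lt hx.2
        obtain ⟨x, k2, k3⟩ := wellFounded_lt.has_min _ ⟨f i, k1⟩
        have k4 : x ∈ C := hC.isLUB_mem inter_subset_left ⟨c0, k0, hi.2⟩
          ⟨k2, fun y hy => not_lt.1 (k3 y hy)⟩
        exact ⟨x, (not_lt.1 (k3 _ k1)).lt_of_ne fun e => hi.1 (e ▸ k4), k2⟩)
    obtain ⟨b, hb⟩ := above c.inf a
    obtain ⟨c1, k1, k2⟩ := hC.isCofinal b
    obtain ⟨i, ⟨x, k3, k4⟩, k5⟩ := (ha.and (f1 c1)).exists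
    exact (hb.trans_le k2).not_ge ((k4 ⟨k1, k5⟩).trans k3)
  choose! A a1 a2 using fun d hd => appr (hA d hd)
  have h1 : ∀ α, ∃ β, ∀ᶠ i in U, ∃ x ∈ A (f i), α ≤ x ∧ x < β := fun α => by
    obtain ⟨a, ha⟩ := f3 (fun i x => x ∈ A (f i) ∧ α ≤ x) ((f4.and (f1 α)).mono fun i hi =>
      let ⟨x, k1, k2, k3⟩ := a1 _ hi.1 α hi.2
      ⟨x, k3, k1, k2⟩)
    obtain ⟨b, hb⟩ := above c.inf a
    exact ⟨b, ha.mono fun i ⟨x, k1, k2, k3⟩ => ⟨x, k2, k3, k1.trans_lt hb⟩⟩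
  choose h hh using h1
  have h2 : η ≤ #{d | Cl h d} := by
    by_contra k
    obtain ⟨b, hb⟩ := bdd c.inf (not_le.1 k).le
    obtain ⟨d, k1, k2⟩ := club c.inf h b
    exact (hb d k2).not_gt k1
  obtain ⟨E, e1, e2⟩ := le_mk_iff_exists_subset.1 h2
  obtain ⟨α, hα⟩ := bdd c.inf (s := h '' E) (mk_image_le.trans e2.le)
  obtain ⟨β, hβ⟩ := f3 (fun i k => a0 k = A (f i) ∩ Iio α ∧ #(a0 k) < η)
    ((f4.and (f1 α)).mono fun i hi => a2 _ hi.1 α hi.2)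
  obtain ⟨Y, μ, y1, y2, y3⟩ := Block.cover c (fun _ : Unit => Iic β) fun _ => mk_Iic_Ix c.inf β
  obtain ⟨ν, n1, n2⟩ := sizes c
  obtain ⟨⟨n, m⟩, h3⟩ := ctbl U
    (fun (q : ℕ × ℕ) i => ∃ k, (k ∈ Y () q.1 ∧ #(a0 k) ≤ ν q.2) ∧ a0 k = A (f i) ∩ Iio α)
    (hβ.mono fun i ⟨k, k1, k2, k3⟩ =>
      let ⟨n, hn⟩ := y3 () k k1
      let ⟨m, hm⟩ := n2 _ k3
      ⟨(n, m), k, ⟨hn, hm⟩, k2⟩)
  have h4 : #(⋃ k : {k | k ∈ Y () n ∧ #(a0 k) ≤ ν m}, a0 k) < η :=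
    (mk_iUnion_le' (a := μ n) (b := ν m) ((mk_le_mk_of_subset fun k hk => hk.1).trans (y2 () n))
      fun k => k.2.2).trans_lt (mul_lt_of_lt c.inf (y1 n) (n1 m))
  have h5 : ∀ d : E, ∃ x : (⋃ k : {k | k ∈ Y () n ∧ #(a0 k) ≤ ν m}, a0 k : Set (Ix η)),
      d.1 ≤ x.1 ∧ x.1 < h d := fun d => by
    obtain ⟨i, ⟨k, k1, k2⟩, x, k3, k4, k5⟩ := (h3.and (hh d)).exists
    exact ⟨⟨x, mem_iUnion.2 ⟨⟨k, k1⟩, k2.superset ⟨k3, k5.trans (hα _ ⟨d, d.2, rfl⟩)⟩⟩⟩, k4, k5⟩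
  choose x x1 x2 using h5
  have h6 : StrictMono x := fun d d' k => (x2 d).trans ((e1 d'.2 d k).trans_le (x1 d'))
  exact h4.not_ge (e2.ge.trans (mk_le_of_injective h6.injective))

end Pool.Agent.MP_41bf72_lc.AP
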