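import Pool.Agent.MP_41bf72_lc.AP.No2
import Pool.Agent.MP_41bf72_lc.AP.Club
import Pool.Agent.MP_41bf72_lc.AP.Good
import Pool.Agent.MP_41bf72_lc.AP.Sel2
import Pool.Agent.MP_41bf72_lc.AP.Card
import Pool.Agent.MP_41bf72_lc.AP.Ultra

/-! Both models. -/

set_option autoImplicit false

namespace Pool.Agent.MP_41bf72_lc.AP

open Cardinal Pool.Agent.MP_76b292_lc

theorem indep (g : GCH) :
    (∃ (M : Type 1) (E : M → M → Prop), ZFC E ∧ IGCH E ∧ ¬ IYes E) ∧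
    ∀ (o : Ordinal.{0}) (U : Ultrafilter (Ix (ℵ_ (o + Ordinal.omega0)))),
      CountableInterFilter (U : Filter (Ix (ℵ_ (o + Ordinal.omega0)))) →
      (∀ s ∈ U, #s = Order.succ (ℵ_ (o + Ordinal.omega0))) →
      ∃ (M : Type 1) (E : M → M → Prop), ZFC E ∧ IGCH E ∧ IYes E :=
  ⟨no_model clubS goodS selS cardS g, yes_model ultraS g⟩

end Pool.Agent.MP_41bf72_lc.AP
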