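import Pool.Agent.MP_41bf72_lc.AP.Spec3
import Pool.Agent.MP_41bf72_lc.AP.No
import Pool.Agent.MP_41bf72_lc.AP.Conv

/-! Transversals in the extension by the tree of conditions. -/

set_option autoImplicit false

namespace Pool.Agent.MP_41bf72_lc.AP

open Cardinal Set Order Pool.Agent.MP_76b292_lc Pool.Agent.MP_76b292_lc.BSet

namespace No2

open No

variable {P B : Type} [CompleteBooleanAlgebra B] {le : P → P → Prop} {pr : P → B}

theorem dct_le (hc : Cpl le pr) {κ : Type} (A : κ → BSet B) {φ : κ → B} (h : DCt le pr φ) :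
    (⊤ : B) ≤ ble ⟨κ, A, φ⟩ om :=
  hc.le_of fun p _ => by
    obtain ⟨q, k1, s, k2, k3⟩ := h p
    exact ⟨q, k1, ble_trans (le_chk s k3)
      (le_of_emb (dist_nat _) (by simpa using k2.le_aleph0))⟩

theorem exT {η : Cardinal.{0}} (hc : Cpl le pr)
    (hpres : ∀ S : Type, #S ≤ η → (⊤ : B) ≤ (ble (chk (Ix η)) (chk S))ᶜ)
    (hco : ∀ (κ : Type) (a : Ix η → κ → B) (al : Ix η → B), (∀ i x, a i x ≤ al i) →
      ADm le pr a →
      (∀ i p, pr p ≤ al i → ∀ S : Set κ, #S ≤ η → ∃ q x, le q p ∧ x ∉ S ∧ pr q ≤ a i x) →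
      ∃ t : κ → B, (∀ i, al i ≤ ⨆ x, t x ⊓ a i x) ∧ ∀ j, DCt le pr fun x => t x ⊓ a j x)
    {b : B} {F : BSet B} (hF : b ≤ ble F (chk (Ix η)))
    (hK : ∀ A, ∀ c ≤ b, c ≤ bmem A F → c ≤ ble (chk (Ix η)) A)
    (hAD : ∀ A A' D, ∀ c ≤ b, c ≤ bmem A F → c ≤ bmem A' F → c ≤ (beq A A')ᶜ →
      c ≤ binter A A' D → c ≤ blt D om) :
    ∃ T, b ≤ ⨅ A, bmem A F ⇨ (⨆ z, bmem z T ⊓ bmem z A) ⊓ ⨅ c, binter T A c ⇨ ble c om := by
  obtain ⟨f, hf, hinj⟩ := exists_of_le hF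
  obtain ⟨κ, Ap, γ, hD, hsub⟩ := un F
  choose M hM using fun i : Ix η => max_principle
    (φ := fun A => bmem A F ⊓ bapp f A (pt i)) fun _ _ _ k l =>
      le_inf (mem_congr_left k (inf_l l)) (app_congr (beq_refl _) k (beq_refl _) (inf_r l))
  obtain ⟨t, ht1, ht2⟩ := hco κ
    (fun i x => (b ⊓ (bmem (M i) F ⊓ bapp f (M i) (pt i))) ⊓ (γ x ⊓ bmem (Ap x) (M i)))
    (fun i => b ⊓ (bmem (M i) F ⊓ bapp f (M i) (pt i))) (fun _ _ => inf_le_left)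
    (fun i j hij p => by
      obtain ⟨q, k1, k2 | k2⟩ := hc.dec p ((b ⊓ (bmem (M i) F ⊓ bapp f (M i) (pt i))) ⊓
        (b ⊓ (bmem (M j) F ⊓ bapp f (M j) (pt j))))
      · have k3 : pr q ≤ b := inf_l (inf_l k2)
        have k4 : pr q ≤ (beq (M i) (M j))ᶜ := compl_intro fun c l1 l2 =>
          pt_ne hij (fn_unique ((l1.trans k3).trans hf)
            (app_congr (beq_refl _) l2 (beq_refl _) (l1.trans (inf_r (inf_r (inf_l k2)))))
            (l1.trans (inf_r (inf_r (inf_r k2)))))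
        have k5 := hAD _ _ _ _ k3 (inf_l (inf_r (inf_l k2))) (inf_l (inf_r (inf_r k2))) k4
          (inter_sep _ _ _)
        obtain ⟨r, l1, l2⟩ := finDec hc (A := Ap) (p := q) (φ := fun x =>
          ((b ⊓ (bmem (M i) F ⊓ bapp f (M i) (pt i))) ⊓ (γ x ⊓ bmem (Ap x) (M i))) ⊓
            ((b ⊓ (bmem (M j) F ⊓ bapp f (M j) (pt j))) ⊓ (γ x ⊓ bmem (Ap x) (M j))))
          (hD.mono fun x => inf_l (inf_r (inf_l le_rfl)))
          (compl_intro fun c l1 l2 => compl_elim (ble_trans l2 (le_of_sub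
            (sub_of_idx fun x d _ m => (mem_sep (ext_mem (M j))).2
              ⟨inf_r (inf_r (inf_l m)), inf_r (inf_r (inf_r m))⟩))) (l1.trans (inf_r k5)))
        exact ⟨r, hc.trans l1 k1, l2⟩
      · exact ⟨q, k1, ∅, finite_empty, fun x _ _ => compl_intro fun c l1 l2 =>
          compl_elim (le_inf (inf_l (inf_l l2)) (inf_l (inf_r l2))) (l1.trans k2)⟩)
    (fun i p hp S hS => by
      by_contra h
      have h1 : ∀ x ∉ S, pr p ≤ (γ x ⊓ bmem (Ap x) (M i))ᶜ := fun x hx => hc.force fun q l => by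
        obtain ⟨r, m1, m2 | m2⟩ := hc.dec q (γ x ⊓ bmem (Ap x) (M i))
        · exact (h ⟨r, x, hc.trans m1 l, hx,
            le_inf ((hc.mono (hc.trans m1 l)).trans hp) m2⟩).elim
        · exact ⟨r, m1, m2⟩
      have h2 := hK (M i) _ (inf_l hp) (inf_l (inf_r hp))
      have h3 := ble_trans (ble_congr (beq_refl _) (sub_nf (hsub _ _ (inf_l (inf_r hp)))) h2)
        (le_chk S h1)
      exact hc.pos p (compl_elim h3 (le_top.trans (hpres S hS))))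
  refine ⟨⟨κ, Ap, fun x => γ x ⊓ t x⟩, le_iInf fun A => himp_intro fun c c1 c2 =>
    iSup_elim (fn_total (c1.trans hf) c2) fun y d d1 d2 =>
      mem_elim (inf_l d2) fun i e e1 _ e3 => ?_⟩
  have g0 : e ≤ b := (e1.trans d1).trans c1
  have g1 : e ≤ bapp f A (pt i) := app_congr (beq_refl _) (beq_refl _) e3 (e1.trans (inf_r d2))
  have g2 : e ≤ bmem (M i) F ⊓ bapp f (M i) (pt i) :=
    (iSup_intro A (le_inf ((e1.trans d1).trans c2) g1)).trans (hM i)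
  have g3 : e ≤ beq A (M i) := hinj A (M i) (pt i) e g0 g1 (inf_r g2)
  have g4 := le_inf g0 g2
  refine le_inf (iSup_elim (g4.trans (ht1 i)) fun x g l1 l2 => iSup_intro (Ap x) (le_inf
    (mem_self (x := ⟨κ, Ap, fun x => γ x ⊓ t x⟩) x (le_inf (inf_l (inf_r (inf_r l2))) (inf_l l2)))
    (mem_congr_right (beq_symm (l1.trans g3)) (inf_r (inf_r (inf_r l2))))))
    (le_iInf fun C => himp_intro fun g l1 l2 => ?_)
  refine ble_trans (le_of_sub (sub_intro fun z h m1 m2 => ?_))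
    (le_top.trans (dct_le hc Ap (ht2 i)))
  have m3 := bi_mp (iInf_elim (m1.trans l2) z) m2
  refine mem_elim (inf_l m3) fun x k n1 n2 n3 => ?_
  have n4 : k ≤ e := (n1.trans m1).trans l1
  exact mem_intro (x := ⟨κ, Ap, _⟩) x (le_inf (inf_r n2) (le_inf (n4.trans g4) (le_inf (inf_l n2)
    (mem_congr_left n3 (mem_congr_right (n4.trans g3) (n1.trans (inf_r m3))))))) n3

theorem bal (hp : ∀ S T : Type, ℵ₀ ≤ #T → #S < #T → (⊤ : B) ≤ (ble (chk T) (chk S))ᶜ) :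
    BAl (B := B) (chk (ℵ_ (0 + Ordinal.omega0)).out) (chk (Ix (ℵ_ (0 + Ordinal.omega0)))) := by
  refine Aleph.core (τ := ℵ_ 1) (fun n => ℵ_ ((n + 1 : ℕ) : Ordinal)) (fun n => ?_) (fun n => ?_)
    (fun c hc => ?_) aleph0_lt_aleph_one (by simp) (chk_le (by simp)) (fun T hT => ?_) ?_
    fun S T h1 h2 => hp S T ((aleph0_le_aleph _).trans h1.le) h2
  · rw [succ_aleph, Nat.cast_succ (n + 1)]
  · rw [zero_add]
    exact aleph_lt_aleph.2 (Ordinal.natCast_lt_omega0 _)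
  · obtain ⟨k, hk⟩ := lt_aleph_add hc
    exact ⟨k, hk.trans (aleph_le_aleph.2 (by simp))⟩
  · exact le_of_emb (dist_nat _) (by simpa using lt_succ_iff.1 (hT.trans_eq succ_aleph0.symm))
  · exact compl_intro fun c _ k => compl_elim
      (ble_trans k (le_of_emb (A' := pt) (κ := ℕ) (dist_pt _) (by simp)))
      (le_top.trans (hp ℕ (Wt (ℵ_ 1)) (by simp) (by simp)))

open BU Model Conv in
theorem not_yes {η : Cardinal.{0}} (U : BU B) (hal : BAl (B := B) (chk η.out) (chk (Ix η)))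
    (hT : ∀ (b : B) (F : BSet B), b ≤ ble F (chk (Ix η)) →
      (∀ A, ∀ c ≤ b, c ≤ bmem A F → c ≤ ble (chk (Ix η)) A) →
      (∀ A A' D, ∀ c ≤ b, c ≤ bmem A F → c ≤ bmem A' F → c ≤ (beq A A')ᶜ →
        c ≤ binter A A' D → c ≤ blt D om) →
      ∃ T, b ≤ ⨅ A, bmem A F ⇨ (⨆ z, bmem z T ⊓ bmem z A) ⊓ ⨅ c, binter T A c ⇨ ble c om) :
    ¬ IYes U.E := by
  rintro ⟨w, x, k, F, h1, ⟨g1, g2⟩, ⟨h2, h3⟩, h4, h5, h6, -, h7⟩
  obtain ⟨w, rfl⟩ := U.cl_surj w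
  obtain ⟨x, rfl⟩ := U.cl_surj x
  obtain ⟨k, rfl⟩ := U.cl_surj k
  obtain ⟨F, rfl⟩ := U.cl_surj F
  have e : U.cl w = U.cl om := L_eq.1 (U.mono (eq_om le_rfl) (L_omega.2 h1))
  rw [e] at g1 g2 h6 h7
  have g3 : U.mem (ble x (chk η.out)) := L_le.2 (g2 _ (L_lim.1 (U.of_top hal.1)))
  have g4 : U.mem (ble (chk η.out) x) := U.mono (hal.2.1 _ x le_rfl) (L_lim.2 g1)
  have a := U.inf (U.inf (U.inf g3 g4) (U.inf (L_le.2 h4.1) (L_lt.2 h2)))
    (U.inf (L_below.2 h3) (U.inf (L_big.2 fun A l => (h5 A l).2) (L_ad.2 h6)))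
  obtain ⟨b, hb, c1, c2, b1, b2, b3, b4, b5⟩ : ∃ b, U.mem b ∧ b ≤ ble x (chk η.out) ∧
      b ≤ ble (chk η.out) x ∧ b ≤ ble F k ∧ b ≤ blt x k ∧
      b ≤ (⨅ y, blt y k ⇨ ble y x) ∧ b ≤ (⨅ A, bmem A F ⇨ ble k A) ∧
      b ≤ ⨅ A, ⨅ A', ⨅ D, bmem A F ⇨ bmem A' F ⇨ (beq A A')ᶜ ⇨ binter A A' D ⇨ blt D om :=
    ⟨_, a, inf_l (inf_l inf_le_left), inf_r (inf_l inf_le_left), inf_l (inf_r inf_le_left),
      inf_r (inf_r inf_le_left), inf_l inf_le_right, inf_l (inf_r inf_le_right),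
      inf_r (inf_r inf_le_right)⟩
  have a2 := succ_eq (inf_r hal.2.2.1) (k := k) (b := b)
    (le_inf (ble_trans c2 (inf_l b2)) (compl_intro fun _ l m =>
      compl_elim (ble_trans m (l.trans c2)) (l.trans (inf_r b2))))
    (le_iInf fun y => himp_intro fun _ l m =>
      ble_trans (mp (l.trans (iInf_elim b3 y)) m) (l.trans c1))
  obtain ⟨T, hT⟩ := hT b F (ble_trans b1 (inf_l a2))
    (fun A _ l m => ble_trans (l.trans (inf_r a2)) (mp (l.trans (iInf_elim b4 A)) m))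
    fun A A' D _ l m1 m2 m3 m4 => mp (mp (mp (mp
      (l.trans (iInf_elim (iInf_elim (iInf_elim b5 A) A') D)) m1) m2) m3) m4
  exact h7 ⟨U.cl T, L_trans.1 (U.mono hT hb)⟩

end No2

theorem no_model (h1 : ClubStmt) (h2 : GoodStmt) (h3 : SelStmt) (h4 : CardStmt) (g : GCH) :
    ∃ (M : Type 1) (E : M → M → Prop), ZFC E ∧ IGCH E ∧ ¬ IYes E := by
  have c := crit_aleph g 0
  obtain ⟨a0, P, le, ht, t⟩ := h1 _ c
  obtain ⟨B, _, pr, hc⟩ := exists_cpl le t.rf t.tr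
  obtain ⟨p⟩ := t.ne
  have := hc.nontrivial p
  obtain ⟨U⟩ := exists_bu (B := B)
  obtain ⟨k1, k2⟩ := h4 _ a0 P B le pr ht g c t hc
  refine ⟨U.N, U.E, U.zfc, Model.gch U k1, No2.not_yes U (No2.bal k2) fun b F => No2.exT hc
    (fun S hS => k2 S _ (by rw [mk_Ix]; exact c.inf.trans (le_succ _))
      (by rw [mk_Ix]; exact hS.trans_lt (lt_succ _))) fun κ a al l1 l2 l3 => ?_⟩
  obtain ⟨g', good, m⟩ := h2 _ a0 P B κ le pr ht a al c t hc l2 l3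
  exact h3 _ a0 P B κ le pr ht a al g' good c t hc l2 l1 m

theorem yes_model (h : UltraStmt) (g : GCH) (o : Ordinal.{0})
    (U : Ultrafilter (Ix (ℵ_ (o + Ordinal.omega0))))
    (h1 : CountableInterFilter (U : Filter (Ix (ℵ_ (o + Ordinal.omega0)))))
    (h2 : ∀ s ∈ U, #s = succ (ℵ_ (o + Ordinal.omega0))) :
    ∃ (M : Type 1) (E : M → M → Prop), ZFC E ∧ IGCH E ∧ IYes E := by
  obtain ⟨P, B, _, le, pr, hc, ⟨p⟩, -, k2, k3, F, k4⟩ :=
    ext_of_not_AP g o (h _ U (crit_aleph g o) h1 h2)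
  have := hc.nontrivial p
  exact model B _ _ F k2 k3 k4

end Pool.Agent.MP_41bf72_lc.AP
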