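import Pool.Agent.MP_41bf72_lc.AP.Spec

/-! The poset: finite approximations with small models as side conditions. -/

set_option autoImplicit false

namespace Pool.Agent.MP_41bf72_lc.AP

open Cardinal Set Order Pool.Agent.MP_76b292_lc Pool.Agent.MP_76b292_lc.BSet

namespace Poset

theorem finsub {α : Type} {A : Set α} {κ : Cardinal.{0}} (hκ : ℵ₀ ≤ κ) (hA : #A ≤ κ) :
    #{t : Set α | t ⊆ A ∧ t.Finite} ≤ κ := by
  refine (mk_le_mk_of_subset (t := range fun l : List A => Subtype.val '' {x | x ∈ l}) ?_).trans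
    (mk_range_le.trans ((mk_list_le_max _).trans (max_le hκ hA)))
  rintro t ⟨h1, h2⟩
  refine ⟨(h2.preimage Subtype.val_injective.injOn).toFinset.toList, ?_⟩
  ext x
  simp only [Finset.mem_toList, Finite.mem_toFinset, mem_preimage, mem_image, mem_ofPred_eq]
  exact ⟨fun ⟨y, k, e⟩ => e ▸ k, fun k => ⟨⟨x, h1 k⟩, k, rfl⟩⟩

theorem finsub' {α : Type} {A : Set α} {κ : Cardinal.{0}} (hκ : ℵ₀ ≤ κ) (hA : #A ≤ κ) :
    #{t : Finset α | ∀ x ∈ t, x ∈ A} ≤ κ :=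
  (mk_le_of_injective (f := fun t : {t : Finset α | ∀ x ∈ t, x ∈ A} =>
    (⟨t.1, fun _ k => t.2 _ k, t.1.finite_toSet⟩ : {t : Set α | t ⊆ A ∧ t.Finite}))
    fun _ _ e => Subtype.ext (Finset.coe_injective (congrArg Subtype.val e))).trans (finsub hκ hA)

theorem prod_le {α β : Type} {A : Set α} {C : Set β} {κ : Cardinal.{0}} (hκ : ℵ₀ ≤ κ)
    (hA : #A ≤ κ) (hC : #C ≤ κ) : #(A ×ˢ C : Set (α × β)) ≤ κ := by
  rw [mk_setProd]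
  exact (mul_le_mul' hA hC).trans_eq (mul_eq_self hκ)

theorem close {τ : Cardinal.{0}} (hτ : τ.IsRegular) (h0 : ℵ₀ < τ) {X : Type} (Φ : Set X → Set X)
    (hΦ : ∀ N : Set X, #N < τ → #(Φ N) < τ) {A : Set X} (hA : #A < τ) :
    ∃ N : Set X, A ⊆ N ∧ #N < τ ∧ ∀ l ⊆ N, l.Finite → ∃ M, l ⊆ M ∧ Φ M ⊆ N := by
  let f : ℕ → Set X := fun n => (fun N => N ∪ Φ N)^[n] A
  have h1 : ∀ n, f (n + 1) = f n ∪ Φ (f n) := fun n => Function.iterate_succ_apply' _ _ _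
  have h2 : ∀ n, #(f n) < τ := fun n => by
    induction n with
    | zero => exact hA
    | succ n ih =>
      rw [h1]
      exact (mk_union_le _ _).trans_lt (add_lt_of_lt h0.le ih (hΦ _ ih))
  have h3 : Monotone f := monotone_nat_of_le_succ fun n => by rw [h1]; exact subset_union_left
  refine ⟨⋃ n ∈ (univ : Set ℕ), f n, subset_biUnion_of_mem (u := f) (mem_univ 0),
    small_iUnion hτ (by simpa using h0) fun n _ => h2 n, fun l k1 k2 => ?_⟩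
  have h4 : ∀ x : l, ∃ n, x.1 ∈ f n := fun x => by simpa using k1 x.2
  choose g hg using h4
  have := k2.to_subtype
  obtain ⟨m, hm⟩ := (finite_range g).bddAbove
  refine ⟨f m, fun x hx => h3 (hm ⟨⟨x, hx⟩, rfl⟩) (hg ⟨x, hx⟩), fun x hx => ?_⟩
  exact mem_biUnion (mem_univ (m + 1)) (by rw [h1]; exact Or.inr hx)

variable {τ : Cardinal.{0}} {X : Type}

/-- The part of `E` below `γ` is not in the ideal. -/
def Pos (z : Wt τ → ℕ → Set (Wt τ)) (E : Set (Wt τ)) (γ : Wt τ) : Prop :=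
  ∀ F : Set (Wt τ × ℕ), F.Finite → ∃ α ∈ E, α < γ ∧ ∀ a ∈ F, α ∉ z a.1 a.2

/-- The parameters of the poset. -/
structure Dat (τ : Cardinal.{0}) (X : Type) where
  z : Wt τ → ℕ → Set (Wt τ)
  iw : Wt τ → X
  it : Set (Finset (Wt τ)) → X
  c : X → Set X
  dl : X → Wt τ
  gam : Set (Wt τ) → Wt τ
  reg : τ.IsRegular
  unc : ℵ₀ < τ
  zlt : ∀ ξ n, z ξ n ⊆ Iio ξ
  iwi : Function.Injective iw
  iti : Function.Injective it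
  c1 : ∀ x, #(c x) < τ
  c2 : ∀ A : Set X, #A < τ → ∃ x, c x = A
  dl1 : ∀ x α, iw α ∈ c x → α < dl x
  dl2 : ∀ x α, α < dl x → ∃ β, α ≤ β ∧ iw β ∈ c x
  gam1 : ∀ E, Pos z E (gam E) ∨ E ⊆ Iio (gam E)

namespace Dat

variable (Δ : Dat τ X)

/-- The derivatives of a set of finite sets. -/
def Fat (T : Set (Finset (Wt τ))) : ℕ → Finset (Wt τ) → Prop
  | 0, a => a ∈ T
  | k + 1, a => Pos Δ.z {β | Fat T k (insert β a)} (Δ.gam {β | Fat T k (insert β a)})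

/-- `y` codes a model. -/
structure Md (y : X) : Prop where
  m1 : ∀ α < Δ.dl y, Δ.iw α ∈ Δ.c y
  m2 : ∀ x ∈ Δ.c y, Δ.c x ⊆ Δ.c y
  m3 : ∀ x ∈ Δ.c y, Δ.dl x < Δ.dl y
  m4 : ∀ T, Δ.it T ∈ Δ.c y → ∀ (k : ℕ) (a : Finset (Wt τ)), (∀ α ∈ a, α < Δ.dl y) →
    Δ.gam {β | Δ.Fat T k (insert β a)} < Δ.dl y

/-- Conditions. -/
@[ext] structure Cd where
  s : Set (Wt τ)
  F : Set (Wt τ × ℕ)
  n : Set X
  f : Set (Wt τ × Wt τ × ℕ)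
  fs : s.Finite
  fF : F.Finite
  fn : n.Finite
  ff : f.Finite
  md : ∀ y ∈ n, Δ.Md y
  ch : ∀ y ∈ n, ∀ y' ∈ n, y ≠ y' → y ∈ Δ.c y' ∨ y' ∈ Δ.c y
  sp : ∀ α ∈ s, ∀ β ∈ s, α < β → ∃ y ∈ n, α < Δ.dl y ∧ Δ.dl y ≤ β
  f1 : ∀ a ∈ f, a.2.1 < a.1
  f2 : ∀ δ α α' k, (δ, α, k) ∈ f → (δ, α', k) ∈ f → α = α'

variable {Δ}

/-- The order. -/
structure Le (q p : Δ.Cd) : Prop where
  s : p.s ⊆ q.s
  F : p.F ⊆ q.F
  n : p.n ⊆ q.n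
  f : p.f ⊆ q.f
  av : ∀ α ∈ q.s, α ∉ p.s → ∀ a ∈ p.F, α ∉ Δ.z a.1 a.2

theorem Le.rf (p : Δ.Cd) : Le p p :=
  ⟨Subset.rfl, Subset.rfl, Subset.rfl, Subset.rfl, fun _ h h' => (h' h).elim⟩

theorem Le.tr {p q r : Δ.Cd} (h : Le r q) (h' : Le q p) : Le r p :=
  ⟨h'.s.trans h.s, h'.F.trans h.F, h'.n.trans h.n, h'.f.trans h.f, fun α k1 k2 a k3 => by
    by_cases k : α ∈ q.s
    exacts [h'.av α k k2 a k3, h.av α k1 k a (h'.F k3)]⟩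

/-- The support. -/
def Cd.supp (p : Δ.Cd) : Set X := Δ.iw '' p.s ∪ ((fun a => Δ.iw a.1) '' p.F ∪ (p.n ∪
  ((fun a => Δ.iw a.1) '' p.f ∪ (fun a => Δ.iw a.2.1) '' p.f)))

theorem Cd.supp_fin (p : Δ.Cd) : p.supp.Finite :=
  (p.fs.image _).union ((p.fF.image _).union (p.fn.union ((p.ff.image _).union (p.ff.image _))))

theorem supp_sub {p : Δ.Cd} {N : Set X} : p.supp ⊆ N ↔ (∀ α ∈ p.s, Δ.iw α ∈ N) ∧
    (∀ a ∈ p.F, Δ.iw a.1 ∈ N) ∧ p.n ⊆ N ∧ (∀ a ∈ p.f, Δ.iw a.1 ∈ N) ∧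
      ∀ a ∈ p.f, Δ.iw a.2.1 ∈ N := by
  simp only [Cd.supp, union_subset_iff, image_subset_iff]
  rfl

theorem count {N : Set X} {κ : Cardinal.{0}} (hκ : ℵ₀ ≤ κ) (hN : #N ≤ κ) :
    #{p : Δ.Cd | p.supp ⊆ N} ≤ κ := by
  have h1 : #(Δ.iw ⁻¹' N) ≤ κ := (mk_preimage_of_injective _ _ Δ.iwi).trans hN
  have h2 : #(univ : Set ℕ) ≤ κ := by simpa using hκ
  refine (mk_le_of_injective (f := fun p : {p : Δ.Cd | p.supp ⊆ N} =>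
    (⟨(p.1.s, p.1.F, p.1.n, p.1.f), ⟨(supp_sub.1 p.2).1, p.1.fs⟩,
      ⟨fun a k => ⟨(supp_sub.1 p.2).2.1 a k, trivial⟩, p.1.fF⟩, ⟨(supp_sub.1 p.2).2.2.1, p.1.fn⟩,
      fun a k => ⟨(supp_sub.1 p.2).2.2.2.1 a k, (supp_sub.1 p.2).2.2.2.2 a k, trivial⟩, p.1.ff⟩ :
      ({t | t ⊆ Δ.iw ⁻¹' N ∧ t.Finite} ×ˢ {t | t ⊆ (Δ.iw ⁻¹' N) ×ˢ (univ : Set ℕ) ∧ t.Finite} ×ˢ
        {t | t ⊆ N ∧ t.Finite} ×ˢ
        {t | t ⊆ (Δ.iw ⁻¹' N) ×ˢ (Δ.iw ⁻¹' N) ×ˢ (univ : Set ℕ) ∧ t.Finite} : Set _)))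
    fun p q e => ?_).trans (prod_le hκ (finsub hκ h1) (prod_le hκ (finsub hκ (prod_le hκ h1 h2))
      (prod_le hκ (finsub hκ hN) (finsub hκ (prod_le hκ h1 (prod_le hκ h1 h2))))))
  have e' := congrArg Subtype.val e
  simp only [Prod.mk.injEq] at e'
  exact Subtype.ext (Cd.ext e'.1 e'.2.1 e'.2.2.1 e'.2.2.2)

/-- The finite sets that an extension of `p` in `D` adds. -/
def tree (D : Set Δ.Cd) (p : Δ.Cd) : Set (Finset (Wt τ)) :=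
  {b | ∃ d ∈ D, Le d p ∧ ∀ α ∈ d.s, α ∈ p.s ∨ α ∈ b}

theorem master (D : ℕ → Set Δ.Cd) {A : Set X} (hA : #A < τ) : ∃ y, Δ.Md y ∧ A ⊆ Δ.c y ∧
    ∀ i p, p.supp ⊆ Δ.c y → Δ.it (tree (D i) p) ∈ Δ.c y ∧
      ∀ b ∈ tree (D i) p, (∀ α ∈ b, α < Δ.dl y) →
        ∃ d ∈ D i, Le d p ∧ (∀ α ∈ d.s, α ∈ p.s ∨ α ∈ b) ∧ d.supp ⊆ Δ.c y := by
  have hw : ∀ i p b, ∃ d : Δ.Cd, b ∈ tree (D i) p →
      d ∈ D i ∧ Le d p ∧ ∀ α ∈ d.s, α ∈ p.s ∨ α ∈ b := fun i p b => by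
    by_cases k : b ∈ tree (D i) p
    · obtain ⟨d, k1, k2⟩ := k
      exact ⟨d, fun _ => ⟨k1, k2⟩⟩
    · exact ⟨p, fun k' => (k k').elim⟩
  choose w hw using hw
  have h0 := Δ.unc
  have h1 : ∀ {α : Type} {s : Set α}, s.Finite → #s < τ := fun k => k.lt_aleph0.trans h0
  have hu : ∀ {s t : Set X}, #s < τ → #t < τ → #(s ∪ t : Set X) < τ := fun k k' =>
    (mk_union_le _ _).trans_lt (add_lt_of_lt h0.le k k')
  obtain ⟨N, n1, n2, n3⟩ := close Δ.reg h0 (fun M =>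
    (⋃ x ∈ M, Δ.c x ∪ {Δ.iw (Δ.dl x)}) ∪ ((⋃ α ∈ Δ.iw ⁻¹' M, Δ.iw '' Iic α) ∪
    ((⋃ e ∈ (Δ.it ⁻¹' M) ×ˢ (univ : Set ℕ) ×ˢ {t : Finset (Wt τ) | ∀ x ∈ t, x ∈ Δ.iw ⁻¹' M},
      {Δ.iw (Δ.gam {β | Δ.Fat e.1 e.2.1 (insert β e.2.2)})}) ∪
    ⋃ e ∈ (univ : Set ℕ) ×ˢ {p : Δ.Cd | p.supp ⊆ M} ×ˢ
      {t : Finset (Wt τ) | ∀ x ∈ t, x ∈ Δ.iw ⁻¹' M},
      {Δ.it (tree (D e.1) e.2.1)} ∪ (w e.1 e.2.1 e.2.2).supp))) (fun M hM => by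
      have k0 : ℵ₀ ≤ max #M ℵ₀ := le_max_right _ _
      have k1 : max #M ℵ₀ < τ := max_lt hM h0
      have k2 : #(Δ.iw ⁻¹' M) ≤ max #M ℵ₀ :=
        (mk_preimage_of_injective _ _ Δ.iwi).trans (le_max_left _ _)
      have k3 : #(Δ.it ⁻¹' M) ≤ max #M ℵ₀ :=
        (mk_preimage_of_injective _ _ Δ.iti).trans (le_max_left _ _)
      have k4 : #(univ : Set ℕ) ≤ max #M ℵ₀ := by simp
      refine hu (small_iUnion Δ.reg hM fun x _ => hu (Δ.c1 x) (h1 (finite_singleton _)))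
        (hu (small_iUnion Δ.reg (k2.trans_lt k1) fun α _ =>
          mk_image_le.trans_lt (mk_Iic_lt h0.le α)) (hu (small_iUnion Δ.reg
          ((prod_le k0 k3 (prod_le k0 k4 (finsub' k0 k2))).trans_lt k1) fun _ _ =>
            h1 (finite_singleton _)) (small_iUnion Δ.reg ((prod_le k0 k4
            (prod_le k0 (count k0 (le_max_left _ _)) (finsub' k0 k2))).trans_lt k1) fun _ _ =>
            h1 ((finite_singleton _).union (Cd.supp_fin _)))))) hA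
  obtain ⟨y, rfl⟩ := Δ.c2 N n2
  have a1 : ∀ x ∈ Δ.c y, Δ.c x ∪ {Δ.iw (Δ.dl x)} ⊆ Δ.c y := fun x hx => by
    obtain ⟨M, k1, k2⟩ := n3 {x} (singleton_subset_iff.2 hx) (finite_singleton x)
    exact fun v hv => k2 (Or.inl (mem_biUnion (k1 rfl) hv))
  have a2 : ∀ α < Δ.dl y, Δ.iw α ∈ Δ.c y := fun α hα => by
    obtain ⟨β, k3, k4⟩ := Δ.dl2 y α hα
    obtain ⟨M, k1, k2⟩ := n3 {Δ.iw β} (singleton_subset_iff.2 k4) (finite_singleton _)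
    exact k2 (Or.inr (Or.inl (mem_biUnion (t := fun α => Δ.iw '' Iic α) (x := β) (k1 rfl)
      ⟨α, k3, rfl⟩)))
  have a3 : ∀ a : Finset (Wt τ), (∀ α ∈ a, α < Δ.dl y) → Δ.iw '' a ⊆ Δ.c y := by
    rintro a ha _ ⟨α, k, rfl⟩
    exact a2 α (ha α k)
  have a4 : ∀ i (p : Δ.Cd) (b : Finset (Wt τ)), p.supp ⊆ Δ.c y → (∀ α ∈ b, α < Δ.dl y) →
      {Δ.it (tree (D i) p)} ∪ (w i p b).supp ⊆ Δ.c y := fun i p b hp hb => by
    obtain ⟨M, k1, k2⟩ := n3 (p.supp ∪ Δ.iw '' b) (union_subset hp (a3 b hb))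
      (p.supp_fin.union (b.finite_toSet.image _))
    exact fun v hv => k2 (Or.inr (Or.inr (Or.inr (mem_biUnion (x := (i, p, b))
      ⟨trivial, subset_union_left.trans k1, fun x hx => k1 (Or.inr ⟨x, hx, rfl⟩)⟩ hv))))
  refine ⟨y, ⟨a2, fun x hx => subset_union_left.trans (a1 x hx),
    fun x hx => Δ.dl1 y _ (a1 x hx (Or.inr rfl)), fun T hT k a ha => Δ.dl1 y _ ?_⟩, n1,
    fun i p hp => ⟨a4 i p ∅ hp (by simp) (Or.inl rfl), fun b hb hb' =>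
      ⟨w i p b, (hw i p b hb).1, (hw i p b hb).2.1, (hw i p b hb).2.2,
        subset_union_right.trans (a4 i p b hp hb')⟩⟩⟩
  obtain ⟨M, k1, k2⟩ := n3 ({Δ.it T} ∪ Δ.iw '' a)
    (union_subset (singleton_subset_iff.2 hT) (a3 a ha))
    ((finite_singleton _).union (a.finite_toSet.image _))
  exact k2 (Or.inr (Or.inr (Or.inl (mem_biUnion (x := (T, k, a))
    ⟨k1 (Or.inl rfl), trivial, fun x hx => k1 (Or.inr ⟨x, hx, rfl⟩)⟩ rfl))))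

end Dat

end Poset

end Pool.Agent.MP_41bf72_lc.AP
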