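import Pool.Agent.MP_41bf72_lc.AP.Defs
import Pool.Agent.MP_41bf72_lc.Star
import Pool.Agent.MP_76b292_lc.StarB
import Pool.Agent.MP_76b292_lc.Model

/-! The steps of the proof. -/

set_option autoImplicit false

namespace Pool.Agent.MP_41bf72_lc.AP

open Cardinal Set Order Pool.Agent.MP_76b292_lc Pool.Agent.MP_76b292_lc.BSet

/-- The ordinals below `τ`. -/
abbrev Wt (τ : Cardinal.{0}) : Type := τ.ord.ToType

theorem mk_Wt {τ : Cardinal.{0}} : #(Wt τ) = τ := mk_ord_toType _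

theorem mk_Iio_Wt {τ : Cardinal.{0}} (a : Wt τ) : #(Iio a) < τ := mk_Iio_toType_ord_lt a

theorem small_iUnion {τ : Cardinal.{0}} (hτ : τ.IsRegular) {ι α : Type} {s : Set ι}
    {t : ι → Set α} (hs : #s < τ) (ht : ∀ i ∈ s, #(t i) < τ) : #(⋃ i ∈ s, t i) < τ := by
  rw [biUnion_eq_iUnion]
  exact (card_iUnion_lt_iff_forall_of_isRegular hτ hs).2 fun i => ht i i.2

theorem bdd_Wt {τ : Cardinal.{0}} (hτ : τ.IsRegular) {s : Set (Wt τ)} (hs : #s < τ) :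
    ∃ b, ∀ a ∈ s, a < b := by
  by_contra h
  push Not at h
  have h1 : #(univ : Set (Wt τ)) < τ := (mk_le_mk_of_subset (t := ⋃ i ∈ s, Iic i) fun b _ =>
    let ⟨i, hi, hb⟩ := h b; mem_biUnion hi hb).trans_lt
      (small_iUnion hτ hs fun i _ => mk_Iic_lt hτ.aleph0_le i)
  rw [mk_univ, mk_Wt] at h1
  exact h1.false

/-- No cofinal set has all its initial segments in the ideal generated by the sets `z ξ n`. -/
def Hz {τ : Cardinal.{0}} (z : Wt τ → ℕ → Set (Wt τ)) : Prop :=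
  (∀ ξ n, z ξ n ⊆ Iio ξ) ∧ ∀ E : Set (Wt τ), IsCofinal E → ∃ γ, ∀ F : Set (Wt τ × ℕ), F.Finite →
    ∃ α ∈ E, α < γ ∧ ∀ a ∈ F, α ∉ z a.1 a.2

/-- Ladders on a stationary set with a common trace. -/
structure Tr (η τ : Cardinal.{0}) (S : Set (Ix η)) (π : Ix η → Wt τ → Ix η)
    (z : Wt τ → ℕ → Set (Wt τ)) : Prop where
  stat : ∀ h, ∃ d ∈ S, Cl h d
  inj : ∀ d ∈ S, Function.Injective (π d)
  lt : ∀ d ∈ S, ∀ ξ, π d ξ < d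
  hz : Hz z
  ad : ∀ d ∈ S, ∀ e ∈ S, d < e → ∃ ξ n, ∀ ζ ζ', π e ζ = π d ζ' → ζ ∈ z ξ n

/-- What the poset gives. -/
structure Gen (τ μ : Cardinal.{0}) (z : Wt τ → ℕ → Set (Wt τ)) {P B : Type}
    [CompleteBooleanAlgebra B] (le : P → P → Prop) (pr : P → B) (L : Wt τ → B) : Prop where
  hc : Cpl le pr
  ne : Nonempty P
  card : #P ≤ μ
  col1 : ∀ δ : Wt τ, (⊤ : B) ≤ ble (chk (Iio δ)) om
  col2 : (⊤ : B) ≤ ble (chk μ.out) (chk (Wt τ))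
  prop : ∀ D : ℕ → Set P, (∀ n p, ∃ q ∈ D n, le q p) → ∀ p, ∃ q, le q p ∧ ∃ S : Set P, #S < τ ∧
    ∀ n r, le r q → ∃ d ∈ D n, d ∈ S ∧ ∃ t, le t r ∧ le t d
  unb : ∀ E : Set (Wt τ), IsCofinal E → ∀ p, ∃ q α, le q p ∧ α ∈ E ∧ pr q ≤ L α
  zfin : ∀ ξ n p, ∃ q, le q p ∧ ∃ s : Set (Wt τ), s.Finite ∧ ∀ α ∈ z ξ n, α ∉ s → pr q ≤ (L α)ᶜ

/-- Consequences for sizes in the extension. -/
structure Frc (τ μ : Cardinal.{0}) (z : Wt τ → ℕ → Set (Wt τ)) {P B : Type}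
    [CompleteBooleanAlgebra B] (le : P → P → Prop) (pr : P → B) (L : Wt τ → B) : Prop
    extends Gen τ μ z le pr L where
  sm : ∀ T : Type, #T < τ → (⊤ : B) ≤ ble (chk T) om
  cov : ∀ (ι : Type) (φ : ι → B) (p : P), pr p ≤ ble ⟨ι, pt, φ⟩ om →
    ∃ q, le q p ∧ ∃ S : Set ι, #S < τ ∧ ∀ i ∉ S, pr q ≤ (φ i)ᶜ
  unc : (⊤ : B) ≤ (ble (chk (Wt τ)) om)ᶜ
  ch : ∃ (Z : Type) (ev : Z → ℕ → B), #Z ≤ μ ∧ ∀ χ : ℕ → B, ⊤ ≤ ⨆ w, ⨅ n, bi (χ n) (ev w n)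
  pres : ∀ S T : Type, μ < #T → #S < #T → (⊤ : B) ≤ (ble (chk T) (chk S))ᶜ
  fin : ∀ T : Type, Finite T → (⊤ : B) ≤ (ble om (chk T))ᶜ

section

variable {B : Type} [CompleteBooleanAlgebra B]

/-- `c = x ∩ y` -/
noncomputable def binter (x y c : BSet B) : B := ⨅ z, bi (bmem z c) (bmem z x ⊓ bmem z y)

/-- uncountable limit cardinal -/
noncomputable def blim (w x : BSet B) : B := blt w x ⊓ ⨅ y, blt y x ⇨ ⨆ y', blt y y' ⊓ blt y' x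

/-- GCH holds in the extension. -/
def BGch (B : Type) [CompleteBooleanAlgebra B] : Prop := ∀ (b : B) (x p y : BSet B),
  b ≤ ble om x → b ≤ (⨅ z, bi (bmem z p) (bsub z x)) → b ≤ blt y p → b ≤ ble y x

/-- `X` names a set of size `ℵ_ω` and `K` a set of size `ℵ_{ω+1}`. -/
def BAl (X K : BSet B) : Prop := (⊤ : B) ≤ blim om X ∧ (∀ b y, b ≤ blim om y → b ≤ ble X y) ∧
  (⊤ : B) ≤ blt X K ∧ ∀ b y, b ≤ blt y K → b ≤ ble y X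

/-- `F` names a family as in the question. -/
def BFam (K F : BSet B) : Prop := (⊤ : B) ≤ ble F K ∧ (⊤ : B) ≤ ble K F ∧
  (∀ b A, b ≤ bmem A F → b ≤ ble A K ∧ b ≤ ble K A) ∧
  (∀ b A A' c, b ≤ bmem A F → b ≤ bmem A' F → b ≤ (beq A A')ᶜ → b ≤ binter A A' c →
    b ≤ blt c om) ∧
  (∀ b n, b ≤ blt n om → b ≤ ⨆ A, ⨆ A', ⨆ c, bmem A F ⊓ (bmem A' F ⊓ ((beq A A')ᶜ ⊓
    (binter A A' c ⊓ ble n c)))) ∧
  ∀ b T, b ≤ (⨅ A, bmem A F ⇨ (⨆ z, bmem z T ⊓ bmem z A) ⊓ ⨅ c, binter T A c ⇨ ble c om) →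
    b ≤ ⊥

end

def TraceStmt : Prop := ∀ η : Cardinal.{0}, Crit ℵ₀ η → ¬ AP η →
  ∃ τ : Cardinal.{0}, τ.IsRegular ∧ ℵ₀ < τ ∧ τ < η ∧ ∃ S π z, Tr η τ S π z

def GuessStmt : Prop := ∀ (η τ : Cardinal.{0}) (S : Set (Ix η)) (π : Ix η → Wt τ → Ix η)
  (z : Wt τ → ℕ → Set (Wt τ)), Crit ℵ₀ η → τ.IsRegular → ℵ₀ < τ → Tr η τ S π z →
  ∀ (Y : Type) [Nonempty Y], #Y ≤ succ η → ∃ (C : Ix η → Set (Wt τ)) (G : Ix η → Ix η → Y),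
    ∀ f : Ix η → Y, ∃ d ∈ S, IsCofinal (C d) ∧ ∀ ξ ∈ C d, G d (π d ξ) = f (π d ξ)

def PosetStmt : Prop := ∀ (τ μ : Cardinal.{0}) (z : Wt τ → ℕ → Set (Wt τ)), τ.IsRegular → ℵ₀ < τ →
  2 ^ τ ≤ μ → μ ^ τ ≤ μ → Hz z → ∃ (P B : Type) (_ : CompleteBooleanAlgebra B)
    (le : P → P → Prop) (pr : P → B) (L : Wt τ → B), Gen τ μ z le pr L

def DeriveStmt : Prop := ∀ (τ μ : Cardinal.{0}) (z : Wt τ → ℕ → Set (Wt τ)) (P B : Type)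
  [CompleteBooleanAlgebra B] (le : P → P → Prop) (pr : P → B) (L : Wt τ → B), τ.IsRegular →
  ℵ₀ < τ → τ ≤ μ → μ ^ τ ≤ μ → Gen τ μ z le pr L → Frc τ μ z le pr L

def GchStmt : Prop := ∀ (τ μ : Cardinal.{0}) (z : Wt τ → ℕ → Set (Wt τ)) (P B : Type)
  [CompleteBooleanAlgebra B] (le : P → P → Prop) (pr : P → B) (L : Wt τ → B), GCH → ℵ₀ < τ →
  τ ≤ μ → Frc τ μ z le pr L → BGch B

def AlephStmt : Prop := ∀ (τ : Cardinal.{0}) (o : Ordinal.{0}) (k : ℕ)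
  (z : Wt τ → ℕ → Set (Wt τ)) (P B : Type) [CompleteBooleanAlgebra B] (le : P → P → Prop)
  (pr : P → B) (L : Wt τ → B), ℵ₀ < τ → τ ≤ ℵ_ (o + k) → Frc τ (ℵ_ (o + k)) z le pr L →
  BAl (B := B) (chk (ℵ_ (o + Ordinal.omega0)).out) (chk (Ix (ℵ_ (o + Ordinal.omega0))))

def FamStmt : Prop := GuessStmt → ∀ (η τ μ : Cardinal.{0}) (S : Set (Ix η))
  (π : Ix η → Wt τ → Ix η) (z : Wt τ → ℕ → Set (Wt τ)) (P B : Type) [CompleteBooleanAlgebra B]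
  (le : P → P → Prop) (pr : P → B) (L : Wt τ → B), Crit ℵ₀ η → τ.IsRegular → ℵ₀ < τ → μ ≤ η →
  Tr η τ S π z → Frc τ μ z le pr L → ∃ F : BSet B, BFam (chk (Ix η)) F

def ModelStmt : Prop := ∀ (B : Type) [CompleteBooleanAlgebra B] [Nontrivial B] (X K F : BSet B),
  BGch B → BAl X K → BFam K F →
  ∃ (M : Type 1) (E : M → M → Prop), ZFC E ∧ IGCH E ∧ IYes E

end Pool.Agent.MP_41bf72_lc.AP
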