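import Pool.Agent.MP_41bf72_lc.AP.Spec

/-! The steps of the converse: approachability gives transversals in small extensions. -/

set_option autoImplicit false

namespace Pool.Agent.MP_41bf72_lc.AP

open Cardinal Set Order Pool.Agent.MP_76b292_lc Pool.Agent.MP_76b292_lc.BSet

section

variable {P B κ : Type} [CompleteBooleanAlgebra B] (le : P → P → Prop) (pr : P → B)

/-- Some extension of `p` forces the part of `φ` inside `W` into a finite ground set. -/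
def DFin (φ : κ → B) (W : Set κ) (p : P) : Prop :=
  ∃ q, le q p ∧ ∃ s : Set κ, s.Finite ∧ ∀ x ∈ W, x ∉ s → pr q ≤ (φ x)ᶜ

/-- Distinct rows are forced to have a finite intersection. -/
def ADm {K : Type} (a : K → κ → B) : Prop :=
  ∀ i j, i ≠ j → ∀ p, DFin le pr (fun x => a i x ⊓ a j x) univ p

/-- The rows that may meet `W` in an infinite set. -/
def Bad {K : Type} (a : K → κ → B) (W : Set κ) : Set K := {j | ¬ ∀ p, DFin le pr (a j) W p}

/-- `φ` is cut into countably many chains of finite sets. -/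
def Lev (φ : κ → B) : Prop := ∃ (lev : κ → ℕ) (rk : κ → Ordinal.{0}), ∀ x p, pr p ≤ φ x →
  DFin le pr φ {y | lev y = lev x ∧ rk y ≤ rk x} p

end

def ChainStmt : Prop := ∀ (P B κ : Type) [CompleteBooleanAlgebra B] (le : P → P → Prop)
  (pr : P → B) (A : κ → BSet B) (φ : κ → B), Cpl le pr → Lev le pr φ →
  (⊤ : B) ≤ ble ⟨κ, A, φ⟩ om

def BadStmt : Prop := ∀ (η : Cardinal.{0}) (P B κ K : Type) [CompleteBooleanAlgebra B]
  (le : P → P → Prop) (pr : P → B) (a : K → κ → B), Crit ℵ₀ η → Cpl le pr → #P < η →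
  ADm le pr a → ∀ W : Set κ, #W < η → #(Bad le pr a W) < η

def BlockStmt : Prop := ∀ (η : Cardinal.{0}) (P B κ : Type) [CompleteBooleanAlgebra B]
  (le : P → P → Prop) (pr : P → B) (a : Ix η → κ → B) (g : Ix η → Set κ), Crit ℵ₀ η → AP η →
  Cpl le pr → #P < η → ADm le pr a → (∀ i, #(g i) ≤ η) →
  ∃ bl : Ix η → Ix η, (∀ d, #{i | bl i = d} ≤ η) ∧ (∀ i j, bl i < bl j → i < j) ∧
    ∀ j, ∃ (lev : κ → ℕ) (rk : κ → Ordinal.{0}), ∀ x ∈ ⋃ i ∈ {i | bl i < bl j}, g i, ∀ p,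
      DFin le pr (a j) {y | y ∈ ⋃ i ∈ {i | bl i < bl j}, g i ∧ lev y = lev x ∧ rk y ≤ rk x} p

def CoreStmt : Prop := ∀ (η : Cardinal.{0}) (P B κ : Type) [CompleteBooleanAlgebra B]
  (le : P → P → Prop) (pr : P → B) (a : Ix η → κ → B) (al : Ix η → B), Crit ℵ₀ η → AP η →
  Cpl le pr → #P < η → ADm le pr a →
  (∀ i p, pr p ≤ al i → ∀ S : Set κ, #S ≤ η → ∃ q x, le q p ∧ x ∉ S ∧ pr q ≤ a i x) →
  ∃ t : κ → B, (∀ i, al i ≤ ⨆ x, t x ⊓ a i x) ∧ ∀ j, Lev le pr fun x => t x ⊓ a j x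

def NoStmt : Prop := ∀ (η : Cardinal.{0}) (P B : Type) [CompleteBooleanAlgebra B]
  (le : P → P → Prop) (pr : P → B) (b : B) (F : BSet B), Crit ℵ₀ η → AP η → Cpl le pr → #P < η →
  b ≤ ble F (chk (Ix η)) → (∀ A, ∀ c ≤ b, c ≤ bmem A F → c ≤ ble (chk (Ix η)) A) →
  (∀ A A' D, ∀ c ≤ b, c ≤ bmem A F → c ≤ bmem A' F → c ≤ (beq A A')ᶜ → c ≤ binter A A' D →
    c ≤ blt D om) →
  ∃ T, b ≤ ⨅ A, bmem A F ⇨ (⨆ z, bmem z T ⊓ bmem z A) ⊓ ⨅ c, binter T A c ⇨ ble c om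

end Pool.Agent.MP_41bf72_lc.AP
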