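import Pool.Agent.MP_41bf72_lc.AP.Spec2

/-! The steps for a model with the negative answer, and the failure of approachability from an
ultrafilter. -/

set_option autoImplicit false

namespace Pool.Agent.MP_41bf72_lc.AP

open Cardinal Set Order Pool.Agent.MP_76b292_lc Pool.Agent.MP_76b292_lc.BSet

/-- A tree of conditions with approachable heights (`le q p`: `q` is stronger than `p`). -/
structure TF (η : Cardinal.{0}) (a0 : Ix η → Set (Ix η)) {P : Type} (le : P → P → Prop)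
    (ht : P → Ix η) : Prop where
  rf : ∀ p, le p p
  tr : ∀ {p q r}, le p q → le q r → le p r
  ne : Nonempty P
  card : #P ≤ succ η
  mono : ∀ {p q}, le p q → ht q ≤ ht p
  tree : ∀ {p q r}, le p q → le p r → ht r ≤ ht q → le q r
  eq : ∀ {p q}, le p q → ht p ≤ ht q → p = q
  lim : ∀ (p : P) (s : Set P), s.Nonempty → (∀ q ∈ s, le p q) →
    ∃ r, le p r ∧ IsLUB (ht '' s) (ht r)
  app : ∀ p, Appr a0 (ht p)
  ext : ∀ p β, ∃ q, le q p ∧ β < ht q
  strat : ∀ R : (j : η.ord.ToType) → (Iio j → P) → P → Prop, (∀ j s p, ∃ q, le q p ∧ R j s q) →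
    ∀ p, ∃ (s : η.ord.ToType → P) (q : P), ∀ j, le q (s j) ∧ le (s j) p ∧
      R j (fun l => s l.1) (s j) ∧ ∀ l < j, le (s j) (s l)
  dist : ∀ (ι : Type) (D : ι → P → Prop), #ι ≤ η → (∀ i p q, le q p → D i p → D i q) →
    (∀ i p, ∃ q, le q p ∧ D i q) → ∀ p, ∃ q, le q p ∧ ∀ i, D i q
  diag : ∀ R : Ix η → P → Prop, (∀ β p q, le q p → R β p → R β q) →
    (∀ β p, ∃ q, le q p ∧ R β q) → ∀ p, ∃ q, le q p ∧ ∀ β < ht q, R β q

/-- Good conditions decide the pools `g i` of points below their height. -/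
structure Gd (η : Cardinal.{0}) {P B κ : Type} [CompleteBooleanAlgebra B] (le : P → P → Prop)
    (pr : P → B) (ht : P → Ix η) (a : Ix η → κ → B) (al : Ix η → B) (g : Ix η → P → Set κ)
    (good : P → Prop) : Prop where
  dense : ∀ p β, ∃ q, le q p ∧ β < ht q ∧ good q
  big : ∀ q i, good q → i < ht q → pr q ≤ (al i)ᶜ ∨ η ≤ #(g i q)
  sub : ∀ q i, good q → i < ht q → ∀ x ∈ g i q, pr q ≤ a i x ∧ ∀ j < i, pr q ≤ (a j x)ᶜ
  dec : ∀ q i j, good q → i < ht q → j < ht q → ∀ x ∈ g i q, pr q ≤ a j x ∨ pr q ≤ (a j x)ᶜ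
  coh : ∀ q r i, good q → i < ht q → le r q → g i r = g i q
  ctb : ∀ q j, {x | (∃ r, good r ∧ le q r ∧ ht r ≤ j ∧ ∃ i < ht r, x ∈ g i r) ∧
    pr q ≤ a j x}.Countable

/-- `φ` is forced into a countable ground set. -/
def DCt {P B κ : Type} [CompleteBooleanAlgebra B] (le : P → P → Prop) (pr : P → B) (φ : κ → B) :
    Prop := ∀ p, ∃ q, le q p ∧ ∃ s : Set κ, s.Countable ∧ ∀ x ∉ s, pr q ≤ (φ x)ᶜ

def ClubStmt : Prop := ∀ η : Cardinal.{0}, Crit ℵ₀ η →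
  ∃ (a0 : Ix η → Set (Ix η)) (P : Type) (le : P → P → Prop) (ht : P → Ix η), TF η a0 le ht

def GoodStmt : Prop := ∀ (η : Cardinal.{0}) (a0 : Ix η → Set (Ix η)) (P B κ : Type)
  [CompleteBooleanAlgebra B] (le : P → P → Prop) (pr : P → B) (ht : P → Ix η)
  (a : Ix η → κ → B) (al : Ix η → B), Crit ℵ₀ η → TF η a0 le ht → Cpl le pr → ADm le pr a →
  (∀ i p, pr p ≤ al i → ∀ S : Set κ, #S ≤ η → ∃ q x, le q p ∧ x ∉ S ∧ pr q ≤ a i x) →
  ∃ g good, Gd η le pr ht a al g good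

def SelStmt : Prop := ∀ (η : Cardinal.{0}) (a0 : Ix η → Set (Ix η)) (P B κ : Type)
  [CompleteBooleanAlgebra B] (le : P → P → Prop) (pr : P → B) (ht : P → Ix η)
  (a : Ix η → κ → B) (al : Ix η → B) (g : Ix η → P → Set κ) (good : P → Prop), Crit ℵ₀ η →
  TF η a0 le ht → Cpl le pr → ADm le pr a → (∀ i x, a i x ≤ al i) → Gd η le pr ht a al g good →
  ∃ t : κ → B, (∀ i, al i ≤ ⨆ x, t x ⊓ a i x) ∧ ∀ j, DCt le pr fun x => t x ⊓ a j x

def CardStmt : Prop := ∀ (η : Cardinal.{0}) (a0 : Ix η → Set (Ix η)) (P B : Type)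
  [CompleteBooleanAlgebra B] (le : P → P → Prop) (pr : P → B) (ht : P → Ix η), GCH →
  Crit ℵ₀ η → TF η a0 le ht → Cpl le pr → BGch B ∧
  ∀ S T : Type, ℵ₀ ≤ #T → #S < #T → (⊤ : B) ≤ (ble (chk T) (chk S))ᶜ

def UltraStmt : Prop := ∀ (η : Cardinal.{0}) (U : Ultrafilter (Ix η)), Crit ℵ₀ η →
  CountableInterFilter (U : Filter (Ix η)) → (∀ s ∈ U, #s = succ η) → ¬ AP η

end Pool.Agent.MP_41bf72_lc.AP
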